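import Pool.Agent.MP_c903c4_nt.Defs
import Pool.Agent.MP_fdd1d3_nt.Mertens
import Pool.Agent.MP_c903c4_nt.Four
import Pool.Agent.MP_2a1f0e_nt.Div

section

/-!
Adjusting the exponents one prime at a time.
-/

open Finset Filter Topology
open scoped Classical

noncomputable section

namespace Pool.Agent.MP_c903c4_nt

theorem Adj_basic (y : ℤ) (t : ℕ) : (y - 1) ^ 2 ∣ y ^ t - 1 - t * (y - 1) := by
  have := sq_dvd_add_pow_sub_sub (y - 1) 1 t
  simp only [add_sub_cancel, one_pow, one_mul] at this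
  obtain ⟨r, hr⟩ := this
  exact ⟨r, by linear_combination hr⟩

theorem Adj_split (g : ℤ) (c τ t : ℕ) : g ^ (c + τ * t) - g ^ c = g ^ c * ((g ^ τ) ^ t - 1) := by
  rw [pow_add, pow_mul]
  ring

theorem Adj_even {p : ℕ} (hp : p.Prime) (h3 : p % 4 = 3) (v : ℕ) : ∀ x y : ℤ,
    (p : ℤ) ^ v ∣ x ^ 2 + y ^ 2 → ¬ (p : ℤ) ^ (v + 1) ∣ x ^ 2 + y ^ 2 → Even v := by
  have := Fact.mk hp
  have hp0 : (p : ℤ) ≠ 0 := by exact_mod_cast hp.ne_zero
  induction v using Nat.strong_induction_on with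
  | _ v ih =>
    intro x y h1 h2
    rcases v with _ | v
    · exact Even.zero
    have h4 : (p : ℤ) ∣ x ^ 2 + y ^ 2 := (dvd_pow_self _ (Nat.succ_ne_zero v)).trans h1
    have h5 : ((x : ZMod p)) ^ 2 = -(y : ZMod p) ^ 2 := by
      have := (ZMod.intCast_zmod_eq_zero_iff_dvd _ p).2 h4
      push_cast at this
      linear_combination this
    have hy : (y : ZMod p) = 0 := by
      by_contra hy
      exact ZMod.mod_four_ne_three_of_sq_eq_neg_sq' hy h5 h3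
    have hx : (x : ZMod p) = 0 := by
      rw [hy] at h5
      simpa using h5
    obtain ⟨x', rfl⟩ := (ZMod.intCast_zmod_eq_zero_iff_dvd _ p).1 hx
    obtain ⟨y', rfl⟩ := (ZMod.intCast_zmod_eq_zero_iff_dvd _ p).1 hy
    have e : (p * x') ^ 2 + (p * y') ^ 2 = (p : ℤ) ^ 2 * (x' ^ 2 + y' ^ 2) := by ring
    rw [e] at h1 h2
    rcases v with _ | w
    · exact absurd (dvd_mul_right _ _) h2
    have h6 : (p : ℤ) ^ w ∣ x' ^ 2 + y' ^ 2 := by
      rw [show w + 1 + 1 = 2 + w by ring, pow_add] at h1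
      exact (mul_dvd_mul_iff_left (pow_ne_zero 2 hp0)).1 h1
    have h7 : ¬ (p : ℤ) ^ (w + 1) ∣ x' ^ 2 + y' ^ 2 := fun h => h2 (by
      rw [show w + 1 + 1 + 1 = 2 + (w + 1) by ring, pow_add]
      exact mul_dvd_mul_left _ h)
    obtain ⟨r, hr⟩ := ih w (by omega) x' y' h6 h7
    exact ⟨r + 1, by omega⟩

theorem Adj_two (v : ℕ) : ∀ x y : ℤ, (2 : ℤ) ^ v ∣ x ^ 2 + y ^ 2 →
    ¬ (2 : ℤ) ^ (v + 1) ∣ x ^ 2 + y ^ 2 → (2 : ℤ) ^ (v + 2) ∣ x ^ 2 + y ^ 2 - 2 ^ v := by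
  induction v with
  | zero =>
    intro x y _ h2
    rcases Int.even_or_odd' x with ⟨a, rfl | rfl⟩ <;> rcases Int.even_or_odd' y with ⟨b, rfl | rfl⟩
    · exact absurd ⟨2 * a ^ 2 + 2 * b ^ 2, by ring⟩ h2
    · exact ⟨a ^ 2 + b ^ 2 + b, by ring⟩
    · exact ⟨a ^ 2 + b ^ 2 + a, by ring⟩
    · exact absurd ⟨2 * a ^ 2 + 2 * b ^ 2 + 2 * a + 2 * b + 1, by ring⟩ h2
  | succ v ih =>
    intro x y h1 h2
    have h4 : (2 : ℤ) ∣ x ^ 2 + y ^ 2 := (dvd_pow_self _ (Nat.succ_ne_zero v)).trans h1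
    obtain ⟨a, b, rfl, rfl⟩ : ∃ a b : ℤ, x = a + b ∧ y = a - b := by
      rcases Int.even_or_odd' x with ⟨a, rfl | rfl⟩ <;>
        rcases Int.even_or_odd' y with ⟨b, rfl | rfl⟩
      · exact ⟨a + b, a - b, by ring, by ring⟩
      · obtain ⟨t, ht⟩ := h4
        have : (1 : ℤ) = 2 * (t - 2 * a ^ 2 - 2 * b ^ 2 - 2 * b) := by linear_combination ht
        omega
      · obtain ⟨t, ht⟩ := h4
        have : (1 : ℤ) = 2 * (t - 2 * a ^ 2 - 2 * b ^ 2 - 2 * a) := by linear_combination ht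
        omega
      · exact ⟨a + b + 1, a - b, by ring, by ring⟩
    have e : (a + b) ^ 2 + (a - b) ^ 2 = 2 * (a ^ 2 + b ^ 2) := by ring
    rw [e] at h1 h2 ⊢
    rw [pow_succ'] at h1
    obtain ⟨t, ht⟩ := ih a b ((mul_dvd_mul_iff_left two_ne_zero).1 h1) fun h => h2 (by
      rw [pow_succ' _ (v + 1)]
      exact mul_dvd_mul_left _ h)
    exact ⟨t, by linear_combination 2 * ht⟩

theorem Adj_val {p : ℤ} {n : ℕ} {m : ℤ} (h : ¬ p ^ n ∣ m) : ∃ v, v < n ∧ p ^ v ∣ m ∧ ¬ p ^ (v + 1) ∣ m := by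
  induction n with
  | zero => exact absurd (by simp) h
  | succ n ih =>
    by_cases h1 : p ^ n ∣ m
    · exact ⟨n, Nat.lt_succ_self n, h1, h⟩
    · obtain ⟨v, hv, h2⟩ := ih h1
      exact ⟨v, by omega, h2⟩

theorem Adj_lift {p n : ℕ} (hn : 1 ≤ n) {y : ℤ} (h : (p : ℤ) ^ n ∣ y - 1) :
    (p : ℤ) ^ (n + 1) ∣ y ^ p - 1 := by
  have h1 : (p : ℤ) ∣ y - 1 := (dvd_pow_self _ (by omega)).trans h
  have h2 : (p : ℤ) ∣ ∑ i ∈ range p, y ^ i := by
    have e : ∑ i ∈ range p, y ^ i = ∑ i ∈ range p, (y ^ i - 1) + p := by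
      rw [sum_sub_distrib]
      simp
    rw [e]
    refine dvd_add (dvd_sum fun i _ => h1.trans ?_) dvd_rfl
    simpa using sub_dvd_pow_sub_pow y 1 i
  rw [← geom_sum_mul, pow_succ']
  exact mul_dvd_mul h2 h

theorem Adj_lte_dvd {p j τ : ℕ} (hj : 1 ≤ j) {g : ℤ} (h1 : (p : ℤ) ^ j ∣ g ^ τ - 1) (i u : ℕ) :
    (p : ℤ) ^ (j + i) ∣ g ^ (τ * p ^ i * u) - 1 := by
  have key : (p : ℤ) ^ (j + i) ∣ g ^ (τ * p ^ i) - 1 := by
    induction i with
    | zero => simpa using h1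
    | succ i ih =>
      rw [pow_succ p i, ← mul_assoc, pow_mul g, ← add_assoc]
      exact Adj_lift (by omega) ih
  refine key.trans ?_
  rw [pow_mul g _ u]
  simpa using sub_dvd_pow_sub_pow (g ^ (τ * p ^ i)) 1 u

theorem Adj_lte {p j τ : ℕ} (hp : p.Prime) (h2 : p ≠ 2) (hj : 1 ≤ j) {g : ℤ}
    (h1 : (p : ℤ) ^ j ∣ g ^ τ - 1) (h3 : ¬ (p : ℤ) ^ (j + 1) ∣ g ^ τ - 1) (i u : ℕ)
    (hu : ¬ p ∣ u) : ¬ (p : ℤ) ^ (j + i + 1) ∣ g ^ (τ * p ^ i * u) - 1 := by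
  have h4 : (p : ℤ) ∣ g ^ τ - 1 := (dvd_pow_self _ (by omega)).trans h1
  have h5 : ¬ (p : ℤ) ∣ g ^ τ := fun h => by
    have h6 : (p : ℤ) ∣ 1 := by simpa using dvd_sub h h4
    exact hp.one_lt.ne' (by exact_mod_cast Int.eq_one_of_dvd_one (by positivity) h6)
  have e := Int.emultiplicity_pow_sub_pow hp (hp.odd_of_ne_two h2) h4 h5 (p ^ i * u)
  have e1 : emultiplicity (p : ℤ) (g ^ τ - 1) = j := emultiplicity_eq_of_dvd_of_not_dvd h1 h3
  have e2 : emultiplicity p (p ^ i * u) = i :=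
    emultiplicity_eq_of_dvd_of_not_dvd (dvd_mul_right _ _) fun h => hu (by
      rw [pow_succ] at h
      exact (mul_dvd_mul_iff_left (pow_ne_zero i hp.ne_zero)).1 h)
  rw [e1, e2, one_pow, ← pow_mul, ← mul_assoc, ← Nat.cast_add] at e
  exact (emultiplicity_eq_coe.1 e).2

theorem Fin'.congr {L p k μ v : ℕ} {m m' : ℤ} (h : Fin' L p k μ v m) (hm : (p : ℤ) ^ μ ∣ m' - m) :
    Fin' L p k μ v m' := by
  obtain ⟨h1, h2, h3, h4, h5, h6, h7⟩ := h
  have e : m' = (m' - m) + m := by ring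
  refine ⟨h1, h2, ?_, fun hv => ⟨(h4 hv).1, fun hd => (h4 hv).2 ?_⟩, h5, fun hp => ?_, h7⟩
  · rw [e]
    exact dvd_add ((pow_dvd_pow _ h2).trans hm) h3
  · have := dvd_sub hd ((pow_dvd_pow _ (h4 hv).1).trans hm)
    rwa [sub_sub_cancel] at this
  · obtain ⟨h8, h9, h10⟩ := h6 hp
    refine ⟨h8, h9, ?_⟩
    subst hp
    obtain ⟨r, hr⟩ := dvd_add ((pow_dvd_pow _ h9).trans hm) h10
    push_cast at hr
    exact ⟨r, by linear_combination hr⟩

theorem adj (a : ℤ) (P : Finset ℕ) (M : ℕ → ℤ) (Pre Good : ℕ → ℤ → Prop) (τ : ℕ → ℕ) (k : ℕ)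
    (hP : ∀ p ∈ P, ∀ m m', M p ∣ m' - m → Pre p m → Pre p m')
    (hG : ∀ p ∈ P, ∀ m m', M p ∣ m' - m → Good p m → Good p m')
    (hτ : ∀ p ∈ P, ∀ p' ∈ P, p ≠ p' → ∀ c t : ℕ, k ≤ c →
      M p' ∣ 3 ^ (c + τ p * t) - 3 ^ c ∧ M p' ∣ 5 ^ (c + τ p * t) - 5 ^ c)
    (hs : ∀ p ∈ P, ∀ c d : ℕ, k ≤ c → k ≤ d → Pre p (mm a c d) →
      ∃ i j : ℕ, Good p (mm a (c + τ p * i) (d + τ p * j)))
    {c d : ℕ} (hc : k ≤ c) (hd : k ≤ d) (h : ∀ p ∈ P, Pre p (mm a c d)) :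
    ∃ c' d' : ℕ, k ≤ c' ∧ k ≤ d' ∧ ∀ p ∈ P, Good p (mm a c' d') := by
  have key : ∀ Q : Finset ℕ, Q ⊆ P → ∃ c' d' : ℕ, k ≤ c' ∧ k ≤ d' ∧
      (∀ p ∈ Q, Good p (mm a c' d')) ∧ ∀ p ∈ P, p ∉ Q → Pre p (mm a c' d') := by
    intro Q
    induction Q using Finset.induction_on with
    | empty => exact fun _ => ⟨c, d, hc, hd, by simp, fun p hp _ => h p hp⟩
    | insert q Q hq ih =>
      intro hQ
      obtain ⟨c', d', h1, h2, h3, h4⟩ := ih ((subset_insert _ _).trans hQ)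
      have hqP : q ∈ P := hQ (mem_insert_self _ _)
      obtain ⟨i, j, h5⟩ := hs q hqP c' d' h1 h2 (h4 q hqP hq)
      have h6 : ∀ p ∈ P, q ≠ p → M p ∣ mm a (c' + τ q * i) (d' + τ q * j) - mm a c' d' := by
        intro p hp hne
        obtain ⟨r, hr⟩ := dvd_add (hτ q hqP p hp hne c' i h1).1 (hτ q hqP p hp hne d' j h2).2
        refine ⟨-r, ?_⟩
        unfold mm
        linear_combination -hr
      refine ⟨c' + τ q * i, d' + τ q * j, by omega, by omega, fun p hp => ?_, fun p hp hn => ?_⟩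
      · rcases mem_insert.1 hp with rfl | hp'
        · exact h5
        · exact hG p (hQ hp) _ _ (h6 p (hQ hp) fun e => hq (e ▸ hp')) (h3 p hp')
      · rw [mem_insert, not_or] at hn
        exact hP p hp _ _ (h6 p hp fun e => hn.1 e.symm) (h4 p hp hn.2)
  obtain ⟨c', d', h1, h2, h3, -⟩ := key P Subset.rfl
  exact ⟨c', d', h1, h2, h3⟩

/-- Raising the valuation by one. -/
theorem step_up {p j τ : ℕ} (hp : p.Prime) (hj : 1 ≤ j) {g : ℤ} (hg : ¬ (p : ℤ) ∣ g)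
    (h1 : (p : ℤ) ^ j ∣ g ^ τ - 1) (h2 : ¬ (p : ℤ) ^ (j + 1) ∣ g ^ τ - 1) {m : ℤ}
    (hm : (p : ℤ) ^ j ∣ m) (c : ℕ) :
    ∃ t : ℕ, (p : ℤ) ^ (j + 1) ∣ m - (g ^ (c + τ * t) - g ^ c) := by
  have := Fact.mk hp
  have hp' : Prime (p : ℤ) := Nat.prime_iff_prime_int.1 hp
  obtain ⟨x, hx⟩ := h1
  obtain ⟨m₁, rfl⟩ := hm
  have hx1 : ¬ (p : ℤ) ∣ x := fun h => h2 (by
    rw [hx, pow_succ]
    exact mul_dvd_mul_left _ h)
  have hw : ((g ^ c * x : ℤ) : ZMod p) ≠ 0 := fun h => by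
    rcases hp'.dvd_or_dvd ((ZMod.intCast_zmod_eq_zero_iff_dvd _ p).1 h) with h | h
    · exact hg (hp'.dvd_of_dvd_pow h)
    · exact hx1 h
  obtain ⟨t, ht⟩ : ∃ t : ℕ, (p : ℤ) ∣ m₁ - g ^ c * x * t := by
    refine ⟨((m₁ : ZMod p) / ((g ^ c * x : ℤ) : ZMod p)).val, ?_⟩
    rw [← ZMod.intCast_zmod_eq_zero_iff_dvd, Int.cast_sub, Int.cast_mul, Int.cast_natCast,
      ZMod.natCast_zmod_val, mul_div_cancel₀ _ hw, sub_self]
  refine ⟨t, ?_⟩
  obtain ⟨r, hr⟩ := Adj_basic (g ^ τ) t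
  obtain ⟨s, hs⟩ := ht
  obtain ⟨i, rfl⟩ := Nat.exists_eq_add_of_le hj
  rw [Adj_split]
  rw [hx] at hr
  refine ⟨s - g ^ c * (p ^ i * x ^ 2 * r), ?_⟩
  linear_combination (p : ℤ) ^ (1 + i) * hs - g ^ c * hr

/-- The step at a small prime. -/
theorem step_small {L p j k τ : ℕ} (hp : p.Prime) (hj : 2 ≤ j) (hk : j + 3 ≤ k) {g : ℤ}
    (hg : ¬ (p : ℤ) ∣ g) (h1 : (p : ℤ) ^ j ∣ g ^ τ - 1) (h2 : ¬ (p : ℤ) ^ (j + 1) ∣ g ^ τ - 1)
    {m : ℤ} (hm : p % 4 = 1 ∨ SS ((p : ℤ) ^ k) m) (c : ℕ) :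
    ∃ t v : ℕ, Fin' L p k k v (m - (g ^ (c + τ * t) - g ^ c)) := by
  have hp' : Prime (p : ℤ) := Nat.prime_iff_prime_int.1 hp
  by_cases hm1 : (p : ℤ) ^ (k - 1) ∣ m
  swap
  · obtain ⟨v, hv, h3, h4⟩ := Adj_val hm1
    have h5 : p % 4 ≠ 1 → ∃ x y : ℤ, (p : ℤ) ^ k ∣ m - (x ^ 2 + y ^ 2) ∧
        (p : ℤ) ^ v ∣ x ^ 2 + y ^ 2 ∧ ¬ (p : ℤ) ^ (v + 1) ∣ x ^ 2 + y ^ 2 := fun h => by
      obtain ⟨x, y, h6⟩ := hm.resolve_left h
      refine ⟨x, y, h6, ?_, fun h7 => h4 ?_⟩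
      · have := dvd_sub h3 ((pow_dvd_pow _ (by omega : v ≤ k)).trans h6)
        rwa [sub_sub_cancel] at this
      · have := dvd_add ((pow_dvd_pow _ (by omega : v + 1 ≤ k)).trans h6) h7
        rwa [sub_add_cancel] at this
    refine ⟨0, v, ?_⟩
    rw [mul_zero, add_zero, sub_self, sub_zero]
    refine ⟨by omega, by omega, h3, fun _ => ⟨by omega, h4⟩, fun h => ?_, fun h => ?_,
      fun _ => by omega⟩
    · obtain ⟨x, y, -, h7, h8⟩ := h5 (by omega)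
      exact Adj_even hp h v x y h7 h8
    · subst h
      obtain ⟨x, y, h6, h7, h8⟩ := h5 (by omega)
      refine ⟨by omega, by omega, ?_⟩
      obtain ⟨r, hr⟩ := dvd_add ((pow_dvd_pow _ (by omega : v + 2 ≤ k)).trans h6)
        (Adj_two v x y h7 h8)
      push_cast at hr
      exact ⟨r, by linear_combination hr⟩
  have hm2 : (p : ℤ) ^ (j + 2) ∣ m := (pow_dvd_pow _ (by omega)).trans hm1
  by_cases hp2 : p = 2
  · subst hp2
    obtain ⟨x, hx⟩ := h1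
    have hx1 : ¬ ((2 : ℕ) : ℤ) ∣ x := fun h => h2 (by
      rw [hx, pow_succ]
      exact mul_dvd_mul_left _ h)
    have hw : ¬ ((2 : ℕ) : ℤ) ∣ g ^ c * x := fun h => by
      rcases hp'.dvd_or_dvd h with h | h
      · exact hg (hp'.dvd_of_dvd_pow h)
      · exact hx1 h
    obtain ⟨t, s, hs⟩ : ∃ (t : ℕ) (s : ℤ), g ^ c * x * t + 1 = 4 * s := by
      generalize g ^ c * x = w at hw
      push_cast at hw
      rcases (by omega : w % 4 = 1 ∨ w % 4 = 3) with h | h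
      · exact ⟨3, (w * 3 + 1) / 4, by push_cast; omega⟩
      · exact ⟨1, (w * 1 + 1) / 4, by push_cast; omega⟩
    have h6 : (2 : ℤ) ^ (j + 2) ∣ m - (g ^ (c + τ * t) - g ^ c) - 2 ^ j := by
      obtain ⟨r, hr⟩ := Adj_basic (g ^ τ) t
      obtain ⟨m₁, hm₁⟩ := hm2
      obtain ⟨i, rfl⟩ := Nat.exists_eq_add_of_le hj
      rw [Adj_split]
      rw [hx] at hr
      push_cast at hr hm₁
      refine ⟨m₁ - s - g ^ c * (2 ^ i * x ^ 2 * r), ?_⟩
      linear_combination hm₁ - (2 : ℤ) ^ (2 + i) * hs - g ^ c * hr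
    refine ⟨t, j, by omega, by omega, ?_, fun _ => ⟨by omega, fun h => ?_⟩, fun h => by omega,
      fun _ => ⟨by omega, by omega, h6⟩, fun _ => by omega⟩
    · have := dvd_add ((pow_dvd_pow _ (by omega : j ≤ j + 2)).trans h6) (dvd_refl ((2 : ℤ) ^ j))
      rw [sub_add_cancel] at this
      exact_mod_cast this
    · push_cast at h
      have := dvd_sub h ((pow_dvd_pow _ (by omega : j + 1 ≤ j + 2)).trans h6)
      rw [sub_sub_cancel, pow_dvd_pow_iff two_ne_zero (by decide)] at this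
      omega
  have key : ∀ i : ℕ, i ≤ 1 → Even (j + i) → ∃ t v : ℕ,
      Fin' L p k k v (m - (g ^ (c + τ * t) - g ^ c)) := fun i hi he => by
    have h3 := Adj_lte_dvd (by omega) h1 i 1
    have h4 := Adj_lte hp hp2 (by omega) h1 h2 i 1 hp.not_dvd_one
    rw [mul_one, pow_mul] at h3 h4
    refine ⟨p ^ i, j + i, by omega, by omega, ?_, fun _ => ⟨by omega, fun h => h4 ?_⟩,
      fun _ => he, fun h => absurd h hp2, fun _ => by omega⟩
    · rw [Adj_split]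
      exact dvd_sub ((pow_dvd_pow _ (by omega)).trans hm2) (h3.mul_left _)
    · have := dvd_sub ((pow_dvd_pow _ (by omega : j + i + 1 ≤ j + 2)).trans hm2) h
      rw [sub_sub_cancel, Adj_split] at this
      exact hp'.pow_dvd_of_dvd_mul_left _ (fun h => hg (hp'.dvd_of_dvd_pow h)) this
  rcases Nat.even_or_odd j with he | ho
  · exact key 0 (by omega) he
  · exact key 1 le_rfl ho.add_one

/-- Exact valuations: lifting the exponent for an odd prime. -/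
theorem lte {p j τ : ℕ} (hp : p.Prime) (h2 : p ≠ 2) (hj : 1 ≤ j) {g : ℤ}
    (h1 : (p : ℤ) ^ j ∣ g ^ τ - 1) (h3 : ¬ (p : ℤ) ^ (j + 1) ∣ g ^ τ - 1) (i u : ℕ)
    (hu : ¬ p ∣ u) : ¬ (p : ℤ) ^ (j + i + 1) ∣ g ^ (τ * p ^ i * u) - 1 := by
  exact Adj_lte hp h2 hj h1 h3 i u hu

/-- The exact valuation does not change along multipliers prime to p. -/
theorem lte_unit {p j τ : ℕ} (hp : p.Prime) (hj : 1 ≤ j) {g : ℤ}
    (h1 : (p : ℤ) ^ j ∣ g ^ τ - 1) (h3 : ¬ (p : ℤ) ^ (j + 1) ∣ g ^ τ - 1) (u : ℕ)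
    (hu : ¬ p ∣ u) : ¬ (p : ℤ) ^ (j + 1) ∣ g ^ (τ * u) - 1 := by
  intro h
  have hp' : Prime (p : ℤ) := Nat.prime_iff_prime_int.1 hp
  have hp0 : (p : ℤ) ≠ 0 := hp'.ne_zero
  obtain ⟨x, hx⟩ := h1
  have h4 : (p : ℤ) ^ (j + 1) ∣ (g ^ τ - 1) ^ 2 := by
    rw [hx, mul_pow, ← pow_mul]
    exact (pow_dvd_pow _ (by omega)).mul_right _
  rw [pow_mul] at h
  have h5 := dvd_sub h (h4.trans (Adj_basic (g ^ τ) u))
  rw [sub_sub_cancel, hx, pow_succ, mul_left_comm,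
    mul_dvd_mul_iff_left (pow_ne_zero j hp0)] at h5
  rcases hp'.dvd_or_dvd h5 with h6 | h6
  · exact hu (by exact_mod_cast h6)
  · exact h3 (by
      rw [hx, pow_succ]
      exact mul_dvd_mul_left _ h6)

theorem lte_dvd {p j τ : ℕ} (hj : 1 ≤ j) {g : ℤ} (h1 : (p : ℤ) ^ j ∣ g ^ τ - 1) (i u : ℕ) :
    (p : ℤ) ^ (j + i) ∣ g ^ (τ * p ^ i * u) - 1 := by
  exact Adj_lte_dvd hj h1 i u

theorem assemble {L : ℕ} (P : Finset ℕ) (hP : ∀ p ∈ P, p.Prime) (h2 : 2 ∈ P) (k μ v : ℕ → ℕ)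
    {ι : Type} [Nonempty ι] (m : ι → ℤ) (h : ∀ p ∈ P, ∀ i, Fin' L p (k p) (μ p) (v p) (m i)) :
    4 ∣ ∏ p ∈ P, p ^ (k p - v p) ∧ (∃ x y : ℕ, ∏ p ∈ P, p ^ v p = x ^ 2 + y ^ 2) ∧
      ∀ i, ∃ b : ℤ, m i = (∏ p ∈ P, p ^ v p : ℕ) * b ∧ b % 4 = 1 ∧
        IsCoprime b ((∏ p ∈ P, p ^ (k p - v p) : ℕ) : ℤ) := by
  obtain ⟨i₀⟩ := ‹Nonempty ι›
  refine ⟨?_, ?_, fun i => ?_⟩
  · refine Dvd.dvd.trans ?_ (dvd_prod_of_mem _ h2)
    have := ((h 2 h2 i₀).2.2.2.2.2.1 rfl).1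
    exact pow_dvd_pow 2 (by omega : 2 ≤ k 2 - v 2)
  · refine prod_induction _ (fun n => ∃ x y : ℕ, n = x ^ 2 + y ^ 2)
      (fun a b ⟨_, _, ha⟩ ⟨_, _, hb⟩ => Nat.sq_add_sq_mul ha hb) ⟨1, 0, rfl⟩ fun p hp => ?_
    by_cases h3 : p % 4 = 3
    · obtain ⟨r, hr⟩ := (h p hp i₀).2.2.2.2.1 h3
      exact ⟨p ^ r, 0, by rw [hr]; ring⟩
    · have := Fact.mk (hP p hp)
      obtain ⟨a, b, hab⟩ := Nat.Prime.sq_add_sq h3
      induction v p with
      | zero => exact ⟨1, 0, rfl⟩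
      | succ n ih =>
        obtain ⟨x, y, hxy⟩ := ih
        rw [pow_succ]
        exact Nat.sq_add_sq_mul hxy hab.symm
  · obtain ⟨b, hb⟩ : ((∏ p ∈ P, p ^ v p : ℕ) : ℤ) ∣ m i := by
      push_cast
      refine Finset.prod_dvd_of_coprime (fun p hp q hq hne => ?_) fun p hp => (h p hp i).2.2.1
      exact (Nat.isCoprime_iff_coprime.2 ((Nat.coprime_primes (hP p hp) (hP q hq)).2 hne)).pow
    refine ⟨b, hb, ?_, ?_⟩
    · have h4 : (∏ p ∈ P.erase 2, p ^ v p) % 4 = 1 := by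
        refine prod_induction _ (fun n => n % 4 = 1)
          (fun a b ha hb => by rw [Nat.mul_mod, ha, hb]) rfl fun p hp => ?_
        obtain ⟨hne, hp⟩ := mem_erase.1 hp
        have h5 := (hP p hp).eq_two_or_odd.resolve_left hne
        rcases (by omega : p % 4 = 1 ∨ p % 4 = 3) with h6 | h6
        · rw [Nat.pow_mod, h6, one_pow]
          rfl
        · obtain ⟨r, hr⟩ := (h p hp i).2.2.2.2.1 h6
          rw [hr, ← two_mul, pow_mul, Nat.pow_mod, Nat.pow_mod p 2, h6]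
          simp
      rw [← mul_prod_erase P _ h2] at hb
      obtain ⟨s, hs⟩ := ((h 2 h2 i).2.2.2.2.2.1 rfl).2.2
      generalize (∏ p ∈ P.erase 2, p ^ v p) = G at h4 hb
      obtain ⟨n, rfl⟩ : ∃ n, G = 4 * n + 1 := ⟨G / 4, by omega⟩
      push_cast at hb
      have h7 : b = 4 * (s - n * b) + 1 := by
        refine mul_left_cancel₀ (pow_ne_zero (v 2) (two_ne_zero (α := ℤ))) ?_
        linear_combination hs - hb
      omega
    · push_cast
      refine IsCoprime.prod_right fun p hp => ?_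
      rcases (h p hp i).1.eq_or_lt with he | hlt
      · rw [he, Nat.sub_self, pow_zero]
        exact isCoprime_one_right
      · refine IsCoprime.pow_right ?_
        refine ((Nat.prime_iff_prime_int.1 (hP p hp)).coprime_iff_not_dvd.2 fun hd => ?_).symm
        refine ((h p hp i).2.2.2.1 hlt).2 ?_
        rw [hb, pow_succ]
        refine mul_dvd_mul ?_ hd
        exact_mod_cast dvd_prod_of_mem (fun p => p ^ v p) hp

end Pool.Agent.MP_c903c4_nt

end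
end

section

/-!
Parameters for the choice of good classes.
-/

open Finset Filter Topology
open scoped Classical

noncomputable section

namespace Pool.Agent.MP_c903c4_nt

/-- The small primes. -/
def sm (L : ℕ) : Finset ℕ := (range (L + 1)).filter Nat.Prime

/-- The larger primes with smooth orders. -/
def bg (L y : ℕ) : Finset ℕ := (Ioc L y).filter fun p => p.Prime ∧ Lam p ≤ L

/-- The basic exponent. -/
def OO (L y : ℕ) : ℕ :=
  (∏ p ∈ bg L y, orderOf (3 : ZMod p) * orderOf (5 : ZMod p)) * ∏ l ∈ sm L, l * (l - 1)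

/-- The base used at a small prime. -/
def gs (l : ℕ) : ℤ := if l = 5 then 3 else 5

/-- The exponent of the small primes. -/
def kk (L y : ℕ) : ℕ := (sm L).sup (fun l => padicValInt l (gs l ^ OO L y - 1)) + 3

/-- The Wieferich level of a larger prime. -/
def ee (L y p : ℕ) : ℕ := min (padicValInt p (3 ^ OO L y - 1)) (padicValInt p (5 ^ OO L y - 1))

/-- The exponent of a prime in the modulus. -/
def ff (L y p : ℕ) : ℕ :=
  if p ≤ L then kk L y else if p % 4 = 3 ∧ Odd (ee L y p) then ee L y p + 1 else ee L y p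

/-- All primes of the modulus. -/
def PP (L y : ℕ) : Finset ℕ := sm L ∪ bg L y

/-- The modulus. -/
def q0 (L y : ℕ) : ℕ := ∏ p ∈ PP L y, p ^ ff L y p

/-- The part of the modulus that decides the choice of the class. -/
def q1 (L y : ℕ) : ℕ := ∏ p ∈ (PP L y).filter (fun p => p ≤ L ∨ 2 ≤ ee L y p), p ^ ff L y p

/-- The basic period. -/
def T0 (L y : ℕ) : ℕ := OO L y * ∏ l ∈ sm L, l ^ kk L y

variable {L y : ℕ}

lemma mem_sm {p : ℕ} : p ∈ sm L ↔ p ≤ L ∧ p.Prime := by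
  simp [sm]

lemma mem_bg {p : ℕ} : p ∈ bg L y ↔ (L < p ∧ p ≤ y) ∧ p.Prime ∧ Lam p ≤ L := by
  simp [bg]

lemma mem_PP {p : ℕ} : p ∈ PP L y ↔ p ∈ sm L ∨ p ∈ bg L y := by simp [PP]

lemma PP_prime {p : ℕ} (h : p ∈ PP L y) : p.Prime := by
  rcases mem_PP.1 h with h | h
  · exact (mem_sm.1 h).2
  · exact (mem_bg.1 h).2.1

lemma PP_big {p : ℕ} (h : p ∈ PP L y) (hp : ¬ p ≤ L) : p ∈ bg L y := by
  rcases mem_PP.1 h with h | h
  · exact absurd (mem_sm.1 h).1 hp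
  · exact h

lemma PP_small {p : ℕ} (h : p ∈ PP L y) (hp : p ≤ L) : p ∈ sm L :=
  mem_sm.2 ⟨hp, PP_prime h⟩

lemma ord_pos {q g : ℕ} (hq : 0 < q) (h : g.Coprime q) : 0 < orderOf (g : ZMod q) := by
  have : NeZero q := ⟨hq.ne'⟩
  have : IsUnit (g : ZMod q) := (ZMod.isUnit_iff_coprime g q).2 h
  obtain ⟨u, hu⟩ := this
  rw [← hu, orderOf_units]
  exact orderOf_pos u

lemma Ok.ord3 {q : ℕ} (h : Ok q) : 0 < orderOf (3 : ZMod q) := by
  have := ord_pos (g := 3) h.1 (Nat.Coprime.symm (h.2.of_dvd_right (by norm_num)))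
  simpa using this

lemma Ok.ord5 {q : ℕ} (h : Ok q) : 0 < orderOf (5 : ZMod q) := by
  have := ord_pos (g := 5) h.1 (Nat.Coprime.symm (h.2.of_dvd_right (by norm_num)))
  simpa using this

lemma ok_prime {p : ℕ} (hp : p.Prime) (h : 5 < p) : Ok p := by
  refine ⟨hp.pos, ?_⟩
  have h3 : p.Coprime 3 := (Nat.coprime_primes hp Nat.prime_three).2 (by omega)
  have h5 : p.Coprime 5 := (Nat.coprime_primes hp Nat.prime_five).2 (by omega)
  exact Nat.Coprime.mul_right h3 h5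

lemma le_Lam {q l : ℕ} (hq : Ok q) (hl : l.Prime)
    (h : l ∣ orderOf (3 : ZMod q) * orderOf (5 : ZMod q)) : l ≤ Lam q :=
  Finset.le_sup (f := id) (Nat.mem_primeFactors.2 ⟨hl, h, (Nat.mul_pos hq.ord3 hq.ord5).ne'⟩)

lemma Lam_spec {q : ℕ} (h : 0 < Lam q) :
    (Lam q).Prime ∧ Lam q ∣ orderOf (3 : ZMod q) * orderOf (5 : ZMod q) := by
  have hne : (orderOf (3 : ZMod q) * orderOf (5 : ZMod q)).primeFactors.Nonempty := by
    by_contra hc
    rw [Finset.not_nonempty_iff_eq_empty] at hc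
    simp [Lam, hc] at h
  obtain ⟨l, hl, he⟩ := Finset.exists_mem_eq_sup _ hne id
  have : Lam q = l := he
  rw [this]
  exact ⟨Nat.prime_of_mem_primeFactors hl, Nat.dvd_of_mem_primeFactors hl⟩

lemma dvd_of_ord {q g n : ℕ} (h : orderOf (g : ZMod q) ∣ n) : (q : ℤ) ∣ (g : ℤ) ^ n - 1 := by
  rw [← ZMod.intCast_zmod_eq_zero_iff_dvd]
  push_cast
  rw [orderOf_dvd_iff_pow_eq_one.1 h, sub_self]

lemma ord_of_dvd {q g n : ℕ} (h : (q : ℤ) ∣ (g : ℤ) ^ n - 1) : orderOf (g : ZMod q) ∣ n := by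
  rw [← ZMod.intCast_zmod_eq_zero_iff_dvd] at h
  push_cast at h
  exact orderOf_dvd_iff_pow_eq_one.2 (sub_eq_zero.1 h)

lemma Lam_mono {p q : ℕ} (hq : Ok q) (h : p ∣ q) : Lam p ≤ Lam q := by
  rcases Nat.eq_zero_or_pos (Lam p) with h0 | h0
  · omega
  obtain ⟨h1, h2⟩ := Lam_spec h0
  refine le_Lam hq h1 (h2.trans (Nat.mul_dvd_mul ?_ ?_))
  · have := ord_of_dvd (q := p) (g := 3)
      ((Int.natCast_dvd_natCast.2 h).trans (dvd_of_ord (q := q) (g := 3) dvd_rfl))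
    simpa using this
  · have := ord_of_dvd (q := p) (g := 5)
      ((Int.natCast_dvd_natCast.2 h).trans (dvd_of_ord (q := q) (g := 5) dvd_rfl))
    simpa using this

lemma OO_pos (hL : 5 ≤ L) : 0 < OO L y := by
  refine Nat.mul_pos (Finset.prod_pos fun p hp => ?_) (Finset.prod_pos fun l hl => ?_)
  · obtain ⟨⟨h1, _⟩, h2, _⟩ := mem_bg.1 hp
    have := ok_prime h2 (by omega)
    exact Nat.mul_pos this.ord3 this.ord5
  · have := (mem_sm.1 hl).2.two_le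
    exact Nat.mul_pos (by omega) (by omega)

lemma OO_smooth (hL : 5 ≤ L) {l : ℕ} (hl : l.Prime) (h : l ∣ OO L y) : l ≤ L := by
  rcases (Nat.Prime.dvd_mul hl).1 h with h | h
  · obtain ⟨p, hp, h⟩ := (Prime.dvd_finsetProd_iff hl.prime _).1 h
    obtain ⟨⟨h1, _⟩, h2, h3⟩ := mem_bg.1 hp
    exact (le_Lam (ok_prime h2 (by omega)) hl h).trans h3
  · obtain ⟨p, hp, h⟩ := (Prime.dvd_finsetProd_iff hl.prime _).1 h
    obtain ⟨h1, h2⟩ := mem_sm.1 hp
    have := h2.two_le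
    rcases (Nat.Prime.dvd_mul hl).1 h with h | h
    · exact (Nat.le_of_dvd (by omega) h).trans h1
    · have := Nat.le_of_dvd (by omega) h
      omega

lemma pow_sub_one_ne (hL : 5 ≤ L) {g : ℤ} (hg : g = 3 ∨ g = 5) : g ^ OO L y - 1 ≠ 0 := by
  have h1 : 1 < g ^ OO L y := one_lt_pow₀ (by rcases hg with rfl | rfl <;> norm_num) (OO_pos hL).ne'
  omega

lemma val_dvd_iff {p n : ℕ} (hp : p.Prime) {x : ℤ} (hx : x ≠ 0) :
    (p : ℤ) ^ n ∣ x ↔ n ≤ padicValInt p x := by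
  have := Fact.mk hp
  rw [padicValInt_dvd_iff]
  simp [hx]

lemma not_dvd_base {p : ℕ} (hp : p.Prime) {g : ℤ} (hg : g = 3 ∨ g = 5) (h : (p : ℤ) ≠ g) :
    ¬ (p : ℤ) ∣ g := by
  intro hd
  rcases hg with rfl | rfl
  · have : p ∣ 3 := by exact_mod_cast hd
    exact h (by exact_mod_cast (Nat.prime_dvd_prime_iff_eq hp Nat.prime_three).1 this)
  · have : p ∣ 5 := by exact_mod_cast hd
    exact h (by exact_mod_cast (Nat.prime_dvd_prime_iff_eq hp Nat.prime_five).1 this)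

lemma small_sq {l : ℕ} (hl : l ∈ sm L) {g : ℤ} (hg : g = 3 ∨ g = 5) (h : (l : ℤ) ≠ g) :
    (l : ℤ) ^ 2 ∣ g ^ OO L y - 1 := by
  have hp := (mem_sm.1 hl).2
  have hd : l * (l - 1) ∣ OO L y :=
    Dvd.dvd.mul_left (Finset.dvd_prod_of_mem (fun l => l * (l - 1)) hl) _
  have ht : Nat.totient (l ^ 2) = l * (l - 1) := by
    rw [Nat.totient_prime_pow hp (by norm_num)]
    simp
  have key : ∀ n : ℕ, ¬ (l : ℤ) ∣ (n : ℤ) → (l : ℤ) ^ 2 ∣ (n : ℤ) ^ OO L y - 1 := by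
    intro n hn
    have hc : n.Coprime (l ^ 2) :=
      Nat.Coprime.pow_right 2 ((Nat.Prime.coprime_iff_not_dvd hp).2
        (fun h => hn (by exact_mod_cast h))).symm
    have h1 := Nat.ModEq.pow_totient hc
    rw [ht] at h1
    have h2 : ((l ^ 2 : ℕ) : ℤ) ∣ (n : ℤ) ^ (l * (l - 1)) - 1 := by
      have := (Nat.modEq_iff_dvd.1 h1.symm)
      exact_mod_cast this
    have h3 := dvd_of_ord ((ord_of_dvd h2).trans hd)
    exact_mod_cast h3
  have hn := not_dvd_base hp hg h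
  rcases hg with rfl | rfl
  · exact_mod_cast key 3 (by exact_mod_cast hn)
  · exact_mod_cast key 5 (by exact_mod_cast hn)

lemma ee_dvd (hL : 5 ≤ L) {p : ℕ} (hp : p.Prime) {g : ℤ} (hg : g = 3 ∨ g = 5) :
    (p : ℤ) ^ ee L y p ∣ g ^ OO L y - 1 := by
  rw [val_dvd_iff hp (pow_sub_one_ne hL hg)]
  rcases hg with rfl | rfl
  · exact min_le_left _ _
  · exact min_le_right _ _

lemma ee_exact (hL : 5 ≤ L) {p : ℕ} (hp : p.Prime) :
    ∃ g : ℤ, (g = 3 ∨ g = 5) ∧ ¬ (p : ℤ) ^ (ee L y p + 1) ∣ g ^ OO L y - 1 := by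
  rcases le_total (padicValInt p (3 ^ OO L y - 1)) (padicValInt p (5 ^ OO L y - 1)) with h | h
  · refine ⟨3, Or.inl rfl, ?_⟩
    rw [val_dvd_iff hp (pow_sub_one_ne hL (Or.inl rfl)), ee, min_eq_left h]
    omega
  · refine ⟨5, Or.inr rfl, ?_⟩
    rw [val_dvd_iff hp (pow_sub_one_ne hL (Or.inr rfl)), ee, min_eq_right h]
    omega

lemma ee_pos (hL : 5 ≤ L) {p : ℕ} (hp : p ∈ bg L y) : 1 ≤ ee L y p := by
  have h1 := (mem_bg.1 hp).2.1
  have hd : orderOf (3 : ZMod p) * orderOf (5 : ZMod p) ∣ OO L y :=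
    Dvd.dvd.mul_right
      (Finset.dvd_prod_of_mem (fun p => orderOf (3 : ZMod p) * orderOf (5 : ZMod p)) hp) _
  refine le_min ?_ ?_
  · rw [← val_dvd_iff h1 (pow_sub_one_ne hL (Or.inl rfl)), pow_one]
    have := dvd_of_ord (q := p) (g := 3) (n := OO L y)
      (by simpa using (Dvd.intro _ rfl).trans hd)
    exact_mod_cast this
  · rw [← val_dvd_iff h1 (pow_sub_one_ne hL (Or.inr rfl)), pow_one]
    have := dvd_of_ord (q := p) (g := 5) (n := OO L y)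
      (by simpa using (Dvd.intro_left _ rfl).trans hd)
    exact_mod_cast this

lemma ee_le_ff {p : ℕ} (hp : ¬ p ≤ L) : ee L y p ≤ ff L y p := by
  unfold ff
  rw [if_neg hp]
  split_ifs <;> omega

lemma ff_small {p : ℕ} (hp : p ≤ L) : ff L y p = kk L y := if_pos hp

lemma q0_pos : 0 < q0 L y := Finset.prod_pos fun _ hp => pow_pos (PP_prime hp).pos _

lemma q1_pos : 0 < q1 L y :=
  Finset.prod_pos fun _ hp => pow_pos (PP_prime (mem_filter.1 hp).1).pos _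

lemma pow_dvd_q0 {p : ℕ} (hp : p ∈ PP L y) : p ^ ff L y p ∣ q0 L y :=
  Finset.dvd_prod_of_mem (fun p => p ^ ff L y p) hp

lemma pow_dvd_q1 {p : ℕ} (hp : p ∈ PP L y) (h : p ≤ L ∨ 2 ≤ ee L y p) : p ^ ff L y p ∣ q1 L y :=
  Finset.dvd_prod_of_mem (fun p => p ^ ff L y p) (mem_filter.2 ⟨hp, h⟩)

lemma two_mem (hL : 5 ≤ L) : 2 ∈ PP L y := mem_PP.2 (Or.inl (mem_sm.2 ⟨by omega, Nat.prime_two⟩))

lemma kk_le_q0 (hL : 5 ≤ L) : kk L y ≤ q0 L y := by
  have h1 := Nat.le_of_dvd q0_pos (pow_dvd_q0 (two_mem (y := y) hL))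
  rw [ff_small (by omega)] at h1
  exact (Nat.lt_two_pow_self).le.trans h1

/-- Stability of the powers under shifts of the exponent. -/
lemma stab (hL : 5 ≤ L) (F : Finset ℕ) {p : ℕ} (hp : p ∈ PP L y) {g : ℤ} (hg : g = 3 ∨ g = 5)
    {u c : ℕ} (hc : kk L y ≤ c) (h1 : p ≤ L → OO L y * p ^ kk L y ∣ u)
    (h2 : ¬ p ≤ L → OO L y * p ^ (if p ∈ F then 1 else 0) ∣ u) :
    (p : ℤ) ^ (if p ≤ L then kk L y else ee L y p + if p ∈ F then 1 else 0) ∣
      g ^ (c + u) - g ^ c := by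
  have e : g ^ (c + u) - g ^ c = g ^ c * (g ^ u - 1) := by ring
  rw [e]
  by_cases h : p ≤ L
  · rw [if_pos h]
    by_cases hpg : (p : ℤ) = g
    · rw [← hpg]
      exact Dvd.dvd.mul_right (pow_dvd_pow _ hc) _
    · obtain ⟨w, rfl⟩ := h1 h
      have := lte_dvd (by norm_num : 1 ≤ 2) (small_sq (y := y) (PP_small hp h) hg hpg) (kk L y) w
      exact Dvd.dvd.mul_left ((pow_dvd_pow _ (by omega)).trans this) _
  · rw [if_neg h]
    obtain ⟨w, rfl⟩ := h2 h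
    exact Dvd.dvd.mul_left
      (lte_dvd (ee_pos hL (PP_big hp h)) (ee_dvd hL (PP_prime hp) hg) _ w) _

lemma even_val {p v : ℕ} (hp : p.Prime) (h3 : p % 4 = 3) {x y : ℤ}
    (h1 : (p : ℤ) ^ v ∣ x ^ 2 + y ^ 2) (h2 : ¬ (p : ℤ) ^ (v + 1) ∣ x ^ 2 + y ^ 2) : Even v := by
  have e : x ^ 2 + y ^ 2 = ((x.natAbs ^ 2 + y.natAbs ^ 2 : ℕ) : ℤ) := by
    push_cast
    simp
  rw [e] at h1 h2
  set n := x.natAbs ^ 2 + y.natAbs ^ 2 with hn
  have h1' : p ^ v ∣ n := by exact_mod_cast h1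
  have h2' : ¬ p ^ (v + 1) ∣ n := fun h => h2 (by exact_mod_cast h)
  have hn0 : n ≠ 0 := fun h => h2' (by simp [h])
  have := Fact.mk hp
  have hv : padicValNat p n = v := by
    have a1 := (padicValNat_dvd_iff_le hn0).1 h1'
    have a2 : ¬ v + 1 ≤ padicValNat p n := fun h => h2' ((padicValNat_dvd_iff_le hn0).2 h)
    omega
  rcases Nat.eq_zero_or_pos v with h0 | h0
  · simp [h0]
  have := Nat.eq_sq_add_sq_iff.1 ⟨_, _, hn⟩ p
    (Nat.mem_primeFactors.2 ⟨hp, (dvd_pow_self p h0.ne').trans h1', hn0⟩) h3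
  rwa [hv] at this

end Pool.Agent.MP_c903c4_nt

end
end

section

/-!
The choice of the class and the exceptional residues.
-/

open Finset Filter Topology
open scoped Classical

noncomputable section

namespace Pool.Agent.MP_c903c4_nt

/-- Classes of exponents that are alive for the residue a. -/
def Al (L y : ℕ) (a : ℤ) (c d : ℕ) : Prop :=
  kk L y ≤ c ∧ kk L y ≤ d ∧ (∀ l ∈ sm L, l % 4 = 1 ∨ SS ((l : ℤ) ^ kk L y) (mm a c d)) ∧
    ∀ p ∈ bg L y, 2 ≤ ee L y p → p % 4 = 3 → ∀ v, v < ee L y p → (p : ℤ) ^ v ∣ mm a c d →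
      ¬ (p : ℤ) ^ (v + 1) ∣ mm a c d → Even v

/-- The chosen class. -/
def xx (L y a : ℕ) : ℕ × ℕ :=
  if h : ∃ x : ℕ × ℕ, Al L y a x.1 x.2 then h.choose else (0, 0)

/-- The primes whose component of the exponent has to be fixed. -/
def FF (L y a : ℕ) : Finset ℕ :=
  (bg L y).filter fun p => p % 4 = 3 ∧ Odd (ee L y p) ∧
    (p : ℤ) ^ ee L y p ∣ mm a (xx L y (a % q1 L y)).1 (xx L y (a % q1 L y)).2

variable {L y : ℕ}

lemma dv {a b c : ℤ} (h : a ∣ b) (e : b = c) : a ∣ c := e ▸ h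

lemma SS.congr {M m m' : ℤ} (h : SS M m) (hm : M ∣ m' - m) : SS M m' := by
  obtain ⟨x, y, h⟩ := h
  exact ⟨x, y, dv (hm.add h) (by ring)⟩

lemma Al.congr {a a' : ℤ} {c d : ℕ} (h : Al L y a c d) (ha : (q1 L y : ℤ) ∣ a' - a) :
    Al L y a' c d := by
  have e : mm a' c d - mm a c d = a' - a := by unfold mm; ring
  obtain ⟨h1, h2, h3, h4⟩ := h
  refine ⟨h1, h2, fun l hl => ?_, fun p hp h5 h6 v hv h7 h8 => ?_⟩
  · refine (h3 l hl).imp id fun h => h.congr ?_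
    rw [e]
    refine Dvd.dvd.trans ?_ ha
    have := pow_dvd_q1 (y := y) (mem_PP.2 (Or.inl hl)) (Or.inl (mem_sm.1 hl).1)
    rw [ff_small (mem_sm.1 hl).1] at this
    exact_mod_cast this
  · have hL : ¬ p ≤ L := by have := (mem_bg.1 hp).1.1; omega
    have hd : (p : ℤ) ^ ee L y p ∣ mm a' c d - mm a c d := by
      rw [e]
      refine Dvd.dvd.trans ?_ ha
      have := (pow_dvd_pow p (ee_le_ff (y := y) hL)).trans
        (pow_dvd_q1 (mem_PP.2 (Or.inr hp)) (Or.inr h5))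
      exact_mod_cast this
    refine h4 p hp h5 h6 v hv ?_ fun h => h8 ?_
    · have := h7.sub ((pow_dvd_pow _ hv.le).trans hd)
      exact dv this (by ring)
    · have := h.add ((pow_dvd_pow _ (Nat.succ_le_of_lt hv)).trans hd)
      exact dv this (by ring)

lemma mod_dvd (a N : ℕ) : (N : ℤ) ∣ (a : ℤ) - ((a % N : ℕ) : ℤ) := by
  exact Nat.modEq_iff_dvd.1 (Nat.mod_modEq a N)

lemma al_of_loc (hL : 5 ≤ L) {a : ℕ} (h : Loc (q0 L y) a) :
    Al L y a (xx L y (a % q1 L y)).1 (xx L y (a % q1 L y)).2 := by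
  obtain ⟨u, w, c, d, hc, h⟩ := h
  have h0 : (q0 L y : ℤ) ∣ mm a c d - ((u : ℤ) ^ 2 + (w : ℤ) ^ 2) := by
    have := Nat.modEq_iff_dvd.1 h.symm
    push_cast at this
    exact dv this (by unfold mm; ring)
  have hT : 0 < T0 L y :=
    Nat.mul_pos (OO_pos hL) (Finset.prod_pos fun l hl => pow_pos (mem_sm.1 hl).2.pos _)
  have e : mm a c (d + T0 L y * kk L y) - ((u : ℤ) ^ 2 + (w : ℤ) ^ 2) =
      mm a c d - ((u : ℤ) ^ 2 + (w : ℤ) ^ 2) - 5 ^ d * (5 ^ (T0 L y * kk L y) - 1) := by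
    unfold mm
    ring
  have key : Al L y a c (d + T0 L y * kk L y) := by
    refine ⟨(kk_le_q0 hL).trans hc, ?_, fun l hl => ?_, fun p hp h5 h6 v hv h7 h8 => ?_⟩
    · nlinarith
    · by_cases h5 : l = 5
      · left
        rw [h5]
      right
      refine ⟨u, w, ?_⟩
      rw [e]
      refine Dvd.dvd.sub ?_ (Dvd.dvd.mul_left ?_ _)
      · refine Dvd.dvd.trans ?_ h0
        have := pow_dvd_q0 (y := y) (mem_PP.2 (Or.inl hl))
        rw [ff_small (mem_sm.1 hl).1] at this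
        exact_mod_cast this
      · obtain ⟨z, hz⟩ := Finset.dvd_prod_of_mem (fun l => l ^ kk L y) hl
        have := lte_dvd (by norm_num : 1 ≤ 2) (small_sq (y := y) hl (Or.inr rfl)
          (by exact_mod_cast h5)) (kk L y) (z * kk L y)
        rw [T0, hz]
        refine (pow_dvd_pow _ (by omega : kk L y ≤ 2 + kk L y)).trans ?_
        exact dv this (by congr 2; ring)
    · have hLp : ¬ p ≤ L := by have := (mem_bg.1 hp).1.1; omega
      have hpp := (mem_bg.1 hp).2.1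
      have hd : (p : ℤ) ^ ee L y p ∣
          mm a c (d + T0 L y * kk L y) - ((u : ℤ) ^ 2 + (w : ℤ) ^ 2) := by
        rw [e]
        refine Dvd.dvd.sub ?_ (Dvd.dvd.mul_left ?_ _)
        · refine Dvd.dvd.trans ?_ h0
          have := (pow_dvd_pow p (ee_le_ff (y := y) hLp)).trans
            (pow_dvd_q0 (mem_PP.2 (Or.inr hp)))
          exact_mod_cast this
        · have := lte_dvd (ee_pos hL hp) (ee_dvd hL hpp (Or.inr rfl)) 0
            ((∏ l ∈ sm L, l ^ kk L y) * kk L y)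
          rw [T0]
          exact dv this (by congr 2; ring)
      refine even_val hpp h6 (x := u) (y := w) ?_ fun h => h8 ?_
      · have := h7.sub ((pow_dvd_pow _ hv.le).trans hd)
        exact dv this (by ring)
      · have := h.add ((pow_dvd_pow _ (Nat.succ_le_of_lt hv)).trans hd)
        exact dv this (by ring)
  have k2 : ∃ x : ℕ × ℕ, Al L y ((a % q1 L y : ℕ) : ℤ) x.1 x.2 :=
    ⟨(c, d + T0 L y * kk L y), key.congr (by rw [← neg_sub]; exact (mod_dvd a _).neg_right)⟩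
  have k3 := k2.choose_spec
  have k4 : xx L y (a % q1 L y) = k2.choose := dif_pos k2
  rw [k4]
  exact k3.congr (mod_dvd a _)

lemma cnt {q N : ℕ} (hN : 0 < N) (h : N ∣ q) (A : Finset ℕ) (hA : ∀ a ∈ A, a < q)
    (hc : ∀ a ∈ A, ∀ b ∈ A, (N : ℤ) ∣ (a : ℤ) - b) : (A.card : ℝ) ≤ q / N := by
  obtain ⟨r, rfl⟩ := h
  have h1 : A.card ≤ (range r).card := by
    refine Finset.card_le_card_of_injOn (fun a => a / N) (fun a ha => ?_) fun a ha b hb hab => ?_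
    · simp only [coe_range, Set.mem_Iio]
      exact Nat.div_lt_of_lt_mul (hA a ha)
    · have h2 : b ≡ a [MOD N] := Nat.modEq_iff_dvd.2 (hc a ha b hb)
      have h3 : a / N = b / N := hab
      rw [← Nat.div_add_mod a N, ← Nat.div_add_mod b N, h3, show a % N = b % N from h2.symm]
  rw [card_range] at h1
  have : ((N * r : ℕ) : ℝ) / N = r := by
    push_cast
    field_simp
  rw [this]
  exact_mod_cast h1

lemma cube_period (hL : 5 ≤ L) {p : ℕ} (hp : p ∈ bg L y) (h3 : 3 ≤ ee L y p) {g : ℕ}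
    (hg : g = 3 ∨ g = 5) (c : ℕ) : (p : ℤ) ^ 3 ∣ (g : ℤ) ^ c - (g : ℤ) ^ (c % (p - 1)) := by
  obtain ⟨⟨h1, _⟩, hpp, _⟩ := mem_bg.1 hp
  have hg' : (g : ℤ) = 3 ∨ (g : ℤ) = 5 := by rcases hg with rfl | rfl <;> simp
  have a1 : ((p ^ 3 : ℕ) : ℤ) ∣ (g : ℤ) ^ OO L y - 1 := by
    push_cast
    exact (pow_dvd_pow _ h3).trans (ee_dvd hL hpp hg')
  have hc : g.Coprime (p ^ 3) := by
    refine Nat.Coprime.pow_right 3 ((Nat.Prime.coprime_iff_not_dvd hpp).2 fun h => ?_).symm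
    have := Nat.le_of_dvd (by omega) h
    omega
  have a2 : ((p ^ 3 : ℕ) : ℤ) ∣ (g : ℤ) ^ (p ^ 2 * (p - 1)) - 1 := by
    have h1 := Nat.ModEq.pow_totient hc
    rw [Nat.totient_prime_pow hpp (by norm_num)] at h1
    have := Nat.modEq_iff_dvd.1 h1.symm
    exact_mod_cast this
  have b1 := ord_of_dvd a1
  have b2 := ord_of_dvd a2
  have b3 : (orderOf (g : ZMod (p ^ 3))).Coprime (p ^ 2) := by
    refine Nat.Coprime.pow_right 2 ((Nat.Prime.coprime_iff_not_dvd hpp).2 fun h => ?_).symm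
    have := OO_smooth hL hpp (h.trans b1)
    omega
  have b4 := b3.dvd_of_dvd_mul_left b2
  have b5 := dvd_of_ord (b4.trans (Dvd.intro (c / (p - 1)) rfl))
  have e : (g : ℤ) ^ c - (g : ℤ) ^ (c % (p - 1)) =
      (g : ℤ) ^ (c % (p - 1)) * ((g : ℤ) ^ ((p - 1) * (c / (p - 1))) - 1) := by
    rw [mul_sub, ← pow_add, mul_one, Nat.mod_add_div]
  rw [e]
  exact Dvd.dvd.mul_left (by exact_mod_cast b5) _

lemma cnt_FF (hL : 5 ≤ L) {p : ℕ} (hp : p ∈ bg L y) :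
    (((range (q0 L y)).filter fun a => p ∈ FF L y a).card : ℝ) ≤ q0 L y / p := by
  obtain ⟨⟨h1, _⟩, hpp, _⟩ := mem_bg.1 hp
  have hPP : p ∈ PP L y := mem_PP.2 (Or.inr hp)
  have hLp : ¬ p ≤ L := by omega
  have hp0 : (0 : ℝ) < p := by exact_mod_cast hpp.pos
  set A := (range (q0 L y)).filter fun a => p ∈ FF L y a with hA
  have he := ee_pos hL hp
  by_cases h2 : 2 ≤ ee L y p
  · by_cases hodd : Odd (ee L y p)
    swap
    · have : A = ∅ := by
        refine Finset.filter_eq_empty_iff.2 fun a _ h => hodd ?_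
        exact (mem_filter.1 h).2.2.1
      rw [this]
      simp only [card_empty, Nat.cast_zero]
      positivity
    have h3 : 3 ≤ ee L y p := by
      obtain ⟨t, ht⟩ := hodd
      omega
    have hdv : p ^ 3 ∣ q0 L y :=
      (pow_dvd_pow p (h3.trans (ee_le_ff hLp))).trans (pow_dvd_q0 hPP)
    have hsub : A ⊆ (range (p - 1) ×ˢ range (p - 1)).biUnion fun x =>
        (range (q0 L y)).filter fun a : ℕ => (p : ℤ) ^ 3 ∣ mm a x.1 x.2 := by
      intro a ha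
      obtain ⟨ha1, ha2⟩ := mem_filter.1 ha
      obtain ⟨_, _, _, h5⟩ := mem_filter.1 ha2
      set x := xx L y (a % q1 L y)
      refine mem_biUnion.2 ⟨(x.1 % (p - 1), x.2 % (p - 1)), ?_, mem_filter.2 ⟨ha1, ?_⟩⟩
      · simp only [mem_product, mem_range]
        exact ⟨Nat.mod_lt _ (by omega), Nat.mod_lt _ (by omega)⟩
      · have b1 := cube_period hL hp h3 (Or.inl rfl) x.1
        have b2 := cube_period hL hp h3 (Or.inr rfl) x.2
        have := (((pow_dvd_pow _ h3).trans h5).add b1).add b2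
        exact dv this (by unfold mm; push_cast; ring)
    have c1 : (A.card : ℝ) ≤ ∑ _x ∈ range (p - 1) ×ˢ range (p - 1), (q0 L y : ℝ) / (p ^ 3 : ℕ) := by
      have c0 := (Nat.cast_le (α := ℝ)).2 ((Finset.card_le_card hsub).trans card_biUnion_le)
      rw [Nat.cast_sum] at c0
      refine c0.trans (Finset.sum_le_sum fun x _ => ?_)
      have := cnt (pow_pos hpp.pos 3) hdv
        ((range (q0 L y)).filter fun a : ℕ => (p : ℤ) ^ 3 ∣ mm a x.1 x.2)
        (fun a ha => mem_range.1 (mem_filter.1 ha).1) fun a ha b hb => by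
          have := (mem_filter.1 ha).2.sub (mem_filter.1 hb).2
          push_cast
          exact dv this (by unfold mm; ring)
      exact_mod_cast this
    rw [Finset.sum_const, card_product, card_range, nsmul_eq_mul] at c1
    refine c1.trans ?_
    have c2 : (((p - 1) * (p - 1) : ℕ) : ℝ) ≤ p * p := by
      exact_mod_cast Nat.mul_le_mul (Nat.sub_le _ _) (Nat.sub_le _ _)
    calc _ ≤ (p * p : ℝ) * ((q0 L y : ℝ) / (p ^ 3 : ℕ)) := by gcongr
      _ = _ := by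
        push_cast
        field_simp
  · have hcop : p.Coprime (q1 L y) := by
      refine Nat.Coprime.prod_right fun r hr => Nat.Coprime.pow_right _ ?_
      obtain ⟨hr1, hr2⟩ := mem_filter.1 hr
      refine (Nat.coprime_primes hpp (PP_prime hr1)).2 ?_
      rintro rfl
      omega
    have hdv : p * q1 L y ∣ q0 L y := by
      refine hcop.mul_dvd_of_dvd_of_dvd ?_
        (Finset.prod_dvd_prod_of_subset _ _ _ (Finset.filter_subset _ _))
      exact (dvd_pow_self p (by have := ee_le_ff (y := y) hLp; omega)).trans (pow_dvd_q0 hPP)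
    have c1 : A.card = ∑ r ∈ range (q1 L y), (A.filter fun a => a % q1 L y = r).card :=
      Finset.card_eq_sum_card_fiberwise fun a _ => by
        simp only [coe_range, Set.mem_Iio]
        exact Nat.mod_lt _ q1_pos
    have c2 : ∀ r ∈ range (q1 L y), ((A.filter fun a => a % q1 L y = r).card : ℝ) ≤
        (q0 L y : ℝ) / (p * q1 L y : ℕ) := by
      intro r _
      refine cnt (Nat.mul_pos hpp.pos q1_pos) hdv _
        (fun a ha => mem_range.1 (mem_filter.1 (mem_filter.1 ha).1).1) fun a ha b hb => ?_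
      obtain ⟨ha1, ha2⟩ := mem_filter.1 ha
      obtain ⟨hb1, hb2⟩ := mem_filter.1 hb
      have a1 := (mem_filter.1 (mem_filter.1 ha1).2).2.2.2
      have b1 := (mem_filter.1 (mem_filter.1 hb1).2).2.2.2
      rw [ha2] at a1
      rw [hb2] at b1
      have d1 : (p : ℤ) ∣ (a : ℤ) - b := by
        have := (dvd_pow_self (p : ℤ) (by omega : ee L y p ≠ 0)).trans (a1.sub b1)
        exact dv this (by unfold mm; ring)
      have d2 : (q1 L y : ℤ) ∣ (a : ℤ) - b :=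
        Nat.modEq_iff_dvd.1 (show b ≡ a [MOD q1 L y] from hb2.trans ha2.symm)
      push_cast
      exact (Nat.isCoprime_iff_coprime.2 hcop).mul_dvd d1 d2
    have c3 := Finset.sum_le_sum c2
    rw [← Nat.cast_sum, ← c1, Finset.sum_const, card_range, nsmul_eq_mul] at c3
    refine c3.trans (le_of_eq ?_)
    have : (0 : ℝ) < q1 L y := by exact_mod_cast q1_pos
    push_cast
    field_simp

lemma bad_card (hL : 5 ≤ L) {σ : ℕ → ℝ} (h0 : ∀ l, 0 ≤ σ l) {ε : ℝ} (hε : 0 < ε)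
    (h : ∑ l ∈ bg L y, σ l / l ≤ ε ^ 2) :
    (((range (q0 L y)).filter fun a => ε < ∑ p ∈ FF L y a, σ p).card : ℝ) ≤ ε * q0 L y := by
  set B := (range (q0 L y)).filter fun a => ε < ∑ p ∈ FF L y a, σ p with hB
  have c1 : (B.card : ℝ) * ε ≤ ∑ a ∈ range (q0 L y), ∑ p ∈ FF L y a, σ p := by
    calc (B.card : ℝ) * ε = ∑ _a ∈ B, ε := by simp
      _ ≤ ∑ a ∈ B, ∑ p ∈ FF L y a, σ p := Finset.sum_le_sum fun a ha => (mem_filter.1 ha).2.le
      _ ≤ _ := Finset.sum_le_sum_of_subset_of_nonneg (Finset.filter_subset _ _)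
          fun a _ _ => Finset.sum_nonneg fun p _ => h0 p
  have c2 : ∑ a ∈ range (q0 L y), ∑ p ∈ FF L y a, σ p =
      ∑ p ∈ bg L y, (((range (q0 L y)).filter fun a => p ∈ FF L y a).card : ℝ) * σ p := by
    rw [Finset.sum_comm' (t' := bg L y)
      (s' := fun p => (range (q0 L y)).filter fun a => p ∈ FF L y a)]
    · simp
    · intro a p
      constructor
      · rintro ⟨h1, h2⟩
        exact ⟨mem_filter.2 ⟨h1, h2⟩, (mem_filter.1 h2).1⟩
      · rintro ⟨h1, _⟩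
        exact mem_filter.1 h1
  have c3 : ∑ p ∈ bg L y, (((range (q0 L y)).filter fun a => p ∈ FF L y a).card : ℝ) * σ p ≤
      q0 L y * ∑ l ∈ bg L y, σ l / l := by
    rw [Finset.mul_sum]
    refine Finset.sum_le_sum fun p hp => ?_
    calc _ ≤ q0 L y / p * σ p := mul_le_mul_of_nonneg_right (cnt_FF hL hp) (h0 p)
      _ = _ := by ring
  have c4 : (q0 L y : ℝ) * ∑ l ∈ bg L y, σ l / l ≤ q0 L y * ε ^ 2 := by gcongr
  have c5 : (B.card : ℝ) * ε ≤ ε * q0 L y * ε := by nlinarith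
  exact le_of_mul_le_mul_right c5 hε

end Pool.Agent.MP_c903c4_nt

end
end

section

/-!
Adjusting the chosen class.
-/

open Finset Filter Topology
open scoped Classical

noncomputable section

namespace Pool.Agent.MP_c903c4_nt

/-- The exponent of stability. -/
def mu (L y : ℕ) (F : Finset ℕ) (p : ℕ) : ℕ :=
  if p ≤ L then kk L y else ee L y p + if p ∈ F then 1 else 0

/-- The period of the final class. -/
def TT (L y : ℕ) (F : Finset ℕ) : ℕ := OO L y * ((∏ l ∈ sm L, l ^ kk L y) * ∏ r ∈ F, r)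

/-- The shift used at the prime p. -/
def tau (L y : ℕ) (F : Finset ℕ) (p : ℕ) : ℕ :=
  if p ≤ L then OO L y * ((∏ l ∈ (sm L).erase p, l ^ kk L y) * ∏ r ∈ F, r)
  else if p ∈ F then OO L y * ((∏ l ∈ sm L, l ^ kk L y) * ∏ r ∈ F.erase p, r) else 0

variable {L y : ℕ} {F : Finset ℕ}

lemma stab_gen (hL : 5 ≤ L) {p : ℕ} (hp : p ∈ PP L y) {A B : Finset ℕ} (hA : p ≤ L → p ∈ A)
    (hB : p ∈ F → p ∈ B) {c : ℕ} (t : ℕ) (hc : kk L y ≤ c) {g : ℤ} (hg : g = 3 ∨ g = 5) :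
    (p : ℤ) ^ mu L y F p ∣
      g ^ (c + OO L y * ((∏ l ∈ A, l ^ kk L y) * ∏ r ∈ B, r) * t) - g ^ c := by
  refine stab hL F hp hg hc (fun h => ?_) fun _ => ?_
  · exact Dvd.dvd.mul_right (Nat.mul_dvd_mul_left _ (Dvd.dvd.mul_right
      (Finset.dvd_prod_of_mem (fun l => l ^ kk L y) (hA h)) _)) _
  · refine Dvd.dvd.mul_right (Nat.mul_dvd_mul_left _ (Dvd.dvd.mul_left ?_ _)) _
    split_ifs with h
    · rw [pow_one]
      exact Finset.dvd_prod_of_mem (fun r => r) (hB h)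
    · simp

lemma stab_tau (hL : 5 ≤ L) {p p' : ℕ} (hp' : p' ∈ PP L y) (hne : p ≠ p') {c : ℕ} (t : ℕ)
    (hc : kk L y ≤ c) {g : ℤ} (hg : g = 3 ∨ g = 5) :
    (p' : ℤ) ^ mu L y F p' ∣ g ^ (c + tau L y F p * t) - g ^ c := by
  unfold tau
  split_ifs with h1 h2
  · exact stab_gen hL hp' (fun h => mem_erase.2 ⟨hne.symm, PP_small hp' h⟩) id t hc hg
  · exact stab_gen hL hp' (fun h => PP_small hp' h) (fun h => mem_erase.2 ⟨hne.symm, h⟩) t hc hg
  · simp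

lemma stab_TT (hL : 5 ≤ L) {p : ℕ} (hp : p ∈ PP L y) (a : ℤ) {c d : ℕ} (i j : ℕ)
    (hc : kk L y ≤ c) (hd : kk L y ≤ d) :
    (p : ℤ) ^ mu L y F p ∣ mm a (c + TT L y F * i) (d + TT L y F * j) - mm a c d := by
  have h3 := stab_gen (F := F) hL hp (fun h => PP_small hp h) id i hc (Or.inl rfl)
  have h5 := stab_gen (F := F) hL hp (fun h => PP_small hp h) id j hd (Or.inr rfl)
  exact dv (h3.add h5).neg_right (by unfold mm TT; ring)

lemma not_dvd_prods {p : ℕ} (hp : p.Prime) {A B : Finset ℕ} (hA : ∀ l ∈ A, l.Prime ∧ l ≠ p)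
    (hB : ∀ l ∈ B, l.Prime ∧ l ≠ p) (k : ℕ) : ¬ p ∣ (∏ l ∈ A, l ^ k) * ∏ r ∈ B, r := by
  intro h
  rcases (Nat.Prime.dvd_mul hp).1 h with h | h
  · obtain ⟨l, hl, h⟩ := (Prime.dvd_finsetProd_iff hp.prime _).1 h
    exact (hA l hl).2 ((Nat.prime_dvd_prime_iff_eq hp (hA l hl).1).1 (hp.dvd_of_dvd_pow h)).symm
  · obtain ⟨l, hl, h⟩ := (Prime.dvd_finsetProd_iff hp.prime _).1 h
    exact (hB l hl).2 ((Nat.prime_dvd_prime_iff_eq hp (hB l hl).1).1 h).symm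

lemma gs_spec (l : ℕ) : (gs l = 3 ∨ gs l = 5) ∧ (l.Prime → (l : ℤ) ≠ gs l) := by
  unfold gs
  split_ifs with h
  · exact ⟨Or.inl rfl, fun _ => by rw [h]; norm_num⟩
  · exact ⟨Or.inr rfl, fun _ => by exact_mod_cast h⟩

lemma shift_either {g : ℤ} (hg : g = 3 ∨ g = 5) (a : ℤ) (c d τ : ℕ) (R : ℤ → Prop)
    (h : ∀ c' : ℕ, ∃ t : ℕ, R (mm a c d - (g ^ (c' + τ * t) - g ^ c'))) :
    ∃ i j : ℕ, R (mm a (c + τ * i) (d + τ * j)) := by
  rcases hg with rfl | rfl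
  · obtain ⟨t, ht⟩ := h c
    refine ⟨t, 0, ?_⟩
    convert ht using 1
    unfold mm
    ring
  · obtain ⟨t, ht⟩ := h d
    refine ⟨0, t, ?_⟩
    convert ht using 1
    unfold mm
    ring

lemma exists_good (hL : 5 ≤ L) {a : ℤ} {c d : ℕ} (h : Al L y a c d)
    (hF : ∀ p, p ∈ F ↔ p ∈ bg L y ∧ p % 4 = 3 ∧ Odd (ee L y p) ∧ (p : ℤ) ^ ee L y p ∣ mm a c d) :
    ∃ c' d' : ℕ, kk L y ≤ c' ∧ kk L y ≤ d' ∧
      ∀ p ∈ PP L y, ∃ v, Fin' L p (ff L y p) (mu L y F p) v (mm a c' d') := by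
  have hFp : ∀ r ∈ F, r.Prime ∧ L < r := fun r hr =>
    ⟨(mem_bg.1 ((hF r).1 hr).1).2.1, (mem_bg.1 ((hF r).1 hr).1).1.1⟩
  refine adj a (PP L y) (fun p => (p : ℤ) ^ mu L y F p)
    (fun p m => if p ≤ L then (p % 4 = 1 ∨ SS ((p : ℤ) ^ kk L y) m) else
      if p ∈ F then (p : ℤ) ^ ee L y p ∣ m else ∃ v, Fin' L p (ff L y p) (mu L y F p) v m)
    (fun p m => ∃ v, Fin' L p (ff L y p) (mu L y F p) v m) (tau L y F) (kk L y) ?_ ?_ ?_ ?_
    h.1 h.2.1 ?_
  · intro p _ m m' hm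
    by_cases h1 : p ≤ L
    · simp only [mu, h1, if_true] at hm ⊢
      exact fun h => h.imp id fun h => h.congr hm
    · by_cases h2 : p ∈ F
      · simp only [mu, h1, h2, if_true, if_false] at hm ⊢
        exact fun h => dv (h.add ((pow_dvd_pow _ (Nat.le_succ _)).trans hm)) (by ring)
      · simp only [h1, h2, if_false]
        exact fun ⟨v, hv⟩ => ⟨v, hv.congr hm⟩
  · exact fun p _ m m' hm ⟨v, hv⟩ => ⟨v, hv.congr hm⟩
  · exact fun p _ p' hp' hne c t hc =>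
      ⟨stab_tau hL hp' hne t hc (Or.inl rfl), stab_tau hL hp' hne t hc (Or.inr rfl)⟩
  · intro p hp c d _ _
    have hpp := PP_prime hp
    by_cases h1 : p ≤ L
    · simp only [h1, if_true, ff_small h1, mu, tau]
      intro hm
      obtain ⟨hg, hg'⟩ := gs_spec p
      have hs := PP_small hp h1
      have hne := pow_sub_one_ne (y := y) hL hg
      set j := padicValInt p (gs p ^ OO L y - 1) with hj
      have j2 : 2 ≤ j := (val_dvd_iff hpp hne).1 (small_sq hs hg (hg' hpp))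
      have j3 : j + 3 ≤ kk L y := Nat.add_le_add_right
        (Finset.le_sup (f := fun l => padicValInt l (gs l ^ OO L y - 1)) hs) 3
      have d1 : (p : ℤ) ^ j ∣ gs p ^ OO L y - 1 := (val_dvd_iff hpp hne).2 le_rfl
      have d2 : ¬ (p : ℤ) ^ (j + 1) ∣ gs p ^ OO L y - 1 := by
        rw [val_dvd_iff hpp hne]
        omega
      have hu := not_dvd_prods hpp (A := (sm L).erase p) (B := F)
        (fun l hl => ⟨(mem_sm.1 (mem_erase.1 hl).2).2, (mem_erase.1 hl).1⟩)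
        (fun l hl => ⟨(hFp l hl).1, by have := (hFp l hl).2; omega⟩) (kk L y)
      refine shift_either hg a c d _ (fun m => ∃ v, Fin' L p (kk L y) (kk L y) v m) fun c' => ?_
      refine step_small hpp j2 j3 (not_dvd_base hpp hg (hg' hpp)) ?_
        (lte_unit hpp (by omega) d1 d2 _ hu) hm c'
      have := lte_dvd (by omega : 1 ≤ j) d1 0 ((∏ l ∈ (sm L).erase p, l ^ kk L y) * ∏ r ∈ F, r)
      simpa using this
    · by_cases h2 : p ∈ F
      · obtain ⟨hb, h3, h4, _⟩ := (hF p).1 h2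
        have e1 : ff L y p = ee L y p + 1 := by simp [ff, h1, h3, h4]
        simp only [h1, h2, if_true, if_false, e1, mu, tau]
        intro hm
        obtain ⟨g, hg, d2⟩ := ee_exact (y := y) hL hpp
        have d1 := ee_dvd (y := y) hL hpp hg
        have he := ee_pos hL hb
        have hu := not_dvd_prods hpp (A := sm L) (B := F.erase p)
          (fun l hl => ⟨(mem_sm.1 hl).2, by have := (mem_sm.1 hl).1; omega⟩)
          (fun l hl => ⟨(hFp l (mem_erase.1 hl).2).1, (mem_erase.1 hl).1⟩) (kk L y)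
        have hpg : (p : ℤ) ≠ g := by rcases hg with rfl | rfl <;> omega
        refine shift_either hg a c d _
          (fun m => ∃ v, Fin' L p (ee L y p + 1) (ee L y p + 1) v m) fun c' => ?_
        have d3 := lte_dvd he d1 0 ((∏ l ∈ sm L, l ^ kk L y) * ∏ r ∈ F.erase p, r)
        simp only [add_zero, pow_zero, mul_one] at d3
        obtain ⟨t, ht⟩ := step_up hpp he (not_dvd_base hpp hg hpg) d3
          (lte_unit hpp he d1 d2 _ hu) hm c'
        exact ⟨t, ee L y p + 1, le_rfl, le_rfl, ht, fun h => absurd h (lt_irrefl _),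
          fun _ => h4.add_one, fun h => by omega, fun h => absurd h h1⟩
      · simp only [h1, h2, if_false, tau]
        exact fun hm => ⟨0, 0, by simpa using hm⟩
  · intro p hp
    have hpp := PP_prime hp
    by_cases h1 : p ≤ L
    · simp only [h1, if_true]
      exact h.2.2.1 p (PP_small hp h1)
    · have hb := PP_big hp h1
      by_cases h2 : p ∈ F
      · simp only [h1, h2, if_true, if_false]
        exact ((hF p).1 h2).2.2.2
      · simp only [h1, h2, if_false, mu, add_zero]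
        by_cases h3 : (p : ℤ) ^ ee L y p ∣ mm a c d
        · have h4 : ¬ (p % 4 = 3 ∧ Odd (ee L y p)) := fun h => h2 ((hF p).2 ⟨hb, h.1, h.2, h3⟩)
          have e1 : ff L y p = ee L y p := by simp only [ff, h1, h4, if_false]
          rw [e1]
          exact ⟨ee L y p, le_rfl, le_rfl, h3, fun h => absurd h (lt_irrefl _),
            fun h => Nat.not_odd_iff_even.1 fun h' => h4 ⟨h, h'⟩, fun h => by omega,
            fun h => absurd h h1⟩
        · have hm0 : mm a c d ≠ 0 := fun h => h3 (by simp [h])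
          have hv : padicValInt p (mm a c d) < ee L y p := by
            rw [val_dvd_iff hpp hm0] at h3
            omega
          have d1 := (val_dvd_iff hpp hm0).2 (le_refl (padicValInt p (mm a c d)))
          have d2 : ¬ (p : ℤ) ^ (padicValInt p (mm a c d) + 1) ∣ mm a c d := by
            rw [val_dvd_iff hpp hm0]
            omega
          have := ee_le_ff (y := y) h1
          refine ⟨padicValInt p (mm a c d), by omega, hv.le, d1, fun _ => ⟨hv, d2⟩, fun h4 => ?_,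
            fun h => by omega, fun h => absurd h h1⟩
          by_cases h5 : 2 ≤ ee L y p
          · exact h.2.2.2 p hb h5 h4 _ hv d1 d2
          · have : padicValInt p (mm a c d) = 0 := by omega
            simp [this]

end Pool.Agent.MP_c903c4_nt

end
end

section

/-!
Moduli with smooth orders are sparse.
-/

open Finset Filter Topology
open scoped Classical

noncomputable section

namespace Pool.Agent.MP_c903c4_nt

theorem Arith_euler (f : ℕ →* ℝ) (h0 : ∀ n, 0 ≤ f n) (h1 : ∀ p : ℕ, p.Prime → f p < 1)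
    (S A : Finset ℕ) (hS : ∀ p ∈ S, p.Prime) (hA : ∀ n ∈ A, ∀ p, p.Prime → p ∣ n → p ∈ S) :
    ∑ n ∈ A, f n ≤ ∏ p ∈ S, (1 - f p)⁻¹ := by
  have h := (EulerProduct.summable_and_hasSum_factoredNumbers_prod_filter_prime_geometric (f := f)
    (fun {p} hp => by rw [Real.norm_eq_abs, abs_of_nonneg (h0 p)]; exact h1 p hp) S).2
  rw [filter_true_of_mem hS] at h
  have h2 := sum_le_hasSum (A.subtype fun n => n ∈ Nat.factoredNumbers S) (fun m _ => h0 m) h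
  rwa [sum_subtype_of_mem (fun n => f n) (fun n hn => Nat.mem_factoredNumbers'.2 (hA n hn))] at h2

/-- The reciprocal as a multiplicative map. -/
def Arith_inv : ℕ →* ℝ where
  toFun n := 1 / (n : ℝ)
  map_one' := by simp
  map_mul' m n := by push_cast; rw [one_div_mul_one_div]

/-- The reciprocal square root as a multiplicative map. -/
def Arith_isq : ℕ →* ℝ where
  toFun n := 1 / Real.sqrt n
  map_one' := by simp
  map_mul' m n := by
    push_cast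
    rw [Real.sqrt_mul (Nat.cast_nonneg m), one_div_mul_one_div]

theorem Arith_inv_le (u c : ℝ) (h0 : 0 ≤ u) (hc : 0 < c) (h1 : 1 ≤ c * (1 - u)) :
    (1 - u)⁻¹ ≤ Real.exp (c * u) := by
  have h2 : 0 < 1 - u := by
    by_contra h
    push Not at h
    nlinarith
  refine le_trans ?_ (Real.add_one_le_exp _)
  rw [inv_eq_one_div, div_le_iff₀ h2]
  nlinarith [mul_le_mul_of_nonneg_left h1 h0]

theorem Arith_sqrt_sum (Z : ℕ) : ∑ l ∈ Icc 1 Z, 1 / Real.sqrt l ≤ 2 * Real.sqrt Z := by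
  induction Z with
  | zero => simp
  | succ Z ih =>
    rw [sum_Icc_succ_top (by omega)]
    have h1 : 0 < Real.sqrt ((Z + 1 : ℕ) : ℝ) := Real.sqrt_pos.2 (by positivity)
    have h2 : Real.sqrt ((Z + 1 : ℕ) : ℝ) ^ 2 = Z + 1 := by
      rw [Real.sq_sqrt (by positivity)]; push_cast; rfl
    have h3 : Real.sqrt (Z : ℝ) ^ 2 = Z := Real.sq_sqrt (by positivity)
    have h4 : 1 / Real.sqrt ((Z + 1 : ℕ) : ℝ) ≤
        2 * Real.sqrt ((Z + 1 : ℕ) : ℝ) - 2 * Real.sqrt Z := by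
      rw [div_le_iff₀ h1]
      nlinarith [sq_nonneg (Real.sqrt ((Z + 1 : ℕ) : ℝ) - Real.sqrt Z)]
    linarith

theorem Arith_smooth (Z : ℕ) (K : Finset ℕ) (hK : ∀ k ∈ K, ∀ l, l.Prime → l ∣ k → l ≤ Z) :
    ∑ k ∈ K, 1 / Real.sqrt k ≤ Real.exp (8 * Real.sqrt Z) := by
  have hp : ∀ p : ℕ, p.Prime → 1 / Real.sqrt p ≤ 3 / 4 := by
    intro p hp
    have h2 : (2 : ℝ) ≤ p := by exact_mod_cast hp.two_le
    have h3 : 4 / 3 ≤ Real.sqrt p := Real.le_sqrt_of_sq_le (by linarith)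
    rw [div_le_iff₀ (by linarith)]
    linarith
  have h := Arith_euler Arith_isq (fun n => by show 0 ≤ 1 / Real.sqrt n; positivity)
    (fun p h => lt_of_le_of_lt (hp p h) (by norm_num)) ((Icc 1 Z).filter Nat.Prime) K
    (fun p h => (mem_filter.1 h).2)
    (fun k hk l hl hd => mem_filter.2 ⟨mem_Icc.2 ⟨hl.one_le, hK k hk l hl hd⟩, hl⟩)
  refine h.trans ?_
  calc ∏ p ∈ (Icc 1 Z).filter Nat.Prime, (1 - Arith_isq p)⁻¹
      ≤ ∏ p ∈ (Icc 1 Z).filter Nat.Prime, Real.exp (4 * (1 / Real.sqrt p)) := by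
        refine prod_le_prod (fun p h => ?_) fun p h => ?_
        · have := hp p (mem_filter.1 h).2
          exact inv_nonneg.2 (by show 0 ≤ 1 - 1 / Real.sqrt p; linarith)
        · have := hp p (mem_filter.1 h).2
          exact Arith_inv_le (1 / Real.sqrt p) 4 (by positivity) (by norm_num) (by linarith)
    _ = Real.exp (4 * ∑ p ∈ (Icc 1 Z).filter Nat.Prime, 1 / Real.sqrt p) := by
        rw [mul_sum, Real.exp_sum]
    _ ≤ Real.exp (8 * Real.sqrt Z) := by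
        refine Real.exp_le_exp.2 ?_
        have h1 : ∑ p ∈ (Icc 1 Z).filter Nat.Prime, 1 / Real.sqrt p ≤
            ∑ p ∈ Icc 1 Z, 1 / Real.sqrt p :=
          sum_le_sum_of_subset_of_nonneg (filter_subset _ _) fun p _ _ => by positivity
        linarith [Arith_sqrt_sum Z]

theorem Arith_card (k : ℕ) (hk : 0 < k) (F : Finset ℕ)
    (hF : ∀ p ∈ F, p.Prime ∧ orderOf (3 : ZMod p) = k) : F.card ≤ 2 * k := by
  have h1 : ∏ p ∈ F, p ∣ 3 ^ k - 1 := by
    refine Finset.prod_primes_dvd _ (fun p hp => (hF p hp).1.prime) fun p hp => ?_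
    have h2 : (3 : ZMod p) ^ k = 1 := by rw [← (hF p hp).2]; exact pow_orderOf_eq_one _
    have h3 : ((1 : ℕ) : ZMod p) = ((3 ^ k : ℕ) : ZMod p) := by push_cast; exact h2.symm
    exact (Nat.modEq_iff_dvd' (Nat.one_le_pow _ _ (by norm_num))).1
      ((ZMod.natCast_eq_natCast_iff _ _ _).1 h3)
  have h2 : 1 < 3 ^ k := Nat.one_lt_pow hk.ne' (by norm_num)
  have h3 : ∏ p ∈ F, p ≤ 3 ^ k - 1 := Nat.le_of_dvd (by omega) h1
  have h4 : 2 ^ F.card ≤ ∏ p ∈ F, p := pow_card_le_prod _ _ _ fun p hp => (hF p hp).1.two_le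
  have h5 : 3 ^ k ≤ 2 ^ (2 * k) := by
    rw [pow_mul]
    exact Nat.pow_le_pow_left (by norm_num) k
  exact (Nat.pow_le_pow_iff_right (by norm_num : 1 < 2)).1 (by omega)

theorem Arith_fiber (k : ℕ) (hk : 0 < k) (F : Finset ℕ) (hc : F.card ≤ 2 * k)
    (hF : ∀ p ∈ F, 2 ≤ p ∧ k ∣ p - 1) :
    ∑ p ∈ F, (1 : ℝ) / p ≤ (2 + Real.log (2 * k)) / k := by
  have hkR : (0 : ℝ) < k := by exact_mod_cast hk
  have hj : ∀ p ∈ F, p = (p - 1) / k * k + 1 ∧ 1 ≤ (p - 1) / k := by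
    intro p hp
    obtain ⟨h1, h2⟩ := hF p hp
    have h3 := Nat.div_mul_cancel h2
    refine ⟨by omega, Nat.pos_of_ne_zero fun h => ?_⟩
    rw [h] at h3
    omega
  have hle : ∀ p ∈ F, (1 : ℝ) / p ≤ 1 / (((p - 1) / k : ℕ) : ℝ) / k := by
    intro p hp
    obtain ⟨h1, h2⟩ := hj p hp
    have h3 : (p : ℝ) = (((p - 1) / k : ℕ) : ℝ) * k + 1 := by exact_mod_cast h1
    have h4 : (1 : ℝ) ≤ (((p - 1) / k : ℕ) : ℝ) := by exact_mod_cast h2
    rw [div_div]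
    exact one_div_le_one_div_of_le (by positivity) (by linarith)
  refine (sum_le_sum hle).trans ?_
  rw [← sum_div]
  refine div_le_div_of_nonneg_right ?_ hkR.le
  have hinj : Set.InjOn (fun p => (p - 1) / k) F := by
    intro p hp q hq h
    have h1 := (hj p hp).1
    have h2 := (hj q hq).1
    simp only at h
    rw [h] at h1
    omega
  rw [← sum_image (f := fun j : ℕ => 1 / (j : ℝ)) hinj]
  set J := F.image fun p => (p - 1) / k with hJ
  have hJc : J.card ≤ 2 * k := card_image_le.trans hc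
  rw [← sum_filter_add_sum_filter_not J (fun j => j ≤ 2 * k)]
  have h1 : ∑ j ∈ J.filter (fun j => j ≤ 2 * k), 1 / (j : ℝ) ≤ 1 + Real.log (2 * k) := by
    have := MP_fdd1d3_nt.harm_le (2 * k)
    push_cast at this
    refine le_trans (sum_le_sum_of_subset_of_nonneg ?_ fun j _ _ => by positivity) this
    intro j hj'
    obtain ⟨h2, h3⟩ := mem_filter.1 hj'
    obtain ⟨p, hp, rfl⟩ := mem_image.1 h2
    exact mem_Icc.2 ⟨(hj p hp).2, h3⟩
  have h2 : ∑ j ∈ J.filter (fun j => ¬ j ≤ 2 * k), 1 / (j : ℝ) ≤ 1 := by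
    have h3 := sum_le_card_nsmul (J.filter fun j => ¬ j ≤ 2 * k) (fun j => 1 / (j : ℝ))
      (1 / (2 * k)) (fun j hj' => by
        have h4 : 2 * k ≤ j := by have := (mem_filter.1 hj').2; omega
        exact one_div_le_one_div_of_le (by positivity) (by exact_mod_cast h4))
    refine h3.trans ?_
    have h4 : ((J.filter fun j => ¬ j ≤ 2 * k).card : ℝ) ≤ 2 * k := by
      exact_mod_cast (card_filter_le _ _).trans hJc
    rw [nsmul_eq_mul, mul_one_div, div_le_one (by positivity)]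
    exact h4
  linarith

theorem Arith_log (k Y : ℕ) (hY : 1 ≤ Y) (hk : Y ≤ k) :
    (2 + Real.log (2 * k)) / k ≤ 4 / Real.sqrt (Real.sqrt Y) * (1 / Real.sqrt k) := by
  have hYR : (1 : ℝ) ≤ Y := by exact_mod_cast hY
  have hkR : (Y : ℝ) ≤ k := by exact_mod_cast hk
  set t := Real.sqrt (Real.sqrt k) with ht
  have hs : 0 < Real.sqrt (Real.sqrt Y) := Real.sqrt_pos.2 (Real.sqrt_pos.2 (by linarith))
  have hst : Real.sqrt (Real.sqrt Y) ≤ t := Real.sqrt_le_sqrt (Real.sqrt_le_sqrt hkR)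
  have ht0 : 0 < t := lt_of_lt_of_le hs hst
  have h2 : Real.sqrt k = t ^ 2 := (Real.sq_sqrt (Real.sqrt_nonneg _)).symm
  have h4 : (k : ℝ) = t ^ 4 := by
    rw [show t ^ 4 = (t ^ 2) ^ 2 by ring, ← h2, Real.sq_sqrt (by positivity)]
  have h5 : Real.log (2 * k) ≤ 4 * t - 3 := by
    rw [Real.log_mul (by norm_num) (by linarith), h4, Real.log_pow]
    have := Real.log_le_sub_one_of_pos ht0
    have h6 := Real.log_le_sub_one_of_pos (two_pos : (0 : ℝ) < 2)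
    push_cast
    linarith
  calc (2 + Real.log (2 * k)) / k ≤ 4 * t / k := by
        refine div_le_div_of_nonneg_right (by linarith) (by positivity)
    _ = 4 / t * (1 / Real.sqrt k) := by
        rw [h2, h4]
        field_simp
    _ ≤ _ := by gcongr

theorem Arith_big (Z Y : ℕ) (hY : 1 ≤ Y) (hYZ : Real.exp (32 * Real.sqrt Z) ≤ Y) (S : Finset ℕ)
    (hS : ∀ p ∈ S, p.Prime ∧ Y ^ 2 < p ∧ (3 : ZMod p) ≠ 0 ∧
      ∀ l, l.Prime → l ∣ orderOf (3 : ZMod p) → l ≤ Z) :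
    ∑ p ∈ S, (1 : ℝ) / p ≤ 6 := by
  have hYR : (1 : ℝ) ≤ Y := by exact_mod_cast hY
  set K := S.image fun p => orderOf (3 : ZMod p) with hK
  have hdvd : ∀ p ∈ S, orderOf (3 : ZMod p) ∣ p - 1 := by
    intro p hp
    have := Fact.mk (hS p hp).1
    exact ZMod.orderOf_dvd_card_sub_one (hS p hp).2.2.1
  have hpos : ∀ k ∈ K, 0 < k := by
    intro k hk
    obtain ⟨p, hp, rfl⟩ := mem_image.1 hk
    have := (hS p hp).1.two_le
    exact Nat.pos_of_dvd_of_pos (hdvd p hp) (by omega)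
  have hcard : ∀ k ∈ K, (S.filter fun p => orderOf (3 : ZMod p) = k).card ≤ 2 * k := fun k hk =>
    Arith_card k (hpos k hk) _ fun p hp => ⟨(hS p (mem_filter.1 hp).1).1, (mem_filter.1 hp).2⟩
  rw [← sum_fiberwise_of_maps_to (t := K) (g := fun p => orderOf (3 : ZMod p))
    (fun p hp => mem_image_of_mem _ hp), ← sum_filter_add_sum_filter_not K (fun k => k ≤ Y)]
  have h1 : ∑ k ∈ K.filter (fun k => k ≤ Y),
      ∑ p ∈ S.filter (fun p => orderOf (3 : ZMod p) = k), (1 : ℝ) / p ≤ 2 := by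
    have h2 := sum_le_card_nsmul (K.filter fun k => k ≤ Y)
      (fun k => ∑ p ∈ S.filter (fun p => orderOf (3 : ZMod p) = k), (1 : ℝ) / p) (2 / Y) ?_
    · refine h2.trans ?_
      have h3 : (K.filter fun k => k ≤ Y).card ≤ Y := by
        have : K.filter (fun k => k ≤ Y) ⊆ Icc 1 Y := fun k hk =>
          mem_Icc.2 ⟨hpos k (mem_filter.1 hk).1, (mem_filter.1 hk).2⟩
        simpa using card_le_card this
      have h4 : ((K.filter fun k => k ≤ Y).card : ℝ) ≤ Y := by exact_mod_cast h3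
      rw [nsmul_eq_mul, mul_div_assoc', div_le_iff₀ (by linarith)]
      linarith
    · intro k hk
      obtain ⟨hk1, hk2⟩ := mem_filter.1 hk
      have h3 := sum_le_card_nsmul (S.filter fun p => orderOf (3 : ZMod p) = k)
        (fun p => (1 : ℝ) / p) (1 / (Y : ℝ) ^ 2) (fun p hp => by
          have h4 := (hS p (mem_filter.1 hp).1).2.1.le
          exact one_div_le_one_div_of_le (by positivity) (by exact_mod_cast h4))
      refine h3.trans ?_
      have h4 : ((S.filter fun p => orderOf (3 : ZMod p) = k).card : ℝ) ≤ 2 * Y := by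
        exact_mod_cast (hcard k hk1).trans (by omega)
      rw [nsmul_eq_mul, mul_one_div, div_le_div_iff₀ (by positivity) (by linarith)]
      nlinarith
  have h2 : ∑ k ∈ K.filter (fun k => ¬ k ≤ Y),
      ∑ p ∈ S.filter (fun p => orderOf (3 : ZMod p) = k), (1 : ℝ) / p ≤ 4 := by
    have hs : Real.exp (8 * Real.sqrt Z) ≤ Real.sqrt (Real.sqrt Y) := by
      refine Real.le_sqrt_of_sq_le (Real.le_sqrt_of_sq_le ?_)
      rw [← pow_mul, ← Real.exp_nat_mul]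
      refine le_trans (le_of_eq ?_) hYZ
      congr 1
      push_cast
      ring
    have hs0 : 0 < Real.sqrt (Real.sqrt Y) := lt_of_lt_of_le (Real.exp_pos _) hs
    calc _ ≤ ∑ k ∈ K.filter (fun k => ¬ k ≤ Y),
          4 / Real.sqrt (Real.sqrt Y) * (1 / Real.sqrt k) := by
          refine sum_le_sum fun k hk => ?_
          obtain ⟨hk1, hk2⟩ := mem_filter.1 hk
          refine (Arith_fiber k (hpos k hk1) _ (hcard k hk1) fun p hp => ?_).trans
            (Arith_log k Y hY (by omega))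
          obtain ⟨h3, h4⟩ := mem_filter.1 hp
          exact ⟨(hS p h3).1.two_le, h4 ▸ hdvd p h3⟩
      _ ≤ 4 / Real.sqrt (Real.sqrt Y) * Real.exp (8 * Real.sqrt Z) := by
          rw [← mul_sum]
          refine mul_le_mul_of_nonneg_left (Arith_smooth Z _ fun k hk l hl hd => ?_)
            (by positivity)
          obtain ⟨p, hp, rfl⟩ := mem_image.1 (mem_filter.1 hk).1
          exact (hS p hp).2.2.2 l hl hd
      _ ≤ 4 := by
          rw [div_mul_eq_mul_div, div_le_iff₀ hs0]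
          linarith
  linarith

theorem Arith_ord {q Z p : ℕ} (hq : Ok q) (hZ : Lam q ≤ Z) (hp : p.Prime) (hd : p ∣ q) :
    (3 : ZMod p) ≠ 0 ∧ ∀ l, l.Prime → l ∣ orderOf (3 : ZMod p) → l ≤ Z := by
  obtain ⟨h0, hc⟩ := hq
  have : NeZero q := ⟨h0.ne'⟩
  have h3 : Nat.Coprime 3 q := (hc.coprime_dvd_right (by norm_num : 3 ∣ 15)).symm
  have h5 : Nat.Coprime 5 q := (hc.coprime_dvd_right (by norm_num : 5 ∣ 15)).symm
  have o3 : 0 < orderOf (3 : ZMod q) := by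
    have := (ZMod.isUnit_iff_coprime 3 q).2 h3
    exact (isOfFinOrder_iff_isUnit.2 (by simpa using this)).orderOf_pos
  have o5 : 0 < orderOf (5 : ZMod q) := by
    have := (ZMod.isUnit_iff_coprime 5 q).2 h5
    exact (isOfFinOrder_iff_isUnit.2 (by simpa using this)).orderOf_pos
  constructor
  · intro h
    have h1 : ((3 : ℕ) : ZMod p) = 0 := by simpa using h
    rw [ZMod.natCast_eq_zero_iff] at h1
    exact hp.one_lt.ne' (Nat.eq_one_of_dvd_coprimes h3 h1 hd)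
  · intro l hl hld
    have h1 := orderOf_map_dvd (ZMod.castHom hd (ZMod p)).toMonoidHom (3 : ZMod q)
    have h2 : (ZMod.castHom hd (ZMod p)).toMonoidHom (3 : ZMod q) = 3 := map_ofNat (ZMod.castHom hd (ZMod p)) 3
    rw [h2] at h1
    refine le_trans ?_ hZ
    exact le_sup (f := id) (Nat.mem_primeFactors.2
      ⟨hl, (hld.trans h1).mul_right _, (Nat.mul_pos o3 o5).ne'⟩)

theorem hsum : ∃ C : ℝ, 0 < C ∧ ∀ Z : ℕ, 1 ≤ Z → ∀ A : Finset ℕ, (∀ q ∈ A, Ok q ∧ Lam q ≤ Z) →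
    ∑ q ∈ A, (1 : ℝ) / q ≤ C * Real.sqrt Z := by
  refine ⟨Real.exp 4 * Real.exp 6 * 990, by positivity, fun Z hZ A hA => ?_⟩
  set S := A.biUnion Nat.primeFactors with hSd
  have hS : ∀ p ∈ S, p.Prime ∧ (3 : ZMod p) ≠ 0 ∧
      ∀ l, l.Prime → l ∣ orderOf (3 : ZMod p) → l ≤ Z := by
    intro p hp
    obtain ⟨q, hq, hpq⟩ := mem_biUnion.1 hp
    have hpp := Nat.prime_of_mem_primeFactors hpq
    exact ⟨hpp, Arith_ord (hA q hq).1 (hA q hq).2 hpp (Nat.dvd_of_mem_primeFactors hpq)⟩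
  have hp2 : ∀ p : ℕ, p.Prime → (1 : ℝ) / p ≤ 1 / 2 := fun p hp =>
    one_div_le_one_div_of_le two_pos (by exact_mod_cast hp.two_le)
  have h1 := Arith_euler Arith_inv (fun n => by show 0 ≤ 1 / (n : ℝ); positivity)
    (fun p h => lt_of_le_of_lt (hp2 p h) (by norm_num)) S A (fun p h => (hS p h).1)
    (fun q hq p hp hd => mem_biUnion.2 ⟨q, hq, Nat.mem_primeFactors.2 ⟨hp, hd, (hA q hq).1.1.ne'⟩⟩)
  refine h1.trans ?_
  have hsZ : 1 ≤ Real.sqrt Z := Real.le_sqrt_of_sq_le (by exact_mod_cast hZ)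
  set Y := ⌈Real.exp (32 * Real.sqrt Z)⌉₊ with hY
  have hYZ : Real.exp (32 * Real.sqrt Z) ≤ Y := Nat.le_ceil _
  have hE : 2 ≤ Real.exp (32 * Real.sqrt Z) := by
    linarith [Real.add_one_le_exp (32 * Real.sqrt Z)]
  have hY2 : 2 ≤ Y := by exact_mod_cast hE.trans hYZ
  have hYu : (Y : ℝ) ≤ 2 * Real.exp (32 * Real.sqrt Z) := by
    have := Nat.ceil_lt_add_one (Real.exp_pos (32 * Real.sqrt Z)).le
    linarith
  have hlog : Real.log ((Y ^ 2 : ℕ) : ℝ) ≤ 66 * Real.sqrt Z := by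
    have hY0 : (0 : ℝ) < Y := by exact_mod_cast (by omega : 0 < Y)
    have h2 := Real.log_le_log hY0 hYu
    rw [Real.log_mul (by norm_num) (Real.exp_pos _).ne', Real.log_exp] at h2
    have h6 := Real.log_le_sub_one_of_pos (two_pos : (0 : ℝ) < 2)
    push_cast
    rw [Real.log_pow]
    push_cast
    linarith
  have h2 : ∏ p ∈ S, (1 - Arith_inv p)⁻¹ ≤
      ∏ p ∈ S, ((1 + 1 / (p : ℝ)) * Real.exp (2 * (1 / (p : ℝ)) ^ 2)) := by
    refine prod_le_prod (fun p h => ?_) fun p h => ?_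
    · have := hp2 p (hS p h).1
      exact inv_nonneg.2 (by show 0 ≤ 1 - 1 / (p : ℝ); linarith)
    · have h3 := hp2 p (hS p h).1
      have h4 : (0 : ℝ) ≤ 1 / p := by positivity
      show (1 - 1 / (p : ℝ))⁻¹ ≤ _
      generalize 1 / (p : ℝ) = u at h3 h4
      have h5 := Arith_inv_le (u ^ 2) 2 (by positivity) two_pos (by nlinarith)
      have h6 : (1 - u)⁻¹ = (1 + u) * (1 - u ^ 2)⁻¹ := by
        have : 1 - u ≠ 0 := by linarith
        have : 1 + u ≠ 0 := by linarith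
        rw [show 1 - u ^ 2 = (1 + u) * (1 - u) by ring]
        field_simp
      rw [h6]
      exact mul_le_mul_of_nonneg_left h5 (by linarith)
  refine h2.trans ?_
  rw [prod_mul_distrib, ← Real.exp_sum, ← prod_filter_mul_prod_filter_not S (fun p => p ≤ Y ^ 2)]
  have h3 : ∑ p ∈ S, 2 * (1 / (p : ℝ)) ^ 2 ≤ 4 := by
    rw [← mul_sum]
    have h4 := MP_fdd1d3_nt.inv_sq_le_two (S.sup id)
    have h5 : ∑ p ∈ S, (1 / (p : ℝ)) ^ 2 ≤ ∑ p ∈ Icc 1 (S.sup id), (1 / (p : ℝ)) ^ 2 :=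
      sum_le_sum_of_subset_of_nonneg
        (fun p hp => mem_Icc.2 ⟨(hS p hp).1.one_le, le_sup (f := id) hp⟩) fun p _ _ => by positivity
    linarith
  have h4 : ∏ p ∈ S.filter (fun p => p ≤ Y ^ 2), (1 + 1 / (p : ℝ)) ≤ 990 * Real.sqrt Z := by
    have h5 := MP_fdd1d3_nt.mertens_b (Y ^ 2) (by nlinarith)
    have h6 : ∏ p ∈ MP_fdd1d3_nt.PP 0 (Y ^ 2), (1 + 1 / (p : ℝ)) =
        ∑ s ∈ (MP_fdd1d3_nt.PP 0 (Y ^ 2)).powerset, 1 / MP_fdd1d3_nt.nn (fun p => p) s := by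
      rw [prod_one_add]
      refine sum_congr rfl fun s _ => ?_
      simp [MP_fdd1d3_nt.nn]
    have h7 : ∏ p ∈ S.filter (fun p => p ≤ Y ^ 2), (1 + 1 / (p : ℝ)) ≤
        ∏ p ∈ MP_fdd1d3_nt.PP 0 (Y ^ 2), (1 + 1 / (p : ℝ)) := by
      refine prod_le_prod_of_subset_of_one_le ?_ (fun p _ => by positivity)
        fun p _ _ => le_add_of_nonneg_right (by positivity)
      intro p hp
      obtain ⟨h8, h9⟩ := mem_filter.1 hp
      exact (MP_fdd1d3_nt.mem_PP _ _ _).2 ⟨⟨(hS p h8).1.pos, h9⟩, (hS p h8).1⟩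
    linarith
  have h5 : ∏ p ∈ S.filter (fun p => ¬ p ≤ Y ^ 2), (1 + 1 / (p : ℝ)) ≤ Real.exp 6 := by
    have h6 := Arith_big Z Y (by omega) hYZ (S.filter fun p => ¬ p ≤ Y ^ 2) fun p hp => by
      obtain ⟨h7, h8⟩ := mem_filter.1 hp
      exact ⟨(hS p h7).1, by omega, (hS p h7).2⟩
    refine le_trans ?_ (Real.exp_le_exp.2 h6)
    rw [Real.exp_sum]
    refine prod_le_prod (fun p _ => by positivity) fun p _ => ?_
    linarith [Real.add_one_le_exp (1 / (p : ℝ))]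
  calc _ ≤ 990 * Real.sqrt Z * Real.exp 6 * Real.exp 4 := by
        refine mul_le_mul (mul_le_mul h4 h5 (prod_nonneg fun p _ => by positivity)
          (by positivity)) (Real.exp_le_exp.2 h3) (by positivity) (by positivity)
    _ = _ := by ring

end Pool.Agent.MP_c903c4_nt

end
end

section

/-!
Tails of the Romanov type series.
-/

open Finset Filter Topology
open scoped Classical

noncomputable section

namespace Pool.Agent.MP_c903c4_nt

lemma tail_ranges {C : ℝ} (hC : ∀ Z : ℕ, 1 ≤ Z → ∀ A : Finset ℕ, (∀ q ∈ A, Ok q ∧ Lam q ≤ Z) →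
    ∑ q ∈ A, (1 : ℝ) / q ≤ C * Real.sqrt Z) {L : ℕ} (hL : 1 ≤ L) (k : ℕ) :
    ∀ A : Finset ℕ, (∀ q ∈ A, Ok q ∧ L < Lam q ∧ Lam q ≤ L * 4 ^ k) →
      ∑ q ∈ A, (1 : ℝ) / (q * Lam q) ≤ 4 * C / Real.sqrt L * (1 - 1 / 2 ^ k) := by
  induction k with
  | zero =>
    intro A hA
    have : A = ∅ := eq_empty_of_forall_notMem fun q hq => by
      have := hA q hq
      omega
    simp [this]
  | succ k ih =>
    intro A hA
    have hL0 : (0 : ℝ) < L := by exact_mod_cast hL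
    have hs : 0 < Real.sqrt L := Real.sqrt_pos.2 hL0
    have hss : Real.sqrt L * Real.sqrt L = L := Real.mul_self_sqrt hL0.le
    have h1 := ih (A.filter fun q => Lam q ≤ L * 4 ^ k) fun q hq => by
      rw [mem_filter] at hq
      exact ⟨(hA q hq.1).1, (hA q hq.1).2.1, hq.2⟩
    have h2 := hC (L * 4 ^ (k + 1)) (Nat.mul_pos hL (by positivity))
      (A.filter fun q => ¬ Lam q ≤ L * 4 ^ k) fun q hq =>
        ⟨(hA q (mem_filter.1 hq).1).1, (hA q (mem_filter.1 hq).1).2.2⟩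
    have h3 : Real.sqrt ((L * 4 ^ (k + 1) : ℕ) : ℝ) = Real.sqrt L * 2 ^ (k + 1) := by
      push_cast
      rw [Real.sqrt_mul hL0.le, show (4 : ℝ) ^ (k + 1) = (2 ^ (k + 1)) ^ 2 by
        rw [← pow_mul, mul_comm, pow_mul]; norm_num, Real.sqrt_sq (by positivity)]
    have h4 : ∑ q ∈ A.filter (fun q => ¬ Lam q ≤ L * 4 ^ k), (1 : ℝ) / (q * Lam q) ≤
        (∑ q ∈ A.filter (fun q => ¬ Lam q ≤ L * 4 ^ k), (1 : ℝ) / q) / (L * 4 ^ k) := by
      rw [sum_div]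
      refine sum_le_sum fun q hq => ?_
      rw [mem_filter] at hq
      have hq0 : (0 : ℝ) < q := by exact_mod_cast (hA q hq.1).1.1
      have : (L : ℝ) * 4 ^ k ≤ Lam q := by exact_mod_cast (not_le.1 hq.2).le
      rw [div_div]
      exact one_div_le_one_div_of_le (by positivity) (mul_le_mul_of_nonneg_left this hq0.le)
    have h5 : (∑ q ∈ A.filter (fun q => ¬ Lam q ≤ L * 4 ^ k), (1 : ℝ) / q) / (L * 4 ^ k) ≤
        C * (Real.sqrt L * 2 ^ (k + 1)) / (L * 4 ^ k) :=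
      div_le_div_of_nonneg_right (h3 ▸ h2) (by positivity)
    have h6 : C * (Real.sqrt L * 2 ^ (k + 1)) / (L * 4 ^ k) =
        4 * C / Real.sqrt L * (1 / 2 ^ k - 1 / 2 ^ (k + 1)) := by
      have h4' : (4 : ℝ) ^ k = 2 ^ k * 2 ^ k := by rw [← mul_pow]; norm_num
      rw [h4', pow_succ]
      generalize Real.sqrt L = s at hs hss
      rw [← hss]
      field_simp
      ring
    rw [← sum_filter_add_sum_filter_not A fun q => Lam q ≤ L * 4 ^ k]
    linarith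

lemma tail_main {C : ℝ} (hC0 : 0 < C) (hC : ∀ Z : ℕ, 1 ≤ Z → ∀ A : Finset ℕ,
    (∀ q ∈ A, Ok q ∧ Lam q ≤ Z) → ∑ q ∈ A, (1 : ℝ) / q ≤ C * Real.sqrt Z) {L : ℕ} (hL : 1 ≤ L)
    (A : Finset ℕ) (hA : ∀ q ∈ A, Ok q ∧ L < Lam q) :
    ∑ q ∈ A, (1 : ℝ) / (q * Lam q) ≤ 4 * C / Real.sqrt L := by
  refine (tail_ranges hC hL (A.sup Lam) A fun q hq => ⟨(hA q hq).1, (hA q hq).2, ?_⟩).trans ?_
  · calc Lam q ≤ A.sup Lam := le_sup hq
      _ ≤ 4 ^ A.sup Lam := (Nat.lt_pow_self (by norm_num)).le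
      _ ≤ L * 4 ^ A.sup Lam := Nat.le_mul_of_pos_left _ hL
  · exact mul_le_of_le_one_right (by positivity) (sub_le_self _ (by positivity))

lemma tail_summable {P : ℕ → Prop} {c : ℝ}
    (h : ∀ A : Finset ℕ, (∀ q ∈ A, P q) → ∑ q ∈ A, (1 : ℝ) / q ≤ c) :
    Summable fun q : ℕ => if P q then (1 : ℝ) / q else 0 :=
  summable_of_sum_le (fun q => by
    show (0 : ℝ) ≤ if P q then (1 : ℝ) / q else 0
    split_ifs <;> positivity) fun A => by
      rw [← sum_filter]; exact h _ fun q hq => (mem_filter.1 hq).2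

theorem tails {ε : ℝ} (hε : 0 < ε) : ∃ (L y : ℕ) (σ : ℕ → ℝ), 5 ≤ L ∧
    (∀ A : Finset ℕ, (∀ q ∈ A, Ok q ∧ L < Lam q) → ∑ q ∈ A, (1 : ℝ) / (q * Lam q) ≤ ε) ∧
    (∀ A : Finset ℕ, (∀ q ∈ A, Ok q ∧ Lam q ≤ L) → ∑ q ∈ A, (1 : ℝ) / q ≤ ε * L) ∧
    (∀ A : Finset ℕ, (∀ q ∈ A, Ok q ∧ Lam q ≤ L ∧ y < q) → ∑ q ∈ A, (1 : ℝ) / q ≤ ε) ∧
    (∀ l, 0 ≤ σ l) ∧
    (∀ (l : ℕ) (A : Finset ℕ), (∀ q ∈ A, Ok q ∧ Lam q = l) → ∑ q ∈ A, (1 : ℝ) / q ≤ σ l) ∧
    ∀ B : Finset ℕ, (∀ l ∈ B, L < l) → ∑ l ∈ B, σ l / l ≤ ε ^ 2 := by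
  obtain ⟨C, hC0, hC⟩ := hsum
  have hsq : Tendsto (fun L : ℕ => Real.sqrt L) atTop atTop :=
    Real.tendsto_sqrt_atTop.comp tendsto_natCast_atTop_atTop
  obtain ⟨L, hL5, hL1, hL2⟩ := ((eventually_ge_atTop 5).and
    ((hsq.eventually_ge_atTop (4 * C / ε)).and (hsq.eventually_ge_atTop (4 * C / ε ^ 2)))).exists
  have hL : 1 ≤ L := by omega
  have hL0 : (0 : ℝ) < L := by exact_mod_cast hL
  have hs : 0 < Real.sqrt L := Real.sqrt_pos.2 hL0
  rw [div_le_iff₀ hε] at hL1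
  rw [div_le_iff₀ (by positivity)] at hL2
  have e1 : 4 * C / Real.sqrt L ≤ ε := by rw [div_le_iff₀ hs]; linarith
  have e2 : 4 * C / Real.sqrt L ≤ ε ^ 2 := by rw [div_le_iff₀ hs]; linarith
  have hS := tail_summable (P := fun q => Ok q ∧ Lam q ≤ L) (hC L hL)
  obtain ⟨s, hs'⟩ := summable_iff_vanishing_norm.1 hS ε hε
  have hT : ∀ l, Summable fun q : ℕ => if Ok q ∧ Lam q = l then (1 : ℝ) / q else 0 := fun l => by
    convert tail_summable (P := fun q => Ok q ∧ Lam q = l) (c := C * Real.sqrt (l + 1 : ℕ))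
      fun A hA => hC (l + 1) (by omega) A fun q hq => ⟨(hA q hq).1, by rw [(hA q hq).2]; omega⟩
  have hnn : ∀ l q : ℕ, (0 : ℝ) ≤ if Ok q ∧ Lam q = l then (1 : ℝ) / q else 0 := fun l q => by
    split_ifs <;> positivity
  refine ⟨L, s.sup id, fun l => ∑' q : ℕ, if Ok q ∧ Lam q = l then (1 : ℝ) / q else 0, hL5,
    fun A hA => (tail_main hC0 hC hL A hA).trans e1, fun A hA => (hC L hL A hA).trans ?_,
    fun A hA => ?_, fun l => tsum_nonneg (hnn l), fun l A hA => ?_, fun B hB => ?_⟩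
  · have := Real.mul_self_sqrt hL0.le
    nlinarith
  · have h1 := hs' A (disjoint_left.2 fun q hq hq' =>
      absurd (le_sup (f := id) hq') (not_le.2 (hA q hq).2.2))
    refine le_trans (le_of_eq (sum_congr rfl fun q hq => ?_)) ((le_abs_self _).trans h1.le)
    rw [if_pos ⟨(hA q hq).1, (hA q hq).2.1⟩]
  · refine le_trans (le_of_eq (sum_congr rfl fun q hq => ?_))
      ((hT l).sum_le_tsum A fun q _ => hnn l q)
    rw [if_pos (hA q hq)]
  · refine hasSum_le_of_sum_le (hasSum_sum fun l _ => (hT l).hasSum.div_const (l : ℝ)) fun A => ?_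
    refine le_trans (le_of_eq ?_) ((tail_main hC0 hC hL (A.filter fun q => Ok q ∧ Lam q ∈ B)
      fun q hq => ⟨(mem_filter.1 hq).2.1, hB _ (mem_filter.1 hq).2.2⟩).trans e2)
    rw [sum_filter]
    refine sum_congr rfl fun q _ => ?_
    by_cases hq : Ok q
    · simp only [hq, true_and, ite_div, zero_div, sum_ite_eq, div_div]
    · simp [hq]

end Pool.Agent.MP_c903c4_nt

end
end

section

/-!
Good classes exist for most locally soluble residues.
-/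

open Finset Filter Topology
open scoped Classical

noncomputable section

namespace Pool.Agent.MP_c903c4_nt

/-- The separation length for the modulus q. -/
def lamq (L y : ℕ) (F : Finset ℕ) (q : ℕ) : ℕ :=
  if L < Lam q then (if Lam q ∈ F then 1 else Lam q) else if ∃ p ∈ bg L y, p ∣ q then L else 1

variable {L y : ℕ} {F : Finset ℕ}

lemma sep_one (N T : ℕ) : Sep N T 1 := ⟨3, Or.inl rfl, fun i _ h1 h2 => by omega⟩

lemma sep_lam (hL : 5 ≤ L) (hF : ∀ r ∈ F, r.Prime) {G q : ℕ} (hq : Ok q) (h1 : L < Lam q)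
    (h2 : Lam q ∉ F) : Sep (G * q) (TT L y F) (Lam q) := by
  obtain ⟨hp, hd⟩ := Lam_spec (q := q) (by omega)
  have hT : ¬ Lam q ∣ TT L y F := by
    intro h
    rcases (Nat.Prime.dvd_mul hp).1 h with h | h
    · have := OO_smooth hL hp h
      omega
    · exact not_dvd_prods hp (fun l hl => ⟨(mem_sm.1 hl).2, by have := (mem_sm.1 hl).1; omega⟩)
        (fun l hl => ⟨hF l hl, fun h => h2 (h ▸ hl)⟩) _ h
  have key : ∀ g : ℕ, g.Coprime q → Lam q ∣ orderOf (g : ZMod q) → ∀ i c : ℕ, 0 < i → i < Lam q →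
      ¬ ((G * q : ℕ) : ℤ) ∣ (g : ℤ) ^ c * ((g : ℤ) ^ (TT L y F * i) - 1) := by
    intro g hg ho i c hi hil h
    have a1 : (q : ℤ) ∣ (g : ℤ) ^ c * ((g : ℤ) ^ (TT L y F * i) - 1) :=
      Dvd.dvd.trans (by push_cast; exact Dvd.intro_left _ rfl) h
    have a2 : IsCoprime (q : ℤ) ((g : ℤ) ^ c) :=
      (Nat.isCoprime_iff_coprime.2 hg.symm).pow_right
    have a3 := ho.trans (ord_of_dvd (a2.dvd_of_dvd_mul_left a1))
    rcases (Nat.Prime.dvd_mul hp).1 a3 with h | h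
    · exact hT h
    · have := Nat.le_of_dvd hi h
      omega
  rcases (Nat.Prime.dvd_mul hp).1 hd with h | h
  · refine ⟨3, Or.inl rfl, ?_⟩
    exact_mod_cast key 3 (Nat.Coprime.symm (hq.2.of_dvd_right (by norm_num))) (by simpa using h)
  · refine ⟨5, Or.inr rfl, ?_⟩
    exact_mod_cast key 5 (Nat.Coprime.symm (hq.2.of_dvd_right (by norm_num))) (by simpa using h)

lemma sep_big (hL : 5 ≤ L) (hF : ∀ r ∈ F, r.Prime) {p N : ℕ} (hp : p ∈ bg L y)
    (hN : p ^ (mu L y F p + 1) ∣ N) : Sep N (TT L y F) L := by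
  obtain ⟨⟨h1, _⟩, hpp, _⟩ := mem_bg.1 hp
  obtain ⟨g, hg, d2⟩ := ee_exact (y := y) hL hpp
  have d1 := ee_dvd (y := y) hL hpp hg
  have hpg : (p : ℤ) ≠ g := by rcases hg with rfl | rfl <;> omega
  refine ⟨g, hg, fun i c hi hil h => ?_⟩
  have a1 : (p : ℤ) ^ (mu L y F p + 1) ∣ g ^ c * (g ^ (TT L y F * i) - 1) :=
    Dvd.dvd.trans (by exact_mod_cast hN) h
  have a2 : IsCoprime ((p : ℤ) ^ (mu L y F p + 1)) (g ^ c) :=
    ((Nat.prime_iff_prime_int.1 hpp).irreducible.coprime_iff_not_dvd.2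
      (not_dvd_base hpp hg hpg)).pow
  have a3 := a2.dvd_of_dvd_mul_left a1
  have hu := not_dvd_prods hpp (A := sm L) (B := F.erase p)
    (fun l hl => ⟨(mem_sm.1 hl).2, by have := (mem_sm.1 hl).1; omega⟩)
    (fun l hl => ⟨hF l (mem_erase.1 hl).2, (mem_erase.1 hl).1⟩) (kk L y)
  have hu' : ¬ p ∣ ((∏ l ∈ sm L, l ^ kk L y) * ∏ r ∈ F.erase p, r) * i := by
    intro h
    rcases (Nat.Prime.dvd_mul hpp).1 h with h | h
    · exact hu h
    · have := Nat.le_of_dvd hi h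
      omega
  have e : TT L y F * i = OO L y * p ^ (if p ∈ F then 1 else 0) *
      (((∏ l ∈ sm L, l ^ kk L y) * ∏ r ∈ F.erase p, r) * i) := by
    unfold TT
    split_ifs with h
    · rw [← Finset.mul_prod_erase F (fun r => r) h]
      ring
    · rw [Finset.erase_eq_of_notMem h]
      ring
  refine lte hpp (by omega) (ee_pos hL hp) d1 d2 (if p ∈ F then 1 else 0) _ hu' ?_
  rw [← e]
  rwa [mu, if_neg (by omega)] at a3

lemma gc_sum {q₁ : ℕ} {σ : ℕ → ℝ} {ε : ℝ} (hL : 5 ≤ L) (hs : ∀ l ∈ sm L, l ∣ q₁)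
    (t1 : ∀ A : Finset ℕ, (∀ q ∈ A, Ok q ∧ L < Lam q) → ∑ q ∈ A, (1 : ℝ) / (q * Lam q) ≤ ε)
    (t2 : ∀ A : Finset ℕ, (∀ q ∈ A, Ok q ∧ Lam q ≤ L) → ∑ q ∈ A, (1 : ℝ) / q ≤ ε * L)
    (t3 : ∀ A : Finset ℕ, (∀ q ∈ A, Ok q ∧ Lam q ≤ L ∧ y < q) → ∑ q ∈ A, (1 : ℝ) / q ≤ ε)
    (t5 : ∀ (l : ℕ) (A : Finset ℕ), (∀ q ∈ A, Ok q ∧ Lam q = l) → ∑ q ∈ A, (1 : ℝ) / q ≤ σ l)
    (hF : ∑ p ∈ F, σ p ≤ ε) (hok : ∀ q, 1 < q → q.Coprime q₁ → Ok q) (Q : ℕ) :
    ∑ q ∈ Cop q₁ 1 Q, (1 : ℝ) / (q * lamq L y F q) ≤ 4 * ε := by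
  set C := Cop q₁ 1 Q with hC
  have hm : ∀ q ∈ C, 1 < q ∧ q.Coprime q₁ := fun q hq =>
    ⟨(mem_Ioc.1 (mem_filter.1 hq).1).1, (mem_filter.1 hq).2⟩
  have hk : ∀ q ∈ C, Ok q := fun q hq => hok q (hm q hq).1 (hm q hq).2
  rw [← Finset.sum_filter_add_sum_filter_not C (fun q => L < Lam q),
    ← Finset.sum_filter_add_sum_filter_not (C.filter fun q => L < Lam q) (fun q => Lam q ∈ F),
    ← Finset.sum_filter_add_sum_filter_not (C.filter fun q => ¬ L < Lam q)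
      (fun q => ∃ p ∈ bg L y, p ∣ q)]
  have a1 : ∑ q ∈ (C.filter fun q => L < Lam q).filter (fun q => Lam q ∈ F),
      (1 : ℝ) / (q * lamq L y F q) ≤ ε := by
    refine le_trans ?_ hF
    rw [← Finset.sum_fiberwise_of_maps_to (t := F) (g := Lam) fun q hq => (mem_filter.1 hq).2]
    refine Finset.sum_le_sum fun l _ => le_trans (le_of_eq ?_) (t5 l
      (((C.filter fun q => L < Lam q).filter fun q => Lam q ∈ F).filter fun q => Lam q = l)
      fun q hq => ⟨hk q (mem_filter.1 (mem_filter.1 (mem_filter.1 hq).1).1).1, (mem_filter.1 hq).2⟩)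
    refine Finset.sum_congr rfl fun q hq => ?_
    have b1 := (mem_filter.1 (mem_filter.1 hq).1).2
    have b2 := (mem_filter.1 (mem_filter.1 (mem_filter.1 hq).1).1).2
    simp [lamq, b1, b2]
  have a2 : ∑ q ∈ (C.filter fun q => L < Lam q).filter (fun q => ¬ Lam q ∈ F),
      (1 : ℝ) / (q * lamq L y F q) ≤ ε := by
    refine le_trans (le_of_eq ?_) (t1 ((C.filter fun q => L < Lam q).filter fun q => ¬ Lam q ∈ F)
      fun q hq => ⟨hk q (mem_filter.1 (mem_filter.1 hq).1).1, (mem_filter.1 (mem_filter.1 hq).1).2⟩)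
    refine Finset.sum_congr rfl fun q hq => ?_
    have b1 := (mem_filter.1 hq).2
    have b2 := (mem_filter.1 (mem_filter.1 hq).1).2
    simp [lamq, b1, b2]
  have a3 : ∑ q ∈ (C.filter fun q => ¬ L < Lam q).filter (fun q => ∃ p ∈ bg L y, p ∣ q),
      (1 : ℝ) / (q * lamq L y F q) ≤ ε := by
    have hL0 : (0 : ℝ) < L := by exact_mod_cast (by omega : 0 < L)
    have b0 := t2 ((C.filter fun q => ¬ L < Lam q).filter fun q => ∃ p ∈ bg L y, p ∣ q)
      fun q hq => ⟨hk q (mem_filter.1 (mem_filter.1 hq).1).1,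
        not_lt.1 (mem_filter.1 (mem_filter.1 hq).1).2⟩
    rw [← div_le_iff₀ hL0, Finset.sum_div] at b0
    refine le_trans (le_of_eq ?_) b0
    refine Finset.sum_congr rfl fun q hq => ?_
    have b1 := (mem_filter.1 hq).2
    have b2 := (mem_filter.1 (mem_filter.1 hq).1).2
    simp only [lamq, b1, b2, if_true, if_false, div_div]
  have a4 : ∑ q ∈ (C.filter fun q => ¬ L < Lam q).filter (fun q => ¬ ∃ p ∈ bg L y, p ∣ q),
      (1 : ℝ) / (q * lamq L y F q) ≤ ε := by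
    refine le_trans (le_of_eq ?_)
      (t3 ((C.filter fun q => ¬ L < Lam q).filter fun q => ¬ ∃ p ∈ bg L y, p ∣ q) fun q hq => ?_)
    · refine Finset.sum_congr rfl fun q hq => ?_
      have b1 := (mem_filter.1 hq).2
      have b2 := (mem_filter.1 (mem_filter.1 hq).1).2
      simp only [lamq, b1, b2, if_false, Nat.cast_one, mul_one]
    · have b1 := (mem_filter.1 hq).2
      have b2 := not_lt.1 (mem_filter.1 (mem_filter.1 hq).1).2
      have b3 := (mem_filter.1 (mem_filter.1 hq).1).1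
      refine ⟨hk q b3, b2, ?_⟩
      obtain ⟨c1, c2⟩ := hm q b3
      have hp := Nat.minFac_prime (by omega : q ≠ 1)
      have hd := Nat.minFac_dvd q
      have c3 : L < q.minFac := by
        by_contra hc
        have := Nat.dvd_gcd hd (hs _ (mem_sm.2 ⟨not_lt.1 hc, hp⟩))
        rw [c2] at this
        exact hp.one_lt.ne' (Nat.dvd_one.1 this)
      by_contra hc
      refine b1 ⟨q.minFac, mem_bg.2 ⟨⟨c3, ?_⟩, hp, (Lam_mono (hk q b3) hd).trans b2⟩, hd⟩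
      exact (Nat.le_of_dvd (by omega) hd).trans (not_lt.1 hc)
  linarith

theorem gc {ε : ℝ} (hε : 0 < ε) : ∃ (q₀ : ℕ) (Bad : Finset ℕ), 0 < q₀ ∧ (Bad.card : ℝ) ≤ ε * q₀ ∧
    ∀ a, a < q₀ → a ∉ Bad → Loc q₀ a → Data ε q₀ a := by
  obtain ⟨L, y, σ, hL, t1, t2, t3, t4, t5, t6⟩ := tails (ε := ε / 4) (by positivity)
  refine ⟨q0 L y, (range (q0 L y)).filter fun a => ε / 4 < ∑ p ∈ FF L y a, σ p, q0_pos, ?_, ?_⟩
  · have := bad_card (y := y) hL t4 (by positivity : 0 < ε / 4)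
      (t6 _ fun l hl => (mem_bg.1 hl).1.1)
    have h0 : (0 : ℝ) ≤ q0 L y := by positivity
    nlinarith
  intro a ha hbad hloc
  have hσ : ∑ p ∈ FF L y a, σ p ≤ ε / 4 := by
    by_contra hc
    exact hbad (mem_filter.2 ⟨mem_range.2 ha, not_le.1 hc⟩)
  set F := FF L y a with hFd
  have hFb : ∀ r ∈ F, r ∈ bg L y ∧ r % 4 = 3 ∧ Odd (ee L y r) := fun r hr =>
    ⟨(mem_filter.1 hr).1, (mem_filter.1 hr).2.1, (mem_filter.1 hr).2.2.1⟩
  have hFp : ∀ r ∈ F, r.Prime := fun r hr => (mem_bg.1 (hFb r hr).1).2.1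
  obtain ⟨c₀, d₀, hc, hd, hv⟩ := exists_good (F := F) hL (al_of_loc hL hloc)
    fun p => mem_filter
  choose! v hv using hv
  obtain ⟨g1, g2, g3⟩ := assemble (L := L) (PP L y) (fun p => PP_prime) (two_mem hL) (ff L y)
    (mu L y F) v (fun x : ℕ × ℕ => mm a (c₀ + TT L y F * x.1) (d₀ + TT L y F * x.2))
    fun p hp x => (hv p hp).congr (stab_TT hL hp a x.1 x.2 hc hd)
  set G := ∏ p ∈ PP L y, p ^ v p with hG
  set q₁ := ∏ p ∈ PP L y, p ^ (ff L y p - v p) with hq₁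
  have hdv : ∀ p ∈ PP L y, v p < ff L y p → p ∣ q₁ := fun p hp h =>
    (dvd_pow_self p (by omega)).trans
      (Finset.dvd_prod_of_mem (fun p => p ^ (ff L y p - v p)) hp)
  have hs : ∀ l ∈ sm L, l ∣ q₁ := fun l hl =>
    hdv l (mem_PP.2 (Or.inl hl)) ((hv l (mem_PP.2 (Or.inl hl))).2.2.2.2.2.2 (mem_sm.1 hl).1)
  have hok : ∀ q, 1 < q → q.Coprime q₁ → Ok q := by
    intro q h1 h2
    refine ⟨by omega, ?_⟩
    exact Nat.Coprime.mul_right (h2.of_dvd_right (hs 3 (mem_sm.2 ⟨by omega, Nat.prime_three⟩)))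
      (h2.of_dvd_right (hs 5 (mem_sm.2 ⟨by omega, Nat.prime_five⟩)))
  refine ⟨G, q₁, TT L y F, c₀, d₀, lamq L y F, ?_, g1, ?_, g2, fun i j => g3 (i, j), ?_, ?_⟩
  · rw [hG, hq₁, ← Finset.prod_mul_distrib]
    refine Finset.prod_congr rfl fun p hp => ?_
    rw [← pow_add, Nat.add_sub_cancel' (hv p hp).1]
  · exact Nat.mul_pos (OO_pos hL) (Nat.mul_pos
      (Finset.prod_pos fun l hl => pow_pos (mem_sm.1 hl).2.pos _)
      (Finset.prod_pos fun r hr => (hFp r hr).pos))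
  · intro q h1 h2
    unfold lamq
    split_ifs with c1 c2 c3
    · exact ⟨le_rfl, sep_one _ _⟩
    · exact ⟨by omega, sep_lam hL hFp (hok q h1 h2) c1 c2⟩
    · obtain ⟨p, hp, hpq⟩ := c3
      refine ⟨by omega, sep_big hL hFp hp ?_⟩
      have hPP : p ∈ PP L y := mem_PP.2 (Or.inr hp)
      obtain ⟨⟨b1, _⟩, hpp, _⟩ := mem_bg.1 hp
      have b2 : ¬ v p < ff L y p := fun h => by
        have := Nat.dvd_gcd hpq (hdv p hPP h)
        rw [h2] at this
        exact hpp.one_lt.ne' (Nat.dvd_one.1 this)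
      have b3 : mu L y F p ≤ ff L y p := by
        unfold mu ff
        rw [if_neg (by omega), if_neg (by omega : ¬ p ≤ L)]
        by_cases h : p ∈ F
        · rw [if_pos h, if_pos (hFb p h).2]
        · rw [if_neg h]
          split_ifs <;> omega
      rw [pow_succ]
      exact Nat.mul_dvd_mul ((pow_dvd_pow p (by omega)).trans
        (Finset.dvd_prod_of_mem (fun p => p ^ v p) hPP)) hpq
    · exact ⟨le_rfl, sep_one _ _⟩
  · intro Q
    have := gc_sum hL hs t1 t2 t3 t5 hσ hok Q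
    linarith

end Pool.Agent.MP_c903c4_nt

end
end

section

/-!
The second moment estimate on one block.
-/

open Finset Filter Topology
open scoped Classical

noncomputable section

namespace Pool.Agent.MP_c903c4_nt

open Pool.Agent.MP_2a1f0e_nt (ex ex_add ex_zero)

theorem Block_count {q₁ e : ℕ} (hc : e.Coprime q₁) (Y H : ℕ) (b : ℤ) :
    ((Ioc Y (Y + H)).filter fun t : ℕ => (e : ℤ) ∣ q₁ * t + b).card ≤ H / e + 1 := by
  rw [← card_range (H / e + 1)]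
  refine card_le_card_of_injOn (fun t => (t - Y) / e) ?_ ?_
  · intro t ht
    simp only [coe_filter, mem_Ioc, Set.mem_setOf_eq] at ht
    simp only [coe_range, Set.mem_Iio]
    have : (t - Y) / e ≤ H / e := Nat.div_le_div_right (by omega)
    omega
  · intro t ht t' ht' h
    simp only [coe_filter, mem_Ioc, Set.mem_setOf_eq] at ht ht'
    simp only at h
    have h1 : (e : ℤ) ∣ (q₁ : ℤ) * ((t : ℤ) - t') := by
      have h0 : (q₁ : ℤ) * ((t : ℤ) - t') = (q₁ * t + b) - (q₁ * t' + b) := by ring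
      rw [h0]
      exact dvd_sub ht.2 ht'.2
    have h2 : (e : ℤ) ∣ (t : ℤ) - t' :=
      (Nat.isCoprime_iff_coprime.2 hc).dvd_of_dvd_mul_left h1
    have h3 : (t' - Y) ≡ (t - Y) [MOD e] := by
      rw [Nat.modEq_iff_dvd]
      have e1 : ((t - Y : ℕ) : ℤ) = t - Y := by omega
      have e2 : ((t' - Y : ℕ) : ℤ) = t' - Y := by omega
      have h0 : (t : ℤ) - Y - (t' - Y) = t - t' := by ring
      rw [e1, e2, h0]
      exact h2
    have h4 := Nat.div_add_mod (t - Y) e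
    have h5 := Nat.div_add_mod (t' - Y) e
    unfold Nat.ModEq at h3
    rw [h, ← h3] at h4
    omega

theorem Block_cop {q₁ e t : ℕ} {b : ℤ} (hb : IsCoprime b (q₁ : ℤ))
    (h : (e : ℤ) ∣ q₁ * t + b) : e.Coprime q₁ := by
  rw [← Nat.isCoprime_iff_coprime]
  have h1 : IsCoprime ((q₁ : ℤ) * t + b) (q₁ : ℤ) := by
    rw [add_comm]
    exact hb.add_mul_left_left _
  exact h1.of_isCoprime_of_dvd_left h

theorem Block_W {q₁ Y H D : ℕ} {b : ℤ} (hb : IsCoprime b (q₁ : ℤ)) (hbH : |b| ≤ H) (hD : 0 < D)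
    (hDH : D ≤ H) (hY : H ≤ q₁ * Y) (hD2 : q₁ * Y - H < (D + 1) ^ 2) :
    ∑ t ∈ Ioc Y (Y + H), (((Ioc D (q₁ * t + b).toNat).filter fun e =>
      e ∣ (q₁ * t + b).toNat ∧ e * D < (q₁ * t + b).toNat).card : ℝ) ≤
        ((q₁ + 4) * H / D) * (2 * H / D) := by
  set M : ℕ := q₁ * (Y + H) + H with hM
  set E : Finset ℕ := (Ioc D (M / D)).filter fun e => e.Coprime q₁ with hE
  have hDr : (0 : ℝ) < D := by exact_mod_cast hD
  have hb1 := abs_le.1 hbH
  have h1 : ∀ t ∈ Ioc Y (Y + H), ((Ioc D (q₁ * t + b).toNat).filter fun e =>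
      e ∣ (q₁ * t + b).toNat ∧ e * D < (q₁ * t + b).toNat).card ≤
        (E.filter fun e : ℕ => (e : ℤ) ∣ q₁ * t + b).card := by
    intro t ht
    refine card_le_card fun e he => ?_
    rw [mem_Ioc] at ht
    simp only [mem_filter, mem_Ioc] at he
    obtain ⟨⟨h2, h3⟩, h4, h5⟩ := he
    have h6 : (0 : ℤ) ≤ q₁ * t + b := by omega
    have h7 : (e : ℤ) ∣ q₁ * t + b := by
      have := Int.natCast_dvd_natCast.2 h4
      rwa [Int.toNat_of_nonneg h6] at this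
    have h8 : q₁ * t ≤ q₁ * (Y + H) := Nat.mul_le_mul_left _ ht.2
    have h9 : (q₁ * t + b).toNat ≤ M := by
      have : ((q₁ * t : ℕ) : ℤ) ≤ ((q₁ * (Y + H) : ℕ) : ℤ) := by exact_mod_cast h8
      rw [Int.toNat_le, hM]
      push_cast at this ⊢
      linarith
    simp only [hE, mem_filter, mem_Ioc]
    refine ⟨⟨⟨h2, ?_⟩, Block_cop hb h7⟩, h7⟩
    rw [Nat.le_div_iff_mul_le hD]
    omega
  have h2 : ∑ t ∈ Ioc Y (Y + H), (E.filter fun e : ℕ => (e : ℤ) ∣ q₁ * t + b).card =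
      ∑ e ∈ E, ((Ioc Y (Y + H)).filter fun t : ℕ => (e : ℤ) ∣ q₁ * t + b).card := by
    simp only [card_filter]
    exact sum_comm
  have h3 : ∀ e ∈ E, (((Ioc Y (Y + H)).filter fun t : ℕ => (e : ℤ) ∣ q₁ * t + b).card : ℝ) ≤
      2 * H / D := by
    intro e he
    simp only [hE, mem_filter, mem_Ioc] at he
    have h4 := Block_count he.2 Y H b
    have h5 : H / e ≤ H / D := Nat.div_le_div_left he.1.1.le hD
    have h6 : ((H / D : ℕ) : ℝ) ≤ (H : ℝ) / D := Nat.cast_div_le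
    have h7 : (1 : ℝ) ≤ (H : ℝ) / D := by
      rw [le_div_iff₀ hDr, one_mul]
      exact_mod_cast hDH
    have h8 : (((Ioc Y (Y + H)).filter fun t : ℕ => (e : ℤ) ∣ q₁ * t + b).card : ℝ) ≤
        ((H / D : ℕ) : ℝ) + 1 := by exact_mod_cast h4.trans (by omega)
    have h9 : (2 : ℝ) * H / D = H / D + H / D := by ring
    linarith
  have h4 : (E.card : ℝ) ≤ (q₁ + 4) * H / D := by
    have h5 : E.card ≤ M / D - D := by
      have := card_filter_le (Ioc D (M / D)) fun e => e.Coprime q₁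
      rwa [Nat.card_Ioc] at this
    have h6 : (M / D - D) * D ≤ (q₁ + 4) * H := by
      have h7 : M / D * D ≤ M := Nat.div_mul_le_self _ _
      rw [Nat.sub_mul]
      have h8 : (D + 1) ^ 2 = D * D + 2 * D + 1 := by ring
      have h9 : M = q₁ * Y + q₁ * H + H := by rw [hM]; ring
      have h10 : (q₁ + 4) * H = q₁ * H + 4 * H := by ring
      omega
    rw [le_div_iff₀ hDr]
    exact_mod_cast (Nat.mul_le_mul_right D h5).trans h6
  calc _ ≤ ((∑ t ∈ Ioc Y (Y + H), (E.filter fun e : ℕ => (e : ℤ) ∣ q₁ * t + b).card : ℕ) : ℝ) := by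
        rw [Nat.cast_sum]
        exact sum_le_sum fun t ht => by exact_mod_cast h1 t ht
    _ = ∑ e ∈ E, (((Ioc Y (Y + H)).filter fun t : ℕ => (e : ℤ) ∣ q₁ * t + b).card : ℝ) := by
        rw [h2, Nat.cast_sum]
    _ ≤ E.card • (2 * H / D : ℝ) := sum_le_card_nsmul _ _ _ h3
    _ ≤ _ := by
        rw [nsmul_eq_mul]
        exact mul_le_mul_of_nonneg_right h4 (by positivity)

/-- The coefficients of the trigonometric polynomial. -/
def Block_u {ι : Type} (q₁ D : ℕ) (S : Finset ι) (b : ι → ℤ) (q r : ℕ) : ℂ :=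
  (((chi q : ℝ) / q * Aco q₁ (D / q) : ℝ) : ℂ) * ∑ s ∈ S, ex ((r : ℝ) * b s / q)

/-- The part of the trigonometric polynomial with denominators in B. -/
def Block_E {ι : Type} (q₁ D : ℕ) (S : Finset ι) (b : ι → ℤ) (B : Finset ℕ) (t : ℕ) : ℂ :=
  ∑ q ∈ B, ∑ r ∈ Red q, Block_u q₁ D S b q r * ex ((r : ℝ) * (q₁ * t) / q)

theorem Block_four {ι : Type} (q₁ D : ℕ) (S : Finset ι) (b : ι → ℤ) (t : ℕ) :
    ((∑ s ∈ S, ∑ d ∈ (Cop q₁ 0 D).filter (fun d : ℕ => (d : ℤ) ∣ q₁ * t + b s), chi d : ℤ) : ℂ) =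
      Block_E q₁ D S b (Cop q₁ 0 D) t := by
  rw [Int.cast_sum]
  simp only [fourier]
  unfold Block_E Block_u
  rw [sum_comm]
  refine sum_congr rfl fun q _ => ?_
  rw [← mul_sum, sum_comm, mul_sum]
  refine sum_congr rfl fun r _ => ?_
  rw [mul_assoc, sum_mul]
  congr 1
  refine sum_congr rfl fun s _ => ?_
  rw [← ex_add]
  congr 1
  push_cast
  ring

theorem Block_split {ι : Type} (q₁ : ℕ) {D Q : ℕ} (hQ : 1 ≤ Q) (hQD : Q ≤ D) (S : Finset ι)
    (b : ι → ℤ) (t : ℕ) :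
    Block_E q₁ D S b (Cop q₁ 0 D) t = ((Aco q₁ D * S.card : ℝ) : ℂ) +
      Block_E q₁ D S b (Cop q₁ 1 Q) t + Block_E q₁ D S b (Cop q₁ Q D) t := by
  have h1 : Cop q₁ 0 D = ({1} ∪ Cop q₁ 1 Q) ∪ Cop q₁ Q D := by
    ext e
    simp only [Cop, mem_filter, mem_Ioc, mem_union, mem_singleton]
    constructor
    · rintro ⟨⟨h2, h3⟩, h4⟩
      by_cases h5 : e = 1
      · exact Or.inl (Or.inl h5)
      by_cases h6 : e ≤ Q
      · exact Or.inl (Or.inr ⟨⟨by omega, h6⟩, h4⟩)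
      · exact Or.inr ⟨⟨by omega, h3⟩, h4⟩
    · rintro ((h2 | ⟨⟨h2, h3⟩, h4⟩) | ⟨⟨h2, h3⟩, h4⟩)
      · subst h2
        exact ⟨⟨by omega, by omega⟩, Nat.coprime_one_left _⟩
      · exact ⟨⟨by omega, by omega⟩, h4⟩
      · exact ⟨⟨by omega, by omega⟩, h4⟩
  have h2 : Disjoint ({1} : Finset ℕ) (Cop q₁ 1 Q) := by
    rw [disjoint_singleton_left]
    simp [Cop]
  have h3 : Disjoint ({1} ∪ Cop q₁ 1 Q) (Cop q₁ Q D) := by
    rw [disjoint_left]
    intro e he he'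
    simp only [Cop, mem_filter, mem_Ioc, mem_union, mem_singleton] at he he'
    omega
  have h4 : Red 1 = {0} := by
    ext r
    simp only [Red, mem_filter, mem_range, mem_singleton]
    constructor
    · intro h
      omega
    · rintro rfl
      exact ⟨by omega, Nat.coprime_one_right _⟩
  unfold Block_E
  rw [h1, sum_union h3, sum_union h2, sum_singleton, h4, sum_singleton]
  congr 2
  simp [Block_u, ex_zero, chi_one]

theorem Block_sq {ι : Type} (q₁ D R Y : ℕ) {H : ℕ} (hH : 1 ≤ H) (S : Finset ι) (b : ι → ℤ)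
    (B : Finset ℕ) (hB : B ⊆ Cop q₁ 0 R) {K : ℝ} (hK : ∀ q ∈ B, |Aco q₁ (D / q)| ≤ K) :
    ∑ t ∈ Ioc Y (Y + H), ‖Block_E q₁ D S b B t‖ ^ 2 ≤
      24 * (2 * H + (R : ℝ) ^ 2) * (K ^ 2 * ∑ q ∈ B, (cc S b q : ℝ) / q) := by
  refine (ls q₁ R Y H hH B hB (Block_u q₁ D S b)).trans ?_
  refine mul_le_mul_of_nonneg_left ?_ (by positivity)
  rw [mul_sum]
  refine sum_le_sum fun q hq => ?_
  have hq0 : 0 < q := by
    have := hB hq
    simp only [Cop, mem_filter, mem_Ioc] at this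
    exact this.1.1
  have hqr : (0 : ℝ) < q := by exact_mod_cast hq0
  have h1 : |(chi q : ℝ) / q * Aco q₁ (D / q)| ≤ K / q := by
    have h2 : |(chi q : ℝ)| ≤ 1 := by exact_mod_cast abs_chi_le q
    rw [abs_mul, abs_div, abs_of_pos hqr]
    calc _ ≤ 1 / q * K := by
          gcongr
          exact hK q hq
      _ = _ := by ring
  have h3 : ∑ r ∈ Red q, ‖Block_u q₁ D S b q r‖ ^ 2 =
      |(chi q : ℝ) / q * Aco q₁ (D / q)| ^ 2 *
        ∑ r ∈ Red q, ‖∑ s ∈ S, ex ((r : ℝ) * b s / q)‖ ^ 2 := by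
    rw [mul_sum]
    refine sum_congr rfl fun r _ => ?_
    unfold Block_u
    rw [norm_mul, mul_pow, Complex.norm_real, Real.norm_eq_abs]
  rw [h3]
  calc _ ≤ (K / q) ^ 2 * (q * (cc S b q : ℝ)) := by
        gcongr
        exact parseval S b hq0
    _ = _ := by field_simp

theorem Block_pt {ι : Type} {q₁ D Q t : ℕ} (h4 : 4 ∣ q₁) (hQ : 1 ≤ Q) (hQD : Q ≤ D) (S : Finset ι)
    (b : ι → ℤ) (hb : ∀ s ∈ S, b s % 4 = 1 ∧ IsCoprime (b s) (q₁ : ℤ))
    (hm : ∀ s ∈ S, ((D ^ 2 : ℕ) : ℤ) < q₁ * t + b s)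
    (h0 : ∀ s ∈ S, rho (q₁ * t + b s).toNat = 0) :
    Aco q₁ D * S.card ≤ ‖Block_E q₁ D S b (Cop q₁ 1 Q) t‖ + ‖Block_E q₁ D S b (Cop q₁ Q D) t‖ +
      (∑ s ∈ S, (((Ioc D (q₁ * t + b s).toNat).filter fun e =>
        e ∣ (q₁ * t + b s).toNat ∧ e * D < (q₁ * t + b s).toNat).card : ℝ)) / 2 := by
  set P : ℤ := ∑ s ∈ S, ∑ d ∈ (Cop q₁ 0 D).filter (fun d : ℕ => (d : ℤ) ∣ q₁ * t + b s), chi d
    with hP
  have h1 : (P : ℂ) = ((Aco q₁ D * S.card : ℝ) : ℂ) +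
      Block_E q₁ D S b (Cop q₁ 1 Q) t + Block_E q₁ D S b (Cop q₁ Q D) t := by
    rw [← Block_split q₁ hQ hQD, hP, Block_four]
  have h2 : ∀ s ∈ S,
      2 * |∑ d ∈ (Cop q₁ 0 D).filter (fun d : ℕ => (d : ℤ) ∣ q₁ * t + b s), chi d| ≤
        (((Ioc D (q₁ * t + b s).toNat).filter fun e =>
          e ∣ (q₁ * t + b s).toNat ∧ e * D < (q₁ * t + b s).toNat).card : ℤ) := by
    intro s hs
    have h3 := hm s hs
    have h5 : (0 : ℤ) ≤ q₁ * t + b s := le_trans (by positivity) h3.le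
    have h6 : (((q₁ * t + b s).toNat : ℕ) : ℤ) = q₁ * t + b s := Int.toNat_of_nonneg h5
    have h7 : (q₁ * t + b s).toNat % 4 = 1 := by
      obtain ⟨c, hc⟩ := h4
      have h8 := (hb s hs).1
      have h9 : (q₁ : ℤ) * t = 4 * (c * t) := by
        rw [hc]
        push_cast
        ring
      rw [h9] at h6 ⊢
      omega
    have h8 : D ^ 2 < (q₁ * t + b s).toNat := by omega
    have h9 := hyper h7 h8
    rw [h0 s hs, zero_sub, abs_neg, abs_mul] at h9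
    have h10 : (Ioc 0 D).filter (fun d => d ∣ (q₁ * t + b s).toNat) =
        (Cop q₁ 0 D).filter (fun d : ℕ => (d : ℤ) ∣ q₁ * t + b s) := by
      ext d
      simp only [Cop, mem_filter]
      rw [← Int.natCast_dvd_natCast, h6]
      exact ⟨fun h => ⟨⟨h.1, Block_cop (hb s hs).2 h.2⟩, h.2⟩, fun h => ⟨h.1.1, h.2⟩⟩
    rw [h10] at h9
    simpa using h9
  have h3 : 2 * |P| ≤ ∑ s ∈ S, (((Ioc D (q₁ * t + b s).toNat).filter fun e =>
      e ∣ (q₁ * t + b s).toNat ∧ e * D < (q₁ * t + b s).toNat).card : ℤ) := by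
    refine le_trans ?_ (sum_le_sum h2)
    rw [← mul_sum]
    exact mul_le_mul_of_nonneg_left (abs_sum_le_sum_abs _ _) (by norm_num)
  have h5 : 2 * |(P : ℝ)| ≤ ∑ s ∈ S, (((Ioc D (q₁ * t + b s).toNat).filter fun e =>
      e ∣ (q₁ * t + b s).toNat ∧ e * D < (q₁ * t + b s).toNat).card : ℝ) := by
    exact_mod_cast h3
  have h6 : ((Aco q₁ D * S.card : ℝ) : ℂ) =
      (P : ℂ) - Block_E q₁ D S b (Cop q₁ 1 Q) t - Block_E q₁ D S b (Cop q₁ Q D) t := by
    rw [h1]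
    ring
  have h7 : ‖((Aco q₁ D * S.card : ℝ) : ℂ)‖ ≤
      ‖(P : ℂ)‖ + ‖Block_E q₁ D S b (Cop q₁ 1 Q) t‖ + ‖Block_E q₁ D S b (Cop q₁ Q D) t‖ := by
    rw [h6]
    exact (norm_sub_le _ _).trans (by gcongr; exact norm_sub_le _ _)
  rw [Complex.norm_real, Real.norm_eq_abs, Complex.norm_intCast] at h7
  have h8 := le_abs_self (Aco q₁ D * S.card)
  linarith

theorem Block_ind {x y w a : ℝ} (ha : 0 < a) (hw : 0 ≤ w)
    (h : a / 2 ≤ x + y + w / 2) : 1 ≤ 36 / a ^ 2 * x ^ 2 + 36 / a ^ 2 * y ^ 2 + 3 / a * w := by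
  have h1 : 0 ≤ 36 / a ^ 2 * x ^ 2 := by positivity
  have h2 : 0 ≤ 36 / a ^ 2 * y ^ 2 := by positivity
  have h3 : 0 ≤ 3 / a * w := by positivity
  have key : ∀ z : ℝ, a / 6 ≤ z → 1 ≤ 36 / a ^ 2 * z ^ 2 := by
    intro z hz
    have h4 : (a / 6) ^ 2 ≤ z ^ 2 := by gcongr
    calc (1 : ℝ) = 36 / a ^ 2 * (a / 6) ^ 2 := by field_simp; norm_num
      _ ≤ _ := by gcongr
  by_cases h4 : a / 6 ≤ x
  · linarith [key x h4]
  by_cases h5 : a / 6 ≤ y
  · linarith [key y h5]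
  have h6 : a / 3 ≤ w := by linarith
  have h7 : (1 : ℝ) ≤ 3 / a * w := by
    calc (1 : ℝ) = 3 / a * (a / 3) := by field_simp
      _ ≤ _ := by gcongr
  linarith

theorem Block_e1 {ι : Type} {q₁ D Q H N₀ : ℕ} (Y : ℕ) {A : ℝ} (hA : 0 < A)
    (hN₀ : ∀ N, N₀ ≤ N → A / 2 ≤ Aco q₁ N ∧ Aco q₁ N ≤ 2 * A) (hH : 1 ≤ H) (hH2 : Q ^ 2 ≤ H)
    (hD5 : Q * (N₀ + 1) ≤ D) (S : Finset ι) (b : ι → ℤ) :
    ∑ t ∈ Ioc Y (Y + H), ‖Block_E q₁ D S b (Cop q₁ 1 Q) t‖ ^ 2 ≤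
      288 * H * A ^ 2 * ∑ q ∈ Cop q₁ 1 Q, (cc S b q : ℝ) / q := by
  have h1 : Cop q₁ 1 Q ⊆ Cop q₁ 0 Q :=
    filter_subset_filter _ (Ioc_subset_Ioc_left (by omega))
  have h2 : ∀ q ∈ Cop q₁ 1 Q, |Aco q₁ (D / q)| ≤ 2 * A := by
    intro q hq'
    simp only [Cop, mem_filter, mem_Ioc] at hq'
    have h3 : N₀ ≤ D / q := by
      rw [Nat.le_div_iff_mul_le (by omega)]
      have : N₀ * q ≤ Q * (N₀ + 1) := by
        rw [mul_comm]
        exact Nat.mul_le_mul hq'.1.2 (Nat.le_succ _)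
      omega
    have h5 := hN₀ _ h3
    rw [abs_le]
    constructor <;> linarith [h5.1, h5.2]
  have h3 := Block_sq q₁ D Q Y hH S b _ h1 h2
  have h5 : (Q : ℝ) ^ 2 ≤ H := by exact_mod_cast hH2
  have h6 : 0 ≤ ∑ q ∈ Cop q₁ 1 Q, (cc S b q : ℝ) / q := sum_nonneg fun q _ => by positivity
  generalize ∑ q ∈ Cop q₁ 1 Q, (cc S b q : ℝ) / q = S₁ at *
  calc _ ≤ _ := h3
    _ ≤ 24 * (2 * H + H) * ((2 * A) ^ 2 * S₁) := by gcongr
    _ = _ := by ring

theorem Block_e2 {ι : Type} {q₁ D H J : ℕ} (Q Y : ℕ) {K : ℝ} (hK : ∀ N, |Aco q₁ N| ≤ K)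
    (hH : 1 ≤ H) (hJ : 1 ≤ J) (hD3 : D ^ 2 ≤ q₁ * J ^ 2 * H) (hD4 : D ≤ H)
    (S : Finset ι) (b : ι → ℤ) :
    ∑ t ∈ Ioc Y (Y + H), ‖Block_E q₁ D S b (Cop q₁ Q D) t‖ ^ 2 ≤
      24 * (2 + q₁) * J ^ 2 * H * K ^ 2 * ∑ q ∈ Cop q₁ Q H, (cc S b q : ℝ) / q := by
  have h1 : Cop q₁ Q D ⊆ Cop q₁ 0 D :=
    filter_subset_filter _ (Ioc_subset_Ioc_left (by omega))
  have h2 : Cop q₁ Q D ⊆ Cop q₁ Q H :=
    filter_subset_filter _ (Ioc_subset_Ioc_right hD4)
  have h3 := Block_sq q₁ D D Y hH S b _ h1 fun q _ => hK (D / q)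
  have h5 : (D : ℝ) ^ 2 ≤ q₁ * J ^ 2 * H := by exact_mod_cast hD3
  have h6 : ∑ q ∈ Cop q₁ Q D, (cc S b q : ℝ) / q ≤ ∑ q ∈ Cop q₁ Q H, (cc S b q : ℝ) / q :=
    sum_le_sum_of_subset_of_nonneg h2 fun q _ _ => by positivity
  have h7 : (H : ℝ) ≤ J ^ 2 * H := by
    have : (1 : ℝ) ≤ J := by exact_mod_cast hJ
    exact le_mul_of_one_le_left (Nat.cast_nonneg _) (one_le_pow₀ this)
  have h8 : 0 ≤ ∑ q ∈ Cop q₁ Q D, (cc S b q : ℝ) / q := sum_nonneg fun q _ => by positivity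
  generalize ∑ q ∈ Cop q₁ Q H, (cc S b q : ℝ) / q = S₂ at *
  generalize ∑ q ∈ Cop q₁ Q D, (cc S b q : ℝ) / q = S₃ at *
  calc _ ≤ _ := h3
    _ ≤ 24 * (2 * (J ^ 2 * H) + q₁ * J ^ 2 * H) * (K ^ 2 * S₂) := by gcongr
    _ = _ := by ring

theorem Block_e3 {q₁ D H J : ℕ} (hJ : 1 ≤ J) (hD : 0 < D) (hD8 : 3 * (J * H) ≤ 4 * D ^ 2) :
    ((q₁ + 4) * H / D : ℝ) * (2 * H / D) ≤ 3 * (q₁ + 4) * H / J := by
  have hJr : (0 : ℝ) < J := by exact_mod_cast hJ
  have hDr : (0 : ℝ) < D := by exact_mod_cast hD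
  have h2 : (3 : ℝ) * (J * H) ≤ 4 * D ^ 2 := by exact_mod_cast hD8
  rw [div_mul_div_comm, div_le_div_iff₀ (by positivity) hJr]
  have h5 : (0 : ℝ) ≤ (D : ℝ) ^ 2 := by positivity
  have h6 : (2 : ℝ) * (J * H) ≤ 3 * D ^ 2 := by linarith
  calc ((q₁ : ℝ) + 4) * H * (2 * H) * J = (q₁ + 4) * H * (2 * (J * H)) := by ring
    _ ≤ (q₁ + 4) * H * (3 * D ^ 2) := by gcongr
    _ = _ := by ring

theorem Block_fin {A L K S₁ S₂ H J q x y w : ℝ} (hA : 0 < A) (hL : 0 < L) (hJ : 0 < J)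
    (hH : 0 ≤ H) (hq : 0 ≤ q) (h1 : 0 ≤ S₁) (h2 : 0 ≤ S₂) (e1 : x ≤ 288 * H * A ^ 2 * S₁)
    (e2 : y ≤ 24 * (2 + q) * J ^ 2 * H * K ^ 2 * S₂) (e3 : w ≤ L * (3 * (q + 4) * H / J)) :
    36 / (A * L) ^ 2 * x + 36 / (A * L) ^ 2 * y + 3 / (A * L) * w ≤
      H * (11000 * S₁ / L ^ 2 +
        (864 * (2 + q) * K ^ 2 / A ^ 2 + 9 * (q + 4) / A) * J ^ 2 * S₂ / L ^ 2 +
          (864 * (2 + q) * K ^ 2 / A ^ 2 + 9 * (q + 4) / A) / J) := by
  have h3 : 0 ≤ 864 * (2 + q) * K ^ 2 / A ^ 2 := by positivity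
  have h4 : 0 ≤ 9 * (q + 4) / A := by positivity
  calc _ ≤ 36 / (A * L) ^ 2 * (288 * H * A ^ 2 * S₁) +
        36 / (A * L) ^ 2 * (24 * (2 + q) * J ^ 2 * H * K ^ 2 * S₂) +
          3 / (A * L) * (L * (3 * (q + 4) * H / J)) := by gcongr
    _ = H * (10368 * S₁ / L ^ 2 + (864 * (2 + q) * K ^ 2 / A ^ 2) * J ^ 2 * S₂ / L ^ 2 +
          (9 * (q + 4) / A) / J) := by
        field_simp
        ring
    _ ≤ _ := by
        gcongr
        · norm_num
        · linarith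
        · linarith

theorem Block_D {q₁ J Q N H Y : ℕ} (hq4 : 4 ≤ q₁) (hJ : 1 ≤ J) (hQ : 1 ≤ Q) (hH1 : q₁ * J ^ 2 ≤ H)
    (hH3 : (Q * (N + 1)) ^ 2 ≤ H) (hY1 : J * H ≤ Y) (hY2 : Y ≤ J ^ 2 * H) :
    ∃ D : ℕ, D ^ 2 + H < q₁ * (Y + 1) ∧ q₁ * Y - H < (D + 1) ^ 2 ∧ D ^ 2 ≤ q₁ * J ^ 2 * H ∧ D ≤ H ∧
      Q * (N + 1) ≤ D ∧ Q ≤ D ∧ N ≤ D ∧ 3 * (J * H) ≤ 4 * D ^ 2 ∧ H ≤ q₁ * Y := by
  obtain ⟨D, hD⟩ : ∃ D, D = Nat.sqrt (q₁ * Y - H) := ⟨_, rfl⟩
  have hHJ : H ≤ J * H := Nat.le_mul_of_pos_left _ hJ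
  have hY3 : 4 * (J * H) ≤ q₁ * Y := Nat.mul_le_mul hq4 hY1
  have hD1 : D ^ 2 ≤ q₁ * Y - H := hD ▸ Nat.sqrt_le' _
  have hD2 : q₁ * Y - H < (D + 1) ^ 2 := hD ▸ Nat.lt_succ_sqrt' _
  have hD3 : D ^ 2 ≤ q₁ * J ^ 2 * H := by
    have : q₁ * Y ≤ q₁ * (J ^ 2 * H) := Nat.mul_le_mul_left _ hY2
    rw [mul_assoc]
    omega
  have hD4 : D ≤ H := by
    have : q₁ * J ^ 2 * H ≤ H * H := Nat.mul_le_mul_right _ hH1
    have h1 : D ^ 2 ≤ H ^ 2 := by rw [sq H]; omega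
    exact (Nat.pow_le_pow_iff_left two_ne_zero).1 h1
  have hD5 : Q * (N + 1) ≤ D := by
    rw [hD, Nat.le_sqrt']
    omega
  have hD6 : Q ≤ D := le_trans (Nat.le_mul_of_pos_right _ (Nat.succ_pos _)) hD5
  have hD7 : N + 1 ≤ D := le_trans (Nat.le_mul_of_pos_left _ hQ) hD5
  have hD8 : 3 * (J * H) ≤ 4 * D ^ 2 := by
    have h1 : (D + 1) ^ 2 ≤ (2 * D) ^ 2 := Nat.pow_le_pow_left (by omega) 2
    have h2 : (2 * D) ^ 2 = 4 * D ^ 2 := by ring
    omega
  refine ⟨D, ?_, hD2, hD3, hD4, hD5, hD6, by omega, hD8, by omega⟩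
  rw [mul_add]
  omega

theorem block {q₁ : ℕ} (h4 : 4 ∣ q₁) (hq : 0 < q₁) : ∃ C : ℝ, 0 < C ∧ ∀ J Q : ℕ, 1 ≤ J → 1 ≤ Q →
    ∀ᶠ H : ℕ in atTop, ∀ Y : ℕ, J * H ≤ Y → Y ≤ J ^ 2 * H →
      ∀ (ι : Type) (S : Finset ι) (b : ι → ℤ), S.Nonempty →
        (∀ s ∈ S, |b s| ≤ H ∧ b s % 4 = 1 ∧ IsCoprime (b s) (q₁ : ℤ)) →
        (((Ioc Y (Y + H)).filter fun t : ℕ => ∀ s ∈ S, rho (q₁ * t + b s).toNat = 0).card : ℝ) ≤
          H * (11000 * (∑ q ∈ Cop q₁ 1 Q, (cc S b q : ℝ) / q) / (S.card : ℝ) ^ 2 +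
            C * (J : ℝ) ^ 2 * (∑ q ∈ Cop q₁ Q H, (cc S b q : ℝ) / q) / (S.card : ℝ) ^ 2 +
              C / J) := by
  obtain ⟨A, hA, hlim⟩ := A_lim hq
  obtain ⟨K, hK⟩ : ∃ K : ℝ, ∀ N, |Aco q₁ N| ≤ K := by
    obtain ⟨K, hK⟩ := hlim.abs.bddAbove_range
    exact ⟨K, fun N => hK ⟨N, rfl⟩⟩
  obtain ⟨N₀, hN₀⟩ : ∃ N₀ : ℕ, ∀ N, N₀ ≤ N → A / 2 ≤ Aco q₁ N ∧ Aco q₁ N ≤ 2 * A := by
    have h1 := hlim.eventually (Icc_mem_nhds (by linarith : A / 2 < A) (by linarith : A < 2 * A))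
    exact eventually_atTop.1 h1
  have hq4 : 4 ≤ q₁ := Nat.le_of_dvd hq h4
  refine ⟨864 * (2 + q₁) * K ^ 2 / A ^ 2 + 9 * (q₁ + 4) / A, by positivity, fun J Q hJ hQ => ?_⟩
  filter_upwards [eventually_ge_atTop (q₁ * J ^ 2), eventually_ge_atTop (Q ^ 2),
    eventually_ge_atTop ((Q * (N₀ + 1)) ^ 2)] with H hH1 hH2 hH3 Y hY1 hY2 ι S b hS hb
  have hH : 1 ≤ H := le_trans (Nat.one_le_pow _ _ hQ) hH2
  obtain ⟨D, hD1, hD2, hD3, hD4, hD5, hD6, hD7, hD8, hD9⟩ := Block_D hq4 hJ hQ hH1 hH3 hY1 hY2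
  have hD0 : 0 < D := lt_of_lt_of_le hQ hD6
  have hL : (0 : ℝ) < S.card := by exact_mod_cast hS.card_pos
  have hJr : (0 : ℝ) < J := by exact_mod_cast hJ
  obtain ⟨W, hW⟩ : ∃ W : ℕ → ℝ, W = fun t : ℕ => ∑ s ∈ S,
      (((Ioc D (q₁ * t + b s).toNat).filter fun e =>
        e ∣ (q₁ * t + b s).toNat ∧ e * D < (q₁ * t + b s).toNat).card : ℝ) := ⟨_, rfl⟩
  have hW0 : ∀ t, 0 ≤ W t := fun t => by
    rw [hW]
    exact sum_nonneg fun s _ => Nat.cast_nonneg _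
  have hAL : 0 < A * S.card := mul_pos hA hL
  have e1 := Block_e1 Y hA hN₀ hH hH2 hD5 S b
  have e2 := Block_e2 Q Y hK hH hJ hD3 hD4 S b
  have e3 : ∑ t ∈ Ioc Y (Y + H), W t ≤ S.card * (3 * (q₁ + 4) * H / J) := by
    rw [hW, sum_comm]
    calc _ ≤ S.card • (3 * (q₁ + 4) * H / J : ℝ) := sum_le_card_nsmul _ _ _ fun s hs =>
          (Block_W (hb s hs).2.2 (hb s hs).1 hD0 hD4 hD9 hD2).trans (Block_e3 hJ hD0 hD8)
      _ = _ := nsmul_eq_mul _ _
  obtain ⟨F, hF⟩ : ∃ F : ℕ → ℝ, F = fun t : ℕ =>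
      36 / (A * S.card) ^ 2 * ‖Block_E q₁ D S b (Cop q₁ 1 Q) t‖ ^ 2 +
        36 / (A * S.card) ^ 2 * ‖Block_E q₁ D S b (Cop q₁ Q D) t‖ ^ 2 + 3 / (A * S.card) * W t :=
    ⟨_, rfl⟩
  have hF0 : ∀ t, 0 ≤ F t := fun t => by
    have := hW0 t
    rw [hF]
    positivity
  have e4 : ∀ t ∈ (Ioc Y (Y + H)).filter fun t : ℕ => ∀ s ∈ S, rho (q₁ * t + b s).toNat = 0,
      (1 : ℝ) ≤ F t := by
    intro t ht
    rw [mem_filter, mem_Ioc] at ht
    have h1 : ∀ s ∈ S, ((D ^ 2 : ℕ) : ℤ) < q₁ * t + b s := by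
      intro s hs
      have h2 := (abs_le.1 (hb s hs).1).1
      have h3 : q₁ * (Y + 1) ≤ q₁ * t := Nat.mul_le_mul_left _ ht.1.1
      have h6 : ((D ^ 2 + H : ℕ) : ℤ) < ((q₁ * t : ℕ) : ℤ) := by exact_mod_cast hD1.trans_le h3
      rw [Nat.cast_add, Nat.cast_mul] at h6
      linarith only [h2, h6]
    have h2 := Block_pt h4 hQ hD6 S b (fun s hs => (hb s hs).2) h1 ht.2
    have h5 : A / 2 * S.card ≤ Aco q₁ D * S.card :=
      mul_le_mul_of_nonneg_right (hN₀ _ hD7).1 hL.le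
    rw [hF]
    refine Block_ind hAL (hW0 t) ?_
    rw [mul_div_right_comm, hW]
    exact h5.trans h2
  have e5 : (((Ioc Y (Y + H)).filter fun t : ℕ =>
      ∀ s ∈ S, rho (q₁ * t + b s).toNat = 0).card : ℝ) ≤ ∑ t ∈ Ioc Y (Y + H), F t := by
    have h1 := card_nsmul_le_sum _ _ _ e4
    rw [nsmul_eq_mul, mul_one] at h1
    exact h1.trans (sum_le_sum_of_subset_of_nonneg (filter_subset _ _) fun t _ _ => hF0 t)
  refine e5.trans ?_
  rw [hF, sum_add_distrib, sum_add_distrib, ← mul_sum, ← mul_sum, ← mul_sum]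
  exact Block_fin hA hL hJr (Nat.cast_nonneg _) (Nat.cast_nonneg _)
    (sum_nonneg fun q _ => by positivity) (sum_nonneg fun q _ => by positivity) e1 e2 e3

end Pool.Agent.MP_c903c4_nt

end
end

section

/-!
Collisions among the sums of a power of three and a power of five.
-/

open Finset Filter Topology
open scoped Classical

noncomputable section

namespace Pool.Agent.MP_c903c4_nt

lemma coll_harm (S : Finset ℕ) {R : ℝ} (hR : 1 ≤ R) (hS : ∀ q ∈ S, 1 ≤ q ∧ (q : ℝ) ≤ R) :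
    ∑ q ∈ S, (1 : ℝ) / q ≤ 1 + Real.log R := by
  have h1 : S ⊆ Icc 1 ⌊R⌋₊ := fun q hq =>
    mem_Icc.2 ⟨(hS q hq).1, Nat.le_floor (hS q hq).2⟩
  have h2 : ∑ q ∈ S, (1 : ℝ) / q ≤ ∑ q ∈ Icc 1 ⌊R⌋₊, (1 : ℝ) / q :=
    sum_le_sum_of_subset_of_nonneg h1 fun q _ _ => by positivity
  have h3 := harmonic_le_one_add_log ⌊R⌋₊
  rw [harmonic_eq_sum_Icc] at h3
  push_cast at h3
  have h4 : (0 : ℝ) < ⌊R⌋₊ := by exact_mod_cast Nat.floor_pos.2 hR
  have h5 := Real.log_le_log h4 (Nat.floor_le (by linarith))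
  simp only [one_div] at h2 ⊢
  linarith

lemma coll_five_le {a b c d : ℕ} (h : (5 : ℤ) ^ a + 5 ^ b = 5 ^ c + 5 ^ d) : a ≤ c ∨ a ≤ d := by
  by_contra hn
  push Not at hn
  have h1 : (5 : ℤ) ^ (c + 1) ≤ 5 ^ a := pow_le_pow_right₀ (by norm_num) hn.1
  have h2 : (5 : ℤ) ^ (d + 1) ≤ 5 ^ a := pow_le_pow_right₀ (by norm_num) hn.2
  have h3 : (0 : ℤ) < 5 ^ a := by positivity
  have h4 : (0 : ℤ) < 5 ^ b := by positivity
  rw [pow_succ] at h1 h2
  linarith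

lemma coll_five_inj {a b : ℕ} (h : (5 : ℤ) ^ a = 5 ^ b) : a = b :=
  pow_right_injective₀ (by norm_num) (by norm_num) h

lemma coll_three_inj {a b : ℕ} (h : (3 : ℤ) ^ a = 3 ^ b) : a = b :=
  pow_right_injective₀ (by norm_num) (by norm_num) h

lemma coll_five {a b c d : ℕ} (h : (5 : ℤ) ^ a + 5 ^ b = 5 ^ c + 5 ^ d) :
    (a = c ∧ b = d) ∨ (a = d ∧ b = c) := by
  have h1 := coll_five_le h
  have h2 := coll_five_le (a := b) (b := a) (c := c) (d := d) (by linarith)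
  have h3 := coll_five_le h.symm
  have h4 := coll_five_le (a := d) (b := c) (c := a) (d := b) (by linarith)
  have k : a = c ∨ a = d ∨ b = c ∨ b = d := by omega
  rcases k with rfl | rfl | rfl | rfl
  · exact Or.inl ⟨rfl, coll_five_inj (by linarith)⟩
  · exact Or.inr ⟨rfl, coll_five_inj (by linarith)⟩
  · exact Or.inr ⟨coll_five_inj (by linarith), rfl⟩
  · exact Or.inl ⟨coll_five_inj (by linarith), rfl⟩

lemma coll_sep {N T l c₀ : ℕ} {g : ℤ}
    (h : ∀ i c : ℕ, 0 < i → i < l → ¬ (N : ℤ) ∣ g ^ c * (g ^ (T * i) - 1)) (hl : 1 ≤ l) {i j : ℕ}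
    (hij : i / l = j / l) (hd : (N : ℤ) ∣ g ^ (c₀ + T * i) - g ^ (c₀ + T * j)) : i = j := by
  wlog hle : j ≤ i generalizing i j
  · exact (this hij.symm (dvd_sub_comm.1 hd) (by omega)).symm
  obtain ⟨k, rfl⟩ := Nat.exists_eq_add_of_le hle
  rcases Nat.eq_zero_or_pos k with rfl | hk
  · rfl
  exfalso
  have hkl : k < l := by
    by_contra hn
    have h1 : (j + l) / l ≤ (j + k) / l := Nat.div_le_div_right (by omega)
    rw [Nat.add_div_right _ hl] at h1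
    omega
  refine h k (c₀ + T * j) hk hkl ?_
  convert hd using 1
  ring

section
variable {G T c₀ d₀ : ℕ} {a : ℤ} {b : ℕ × ℕ → ℤ}

lemma coll_diff (hb : ∀ x : ℕ × ℕ, mm a (c₀ + T * x.1) (d₀ + T * x.2) = G * b x) (x y : ℕ × ℕ) :
    (G : ℤ) * (b x - b y) = (3 ^ (c₀ + T * y.1) - 3 ^ (c₀ + T * x.1)) +
      (5 ^ (d₀ + T * y.2) - 5 ^ (d₀ + T * x.2)) := by
  rw [mul_sub, ← hb, ← hb, mm, mm]
  ring

lemma coll_cc (hb : ∀ x : ℕ × ℕ, mm a (c₀ + T * x.1) (d₀ + T * x.2) = G * b x) {q l : ℕ}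
    (hl : 1 ≤ l) (hs : Sep (G * q) T l) (K : ℕ) :
    cc (range K ×ˢ range K) b q ≤ (K / l + 1) * K ^ 3 := by
  have key : ∀ x x' y : ℕ × ℕ, (q : ℤ) ∣ b x - b y → (q : ℤ) ∣ b x' - b y →
      ((G * q : ℕ) : ℤ) ∣ (3 ^ (c₀ + T * x'.1) - 3 ^ (c₀ + T * x.1)) +
        (5 ^ (d₀ + T * x'.2) - 5 ^ (d₀ + T * x.2)) := by
    intro x x' y h1 h2
    rw [← coll_diff hb, Nat.cast_mul]
    refine mul_dvd_mul_left _ ?_
    have := dvd_sub h1 h2
    rwa [sub_sub_sub_cancel_right] at this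
  have hc : (range (K / l + 1) ×ˢ range K ×ˢ range K ×ˢ range K).card = (K / l + 1) * K ^ 3 := by
    simp only [card_product, card_range]
    ring
  rw [← hc, cc]
  obtain ⟨g, hg | hg, h⟩ := hs
  · subst hg
    refine card_le_card_of_injOn (fun z => (z.1.1 / l, z.1.2, z.2)) ?_ ?_
    · intro z hz
      simp only [coe_filter, mem_product, mem_range, Set.mem_ofPred_eq] at hz
      simp only [coe_product, coe_range, Set.mem_prod, Set.mem_Iio]
      exact ⟨Nat.lt_succ_of_le (Nat.div_le_div_right hz.1.1.1.le), hz.1.1.2, hz.1.2.1, hz.1.2.2⟩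
    · rintro ⟨⟨i, j⟩, y⟩ hz ⟨⟨i', j'⟩, y'⟩ hz' e
      simp only [coe_filter, Set.mem_ofPred_eq] at hz hz'
      simp only [Prod.mk.injEq] at e
      obtain ⟨e1, rfl, rfl⟩ := e
      have := key _ _ _ hz.2 hz'.2
      simp only [sub_self, add_zero] at this
      rw [coll_sep h hl e1.symm this]
  · subst hg
    refine card_le_card_of_injOn (fun z => (z.1.2 / l, z.1.1, z.2)) ?_ ?_
    · intro z hz
      simp only [coe_filter, mem_product, mem_range, Set.mem_ofPred_eq] at hz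
      simp only [coe_product, coe_range, Set.mem_prod, Set.mem_Iio]
      exact ⟨Nat.lt_succ_of_le (Nat.div_le_div_right hz.1.1.2.le), hz.1.1.1, hz.1.2.1, hz.1.2.2⟩
    · rintro ⟨⟨i, j⟩, y⟩ hz ⟨⟨i', j'⟩, y'⟩ hz' e
      simp only [coe_filter, Set.mem_ofPred_eq] at hz hz'
      simp only [Prod.mk.injEq] at e
      obtain ⟨e1, rfl, rfl⟩ := e
      have := key _ _ _ hz.2 hz'.2
      simp only [sub_self, zero_add] at this
      rw [coll_sep h hl e1.symm this]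

lemma coll_eq (hT : 0 < T) (hb : ∀ x : ℕ × ℕ, mm a (c₀ + T * x.1) (d₀ + T * x.2) = G * b x)
    (K : ℕ) : (((range K ×ˢ range K) ×ˢ (range K ×ˢ range K)).filter
      fun z => b z.1 - b z.2 = 0).card ≤ 2 * K ^ 2 := by
  have hc : ((univ : Finset Bool) ×ˢ range K ×ˢ range K).card = 2 * K ^ 2 := by
    simp only [card_product, card_range, card_univ, Fintype.card_bool]
    ring
  have canc : ∀ {c i j : ℕ}, c + T * i = c + T * j → i = j := fun h =>
    Nat.eq_of_mul_eq_mul_left hT (Nat.add_left_cancel h)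
  rw [← hc]
  refine card_le_card_of_injOn
    (fun z => if z.1.1 = z.2.1 then (true, z.1) else (false, z.1.1, z.2.1)) ?_ ?_
  · intro z hz
    simp only [coe_filter, mem_product, mem_range, Set.mem_ofPred_eq] at hz
    simp only [coe_product, coe_range, Set.mem_prod, Set.mem_Iio, coe_univ, Set.mem_univ, true_and]
    split_ifs
    · exact hz.1.1
    · exact ⟨hz.1.1.1, hz.1.2.1⟩
  · rintro ⟨⟨i, j⟩, u, v⟩ hz ⟨⟨i', j'⟩, u', v'⟩ hz' e
    simp only [coe_filter, Set.mem_ofPred_eq] at hz hz'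
    have h1 := coll_diff hb (i, j) (u, v)
    have h2 := coll_diff hb (i', j') (u', v')
    rw [hz.2, mul_zero] at h1
    rw [hz'.2, mul_zero] at h2
    simp only at h1 h2 e
    split_ifs at e with k1 k2 k2
    · simp only [Prod.mk.injEq, true_and] at e
      obtain ⟨rfl, rfl⟩ := e
      subst k1
      subst k2
      have e1 : v = j := canc (coll_five_inj (by linarith))
      have e2 : v' = j := canc (coll_five_inj (by linarith))
      rw [e1, e2]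
    · simp at e
    · simp at e
    · simp only [Prod.mk.injEq, true_and] at e
      obtain ⟨rfl, rfl⟩ := e
      rcases coll_five (a := d₀ + T * v) (b := d₀ + T * j') (c := d₀ + T * v') (d := d₀ + T * j)
        (by linarith) with ⟨e1, e2⟩ | ⟨e1, -⟩
      · rw [canc e1, canc e2]
      · rw [e1] at h1
        exact absurd (canc (coll_three_inj (by linarith))) k1

lemma coll_size (hG : 0 < G) (hb : ∀ x : ℕ × ℕ, mm a (c₀ + T * x.1) (d₀ + T * x.2) = G * b x)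
    {K : ℕ} {x y : ℕ × ℕ} (hx : x ∈ range K ×ˢ range K) (hy : y ∈ range K ×ˢ range K) :
    (b x - b y).natAbs ≤ 5 ^ (c₀ + d₀ + 1 + T * K) := by
  simp only [mem_product, mem_range] at hx hy
  have h3 : ∀ i, i < K → (0 : ℤ) < 3 ^ (c₀ + T * i) ∧
      (3 : ℤ) ^ (c₀ + T * i) ≤ 5 ^ (c₀ + d₀ + T * K) := fun i hi =>
    ⟨by positivity, (pow_le_pow_left₀ (by norm_num) (by norm_num) _).trans
      (pow_le_pow_right₀ (by norm_num) (by have := Nat.mul_le_mul_left T hi.le; omega))⟩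
  have h5 : ∀ i, i < K → (0 : ℤ) < 5 ^ (d₀ + T * i) ∧
      (5 : ℤ) ^ (d₀ + T * i) ≤ 5 ^ (c₀ + d₀ + T * K) := fun i hi =>
    ⟨by positivity,
      pow_le_pow_right₀ (by norm_num) (by have := Nat.mul_le_mul_left T hi.le; omega)⟩
  have h := coll_diff hb x y
  have e : (5 : ℤ) ^ (c₀ + d₀ + 1 + T * K) = 5 * 5 ^ (c₀ + d₀ + T * K) := by ring
  have hG' : (1 : ℤ) ≤ G := by exact_mod_cast hG
  have k : |(G : ℤ) * (b x - b y)| ≤ 5 ^ (c₀ + d₀ + 1 + T * K) := by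
    rw [h, e, abs_le]
    have := h3 _ hx.1
    have := h3 _ hy.1
    have := h5 _ hx.2
    have := h5 _ hy.2
    constructor <;> linarith
  rw [abs_mul, abs_of_pos (by linarith)] at k
  have k2 := mul_le_mul_of_nonneg_right hG' (abs_nonneg (b x - b y))
  zify
  linarith

end

lemma coll_swap {ι : Type} (P : Finset ι) (b : ι → ℤ) (S : Finset ℕ) :
    ∑ q ∈ S, (cc P b q : ℝ) / q =
      ∑ z ∈ P ×ˢ P, ∑ q ∈ S.filter (fun q : ℕ => (q : ℤ) ∣ b z.1 - b z.2), (1 : ℝ) / q := by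
  simp only [cc, card_filter, sum_filter]
  rw [sum_comm]
  refine sum_congr rfl fun q _ => ?_
  push_cast
  rw [sum_div]
  refine sum_congr rfl fun z _ => ?_
  split_ifs <;> simp

lemma coll_div {h : ℤ} (h0 : h ≠ 0) (S : Finset ℕ) {R : ℝ} (hR : 0 < R)
    (hS : ∀ q ∈ S, R ≤ q) :
    ∑ q ∈ S.filter (fun q : ℕ => (q : ℤ) ∣ h), (1 : ℝ) / q ≤ h.natAbs.divisors.card / R := by
  have h1 : S.filter (fun q : ℕ => (q : ℤ) ∣ h) ⊆ h.natAbs.divisors := fun q hq =>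
    Nat.mem_divisors.2 ⟨Int.natCast_dvd.1 (mem_filter.1 hq).2, Int.natAbs_ne_zero.2 h0⟩
  have h2 := sum_le_card_nsmul (S.filter (fun q : ℕ => (q : ℤ) ∣ h)) (fun q => (1 : ℝ) / q) (1 / R)
    fun q hq => one_div_le_one_div_of_le hR (hS q (mem_filter.1 hq).1)
  refine h2.trans ?_
  rw [nsmul_eq_mul, mul_one_div]
  exact div_le_div_of_nonneg_right (by exact_mod_cast card_le_card h1) hR.le

theorem coll {G q₁ T c₀ d₀ : ℕ} {a : ℤ} {lam : ℕ → ℕ} (hG : 0 < G) (hT : 0 < T) (b : ℕ × ℕ → ℤ)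
    (hb : ∀ x : ℕ × ℕ, mm a (c₀ + T * x.1) (d₀ + T * x.2) = G * b x)
    (hl : ∀ q : ℕ, 1 < q → q.Coprime q₁ → 1 ≤ lam q ∧ Sep (G * q) T (lam q)) {δ : ℝ} (hδ : 0 < δ) :
    ∀ᶠ K : ℕ in atTop, ∀ Q H : ℕ, 1 ≤ Q → H ≤ 25 ^ (T * (K + 1)) →
      ∑ q ∈ Cop q₁ Q H, (cc (range K ×ˢ range K) b q : ℝ) / q ≤
        (K : ℝ) ^ 4 * (∑ q ∈ Cop q₁ Q H, (1 : ℝ) / (q * lam q) + δ) := by
  have hT' : (1 : ℝ) ≤ T := by exact_mod_cast hT
  obtain ⟨θ, hθ0, hθ⟩ : ∃ θ : ℝ, 0 < θ ∧ θ * T = δ / 12 :=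
    ⟨δ / 12 / T, by positivity, by field_simp⟩
  obtain ⟨C, hC1, hC⟩ := Pool.Agent.MP_2a1f0e_nt.divisor_bound hθ0
  have hl5 : Real.log 5 ≤ 2 := by
    have h1 : Real.log 5 = Real.log 2 + Real.log 2 + Real.log (5 / 4) := by
      rw [← Real.log_mul (by norm_num) (by norm_num), ← Real.log_mul (by norm_num) (by norm_num)]
      norm_num
    have h2 := Real.log_two_lt_d9
    have h3 := Real.log_le_sub_one_of_pos (x := 5 / 4) (by norm_num)
    linarith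
  have hl50 : 0 ≤ Real.log 5 := Real.log_nonneg (by norm_num)
  obtain ⟨D, hD1, hDδ⟩ : ∃ D : ℝ, 1 ≤ D ∧ 3 ≤ D * δ := by
    refine ⟨3 / δ + 1, by have : 0 < 3 / δ := by positivity
                          linarith, ?_⟩
    rw [add_mul, div_mul_cancel₀ _ hδ.ne']
    linarith
  filter_upwards [eventually_ge_atTop 1,
    (tendsto_natCast_atTop_atTop (R := ℝ)).eventually_ge_atTop (6 * (1 + 8 * T) / δ),
    (tendsto_natCast_atTop_atTop (R := ℝ)).eventually_ge_atTop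
      (6 * (1 + Real.log (C * D) + θ * ((c₀ + d₀ + 1) * 2)) / δ)] with K hK1 hK2 hK3 Q H hQ hH
  have hK : (1 : ℝ) ≤ K := by exact_mod_cast hK1
  rw [div_le_iff₀ hδ] at hK2 hK3
  obtain ⟨B, hB⟩ : ∃ B : ℝ, B = ((5 : ℝ) ^ (c₀ + d₀ + 1 + T * K)) ^ θ := ⟨_, rfl⟩
  have hB1 : 1 ≤ B := by
    rw [hB]
    exact Real.one_le_rpow (one_le_pow₀ (by norm_num)) hθ0.le
  have hCD : 1 ≤ C * D := one_le_mul_of_one_le_of_one_le hC1 hD1
  have hR1 : 1 ≤ C * D * B := one_le_mul_of_one_le_of_one_le hCD hB1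
  have hlogR : 1 + Real.log (C * D * B) ≤ δ / 3 * K := by
    rw [Real.log_mul (by linarith) (by linarith), hB, Real.log_rpow (by positivity), Real.log_pow]
    push_cast
    have h1 : θ * ((c₀ + d₀ + 1 + T * K) * Real.log 5) ≤ θ * ((c₀ + d₀ + 1 + T * K) * 2) :=
      mul_le_mul_of_nonneg_left (mul_le_mul_of_nonneg_left hl5 (by positivity)) hθ0.le
    have h2 : θ * ((c₀ + d₀ + 1 + T * K) * 2) = θ * ((c₀ + d₀ + 1) * 2) + θ * T * K * 2 := by ring
    rw [hθ] at h2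
    linarith
  have hmem : ∀ q ∈ Cop q₁ Q H, 1 < q ∧ q ≤ H ∧ q.Coprime q₁ := fun q hq => by
    simp only [Cop, mem_filter, mem_Ioc] at hq
    exact ⟨by omega, hq.1.2, hq.2⟩
  rw [← sum_filter_add_sum_filter_not (Cop q₁ Q H) (fun q : ℕ => (q : ℝ) ≤ C * D * B)]
  have hA : ∑ q ∈ (Cop q₁ Q H).filter (fun q : ℕ => (q : ℝ) ≤ C * D * B),
      (cc (range K ×ˢ range K) b q : ℝ) / q ≤
      (K : ℝ) ^ 4 * ∑ q ∈ Cop q₁ Q H, (1 : ℝ) / (q * lam q) + (K : ℝ) ^ 3 * (δ / 3 * K) := by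
    have h1 : ∀ q ∈ (Cop q₁ Q H).filter (fun q : ℕ => (q : ℝ) ≤ C * D * B),
        (cc (range K ×ˢ range K) b q : ℝ) / q ≤
          (K : ℝ) ^ 4 * (1 / (q * lam q)) + (K : ℝ) ^ 3 * (1 / q) := by
      intro q hq
      obtain ⟨k1, -, k3⟩ := hmem q (mem_filter.1 hq).1
      obtain ⟨k4, k5⟩ := hl q k1 k3
      have k6 : (cc (range K ×ˢ range K) b q : ℝ) ≤ ((K / lam q : ℕ) + 1) * (K : ℝ) ^ 3 := by
        exact_mod_cast coll_cc hb k4 k5 K
      have k7 : ((K / lam q : ℕ) : ℝ) ≤ K / lam q := Nat.cast_div_le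
      have hq0 : (0 : ℝ) < q := by exact_mod_cast (by omega : 0 < q)
      have hl0 : (0 : ℝ) < lam q := by exact_mod_cast k4
      have k8 : (cc (range K ×ˢ range K) b q : ℝ) ≤ (K / lam q + 1) * (K : ℝ) ^ 3 :=
        k6.trans (mul_le_mul_of_nonneg_right (by linarith) (by positivity))
      refine (div_le_div_of_nonneg_right k8 hq0.le).trans (le_of_eq ?_)
      field_simp
    refine (sum_le_sum h1).trans ?_
    rw [sum_add_distrib, ← mul_sum, ← mul_sum]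
    refine add_le_add (mul_le_mul_of_nonneg_left ?_ (by positivity))
      (mul_le_mul_of_nonneg_left ?_ (by positivity))
    · exact sum_le_sum_of_subset_of_nonneg (filter_subset _ _) fun q _ _ => by positivity
    · exact (coll_harm _ hR1 fun q hq =>
        ⟨(hmem q (mem_filter.1 hq).1).1.le, (mem_filter.1 hq).2⟩).trans hlogR
  have hBig : ∑ q ∈ (Cop q₁ Q H).filter (fun q : ℕ => ¬ (q : ℝ) ≤ C * D * B),
      (cc (range K ×ˢ range K) b q : ℝ) / q ≤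
      2 * (K : ℝ) ^ 2 * ((1 + 8 * T) * K) + (K : ℝ) ^ 4 * (δ / 3) := by
    rw [coll_swap, ← sum_filter_add_sum_filter_not _ (fun z : (ℕ × ℕ) × ℕ × ℕ => b z.1 - b z.2 = 0)]
    refine add_le_add ?_ ?_
    · refine (sum_le_card_nsmul _ _ ((1 + 8 * T) * (K : ℝ)) fun z _ => ?_).trans ?_
      · refine (coll_harm _ (R := 25 ^ (T * (K + 1))) (one_le_pow₀ (by norm_num))
          fun q hq => ?_).trans ?_
        · obtain ⟨k1, k2, -⟩ := hmem q (mem_filter.1 (mem_filter.1 hq).1).1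
          exact ⟨k1.le, by exact_mod_cast k2.trans hH⟩
        · have e : Real.log 25 = 2 * Real.log 5 := by
            rw [show (25 : ℝ) = 5 ^ 2 by norm_num, Real.log_pow]
            norm_num
          rw [Real.log_pow, e]
          push_cast
          have h1 : (T : ℝ) * (K + 1) * (2 * Real.log 5) ≤ T * (K + K) * 4 :=
            mul_le_mul (mul_le_mul_of_nonneg_left (by linarith) (by linarith)) (by linarith)
              (by linarith) (by positivity)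
          linarith
      · rw [nsmul_eq_mul]
        exact mul_le_mul_of_nonneg_right (by exact_mod_cast coll_eq hT hb K) (by positivity)
    · refine (sum_le_card_nsmul _ _ (δ / 3) fun z hz => ?_).trans ?_
      · obtain ⟨k1, k2⟩ := mem_filter.1 hz
        obtain ⟨k3, k4⟩ := mem_product.1 k1
        refine (coll_div k2 _ (R := C * D * B) (by linarith) fun q hq =>
          (not_le.1 (mem_filter.1 hq).2).le).trans ?_
        have k5 : (((b z.1 - b z.2).natAbs : ℕ) : ℝ) ≤ (5 : ℝ) ^ (c₀ + d₀ + 1 + T * K) := by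
          exact_mod_cast coll_size hG hb k3 k4
        have k6 := Real.rpow_le_rpow (Nat.cast_nonneg _) k5 hθ0.le
        rw [← hB] at k6
        have k7 := (hC _).trans (mul_le_mul_of_nonneg_left k6 (by linarith : 0 ≤ C))
        rw [div_le_iff₀ (by linarith)]
        have k8 := mul_le_mul_of_nonneg_left hDδ (by positivity : 0 ≤ C * B)
        linarith
      · rw [nsmul_eq_mul]
        refine mul_le_mul_of_nonneg_right ?_ (by positivity)
        have := card_filter_le ((range K ×ˢ range K) ×ˢ (range K ×ˢ range K))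
          fun z => ¬ b z.1 - b z.2 = 0
        simp only [card_product, card_range] at this
        have h2 : K * K * (K * K) = K ^ 4 := by ring
        rw [h2] at this
        exact_mod_cast this
  have hK3' := mul_le_mul_of_nonneg_left hK2 (by positivity : 0 ≤ (K : ℝ) ^ 3)
  linarith

end Pool.Agent.MP_c903c4_nt

end
end

section

/-!
Almost all integers of a good progression are representable.
-/

open Finset Filter Topology
open scoped Classical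

noncomputable section

namespace Pool.Agent.MP_c903c4_nt

/-- The tails of a bounded series of nonnegative terms are small. -/
theorem AP_tail (q₁ : ℕ) (f : ℕ → ℝ) (hf : ∀ q, 0 ≤ f q) {ε η : ℝ} (hη : 0 < η)
    (h : ∀ Q : ℕ, ∑ q ∈ Cop q₁ 1 Q, f q ≤ ε) :
    ∃ Q : ℕ, 1 ≤ Q ∧ ∀ H : ℕ, ∑ q ∈ Cop q₁ Q H, f q ≤ η := by
  have hb : BddAbove (Set.range fun Q : ℕ => ∑ q ∈ Cop q₁ 1 (Q + 1), f q) :=
    ⟨ε, by rintro _ ⟨Q, rfl⟩; exact h _⟩
  obtain ⟨Q, hQ⟩ := exists_lt_of_lt_ciSup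
    (sub_lt_self (⨆ Q : ℕ, ∑ q ∈ Cop q₁ 1 (Q + 1), f q) hη)
  refine ⟨Q + 1, by omega, fun H => ?_⟩
  have h1 : ∑ q ∈ Cop q₁ 1 (Q + H + 1), f q ≤ ⨆ Q : ℕ, ∑ q ∈ Cop q₁ 1 (Q + 1), f q :=
    le_ciSup hb (Q + H)
  have h2 : Disjoint (Cop q₁ 1 (Q + 1)) (Cop q₁ (Q + 1) H) := by
    rw [Finset.disjoint_left]
    intro x hx hy
    simp only [Cop, mem_filter, mem_Ioc] at hx hy
    omega
  have h3 : Cop q₁ 1 (Q + 1) ∪ Cop q₁ (Q + 1) H ⊆ Cop q₁ 1 (Q + H + 1) := by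
    intro x hx
    simp only [Cop, mem_union, mem_filter, mem_Ioc] at hx ⊢
    rcases hx with hx | hx
    · exact ⟨by omega, hx.2⟩
    · exact ⟨by omega, hx.2⟩
  have h4 := Finset.sum_le_sum_of_subset_of_nonneg h3 fun q _ _ => hf q
  rw [Finset.sum_union h2] at h4
  linarith

/-- A nonzero count of representations gives a representation of the original integer. -/
theorem AP_rep {G q₁ a t c d u v : ℕ} {b : ℤ} (hG : G = u ^ 2 + v ^ 2) (hb : mm a c d = G * b)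
    (h : rho (q₁ * t + b).toNat ≠ 0) : Rep (a + G * q₁ * t) := by
  obtain ⟨x, y, hxy⟩ := sumsq_of_rho h
  have h0 : (q₁ * t + b : ℤ).toNat ≠ 0 := by
    intro h0
    rw [h0] at h
    exact h (by simp [rho])
  have h1 : ((q₁ * t + b : ℤ).toNat : ℤ) = q₁ * t + b := Int.toNat_of_nonneg (by omega)
  obtain ⟨r, s, hrs⟩ := Nat.sq_add_sq_mul hG hxy
  refine ⟨r, s, c, d, ?_⟩
  have h2 : ((G * (q₁ * t + b : ℤ).toNat : ℕ) : ℤ) = ((r ^ 2 + s ^ 2 : ℕ) : ℤ) := by rw [hrs]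
  unfold mm at hb
  push_cast at h2
  rw [h1] at h2
  have h3 : ((a + G * q₁ * t : ℕ) : ℤ) = ((r ^ 2 + s ^ 2 + 3 ^ c + 5 ^ d : ℕ) : ℤ) := by
    push_cast
    linear_combination hb + h2
  exact_mod_cast h3

/-- The size of the quotients. -/
theorem AP_size {G a T c₀ d₀ K i j : ℕ} {b : ℤ} (hG : 0 < G)
    (hb : mm a (c₀ + T * i) (d₀ + T * j) = G * b) (hi : i < K) (hj : j < K)
    (hK : a + 3 ^ c₀ + 5 ^ d₀ ≤ 5 ^ (T * K)) : |b| ≤ ((25 ^ T) ^ K : ℕ) := by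
  have h1 : |b| ≤ |(G : ℤ) * b| := by
    rw [abs_mul]
    refine le_mul_of_one_le_left (abs_nonneg _) ?_
    rw [abs_of_nonneg (by positivity)]
    exact_mod_cast hG
  have h3 : 3 ^ (c₀ + T * i) ≤ 3 ^ c₀ * 5 ^ (T * K) := by
    rw [pow_add]
    refine Nat.mul_le_mul_left _ ((Nat.pow_le_pow_left (by norm_num) _).trans
      (Nat.pow_le_pow_right (by norm_num) (Nat.mul_le_mul_left _ hi.le)))
  have h5 : 5 ^ (d₀ + T * j) ≤ 5 ^ d₀ * 5 ^ (T * K) := by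
    rw [pow_add]
    exact Nat.mul_le_mul_left _ (Nat.pow_le_pow_right (by norm_num) (Nat.mul_le_mul_left _ hj.le))
  have ha : a ≤ a * 5 ^ (T * K) := Nat.le_mul_of_pos_right _ (by positivity)
  have h6 : a + 3 ^ (c₀ + T * i) + 5 ^ (d₀ + T * j) ≤ (25 ^ T) ^ K := by
    calc a + 3 ^ (c₀ + T * i) + 5 ^ (d₀ + T * j)
        ≤ (a + 3 ^ c₀ + 5 ^ d₀) * 5 ^ (T * K) := by rw [add_mul, add_mul]; omega
      _ ≤ 5 ^ (T * K) * 5 ^ (T * K) := Nat.mul_le_mul_right _ hK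
      _ = (25 ^ T) ^ K := by rw [← mul_pow, ← pow_mul]; rfl
  refine h1.trans ?_
  rw [← hb]
  refine le_trans ?_ (Int.ofNat_le.mpr h6)
  unfold mm
  push_cast
  have p3 : (0 : ℤ) ≤ 3 ^ (c₀ + T * i) := by positivity
  have p5 : (0 : ℤ) ≤ 5 ^ (d₀ + T * j) := by positivity
  have pa : (0 : ℤ) ≤ a := by positivity
  rw [abs_le]
  constructor <;> linarith

/-- Covering an initial segment by blocks. -/
theorem AP_cover (P : ℕ → Prop) [DecidablePred P] {J H X : ℕ} (hH : 0 < H) (hX : X ≤ J ^ 2 * H) {B : ℝ}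
    (hB : 0 ≤ B) (h : ∀ i : ℕ, J ≤ i → i < J ^ 2 →
      (((Ioc (i * H) (i * H + H)).filter P).card : ℝ) ≤ B) :
    (((range X).filter P).card : ℝ) ≤ J * H + 1 + (J : ℝ) ^ 2 * B := by
  have hs : (range X).filter P ⊆ range (J * H + 1) ∪
      (Ico J (J ^ 2)).biUnion fun i => (Ioc (i * H) (i * H + H)).filter P := by
    intro t ht
    simp only [mem_filter, mem_range, mem_union, mem_biUnion, mem_Ico, mem_Ioc] at ht ⊢
    by_cases h1 : t < J * H + 1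
    · exact Or.inl h1
    · refine Or.inr ⟨(t - 1) / H, ⟨(Nat.le_div_iff_mul_le hH).mpr (by omega),
        (Nat.div_lt_iff_lt_mul hH).mpr (by omega)⟩, ⟨?_, ?_⟩, ht.2⟩
      · have := Nat.div_mul_le_self (t - 1) H
        omega
      · have := Nat.lt_div_mul_add (a := t - 1) hH
        omega
  have h1 := (card_le_card hs).trans ((card_union_le _ _).trans
    (Nat.add_le_add_left card_biUnion_le _))
  rw [card_range] at h1
  have h2 : (((range X).filter P).card : ℝ) ≤ J * H + 1 +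
      ∑ i ∈ Ico J (J ^ 2), (((Ioc (i * H) (i * H + H)).filter P).card : ℝ) := by
    exact_mod_cast h1
  refine h2.trans (add_le_add le_rfl ?_)
  refine (Finset.sum_le_card_nsmul _ _ B fun i hi =>
    h i (mem_Ico.mp hi).1 (mem_Ico.mp hi).2).trans ?_
  rw [nsmul_eq_mul, Nat.card_Ico]
  refine mul_le_mul_of_nonneg_right ?_ hB
  exact_mod_cast Nat.sub_le _ _

theorem AP_log {b : ℕ} (hb : 1 < b) : Tendsto (Nat.log b) atTop atTop :=
  tendsto_atTop.mpr fun k => (eventually_ge_atTop (b ^ k)).mono fun _ h =>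
    Nat.le_log_of_pow_le hb h

/-- The estimate on every block. -/
theorem AP_block {ε : ℝ} (hε : 0 < ε) {q₀ a : ℕ} (hq : 0 < q₀) (h : Data ε q₀ a) :
    ∃ J : ℕ, 1 ≤ J ∧ 1 ≤ ε * J ∧ ∀ᶠ H : ℕ in atTop, ∀ Y : ℕ, J * H ≤ Y → Y ≤ J ^ 2 * H →
      (((Ioc Y (Y + H)).filter fun t : ℕ => ¬ Rep (a + q₀ * t)).card : ℝ) ≤ H * (11113 * ε) := by
  obtain ⟨G, q₁, T, c₀, d₀, lam, hG, h4, hT, ⟨u, v, huv⟩, hb, hl, hs⟩ := h
  have hG0 : 0 < G := Nat.pos_of_mul_pos_right (hG ▸ hq)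
  have hq1 : 0 < q₁ := Nat.pos_of_mul_pos_left (hG ▸ hq)
  choose b' hb1 hb2 hb3 using hb
  obtain ⟨C, hC, hblock⟩ := block h4 hq1
  obtain ⟨J, hJ⟩ := exists_nat_ge ((C + 1) / ε)
  rw [div_le_iff₀ hε] at hJ
  have hJ0 : (0 : ℝ) < J := by
    by_contra h0
    have := mul_nonpos_of_nonpos_of_nonneg (not_lt.mp h0) hε.le
    linarith
  have hJ1 : 1 ≤ J := by exact_mod_cast hJ0
  have hη : 0 < ε / (C * (J : ℝ) ^ 2) := by positivity
  obtain ⟨Q, hQ1, hQ⟩ := AP_tail q₁ (fun q => (1 : ℝ) / (q * lam q)) (fun q => by positivity) hη hs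
  have hδ : 0 < min (ε / 100) (ε / (C * (J : ℝ) ^ 2)) := lt_min (by positivity) hη
  have h25 : 1 < 25 ^ T := Nat.one_lt_pow hT.ne' (by norm_num)
  have hcoll := coll (a := (a : ℤ)) hG0 hT (fun x => b' x.1 x.2) (fun x => hb1 x.1 x.2) hl hδ
  have hK1 : ∀ᶠ K : ℕ in atTop, a + 3 ^ c₀ + 5 ^ d₀ ≤ 5 ^ (T * K) ∧ 1 ≤ K := by
    refine (eventually_ge_atTop (a + 3 ^ c₀ + 5 ^ d₀ + 1)).mono fun K hK =>
      ⟨?_, le_trans (Nat.le_add_left 1 _) hK⟩
    have h1 : K ≤ T * K := Nat.le_mul_of_pos_left _ hT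
    have h2 : T * K < 5 ^ (T * K) := Nat.lt_pow_self (by norm_num)
    exact ((Nat.le_of_succ_le hK).trans h1).trans h2.le
  refine ⟨J, hJ1, by linarith, ?_⟩
  filter_upwards [hblock J Q hJ1 hQ1, (AP_log h25).eventually (hcoll.and hK1),
    eventually_ge_atTop Q] with H h1 h2 h3 Y hY1 hY2
  obtain ⟨h2, hK, hK0⟩ := h2
  have hlo : (25 ^ T) ^ Nat.log (25 ^ T) H ≤ H := Nat.pow_log_le_self _ (by omega)
  have hhi : H ≤ 25 ^ (T * (Nat.log (25 ^ T) H + 1)) := by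
    rw [pow_mul]
    exact (Nat.lt_pow_succ_log_self h25 H).le
  generalize Nat.log (25 ^ T) H = K at h2 hK hK0 hlo hhi
  have hne : (range K ×ˢ range K).Nonempty :=
    ⟨(0, 0), by simp only [mem_product, mem_range]; omega⟩
  have h5 := h1 Y hY1 hY2 (ℕ × ℕ) (range K ×ˢ range K) (fun x => b' x.1 x.2) hne fun s hs' => by
    simp only [mem_product, mem_range] at hs'
    exact ⟨(AP_size hG0 (hb1 s.1 s.2) hs'.1 hs'.2 hK).trans (Int.ofNat_le.mpr hlo), hb2 _ _,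
      hb3 _ _⟩
  have hsub : ((Ioc Y (Y + H)).filter fun t : ℕ => ¬ Rep (a + q₀ * t)) ⊆
      (Ioc Y (Y + H)).filter fun t : ℕ =>
        ∀ s ∈ range K ×ˢ range K, rho (q₁ * t + b' s.1 s.2).toNat = 0 := by
    intro t ht
    rw [mem_filter] at ht ⊢
    refine ⟨ht.1, fun s _ => ?_⟩
    by_contra h0
    exact ht.2 (hG ▸ AP_rep huv (hb1 s.1 s.2) h0)
  refine le_trans (Nat.cast_le.mpr (card_le_card hsub)) (le_trans (le_of_eq ?_) (h5.trans ?_))
  · congr!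
  refine mul_le_mul_of_nonneg_left ?_ (Nat.cast_nonneg _)
  have hK4 : (0 : ℝ) < (K : ℝ) ^ 4 := by
    have : (0 : ℝ) < K := by exact_mod_cast hK0
    positivity
  have hcard : (((range K ×ˢ range K).card : ℕ) : ℝ) ^ 2 = (K : ℝ) ^ 4 := by
    rw [card_product, card_range]
    push_cast
    ring
  rw [hcard]
  have e1 := h2 1 Q le_rfl (h3.trans hhi)
  have e2 := h2 Q H hQ1 hhi
  have m1 := min_le_left (ε / 100) (ε / (C * (J : ℝ) ^ 2))
  have m2 := min_le_right (ε / 100) (ε / (C * (J : ℝ) ^ 2))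
  have f1 : 11000 * (∑ q ∈ Cop q₁ 1 Q, (cc (range K ×ˢ range K) (fun x => b' x.1 x.2) q : ℝ) / q) /
      (K : ℝ) ^ 4 ≤ 11110 * ε := by
    rw [div_le_iff₀ hK4]
    have := mul_le_mul_of_nonneg_left (add_le_add (hs Q) m1) hK4.le
    linarith
  have f2 : C * (J : ℝ) ^ 2 *
      (∑ q ∈ Cop q₁ Q H, (cc (range K ×ˢ range K) (fun x => b' x.1 x.2) q : ℝ) / q) /
        (K : ℝ) ^ 4 ≤ 2 * ε := by
    rw [div_le_iff₀ hK4]
    have g1 := e2.trans (mul_le_mul_of_nonneg_left (add_le_add (hQ H) m2) hK4.le)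
    refine (mul_le_mul_of_nonneg_left g1 (by positivity)).trans (le_of_eq ?_)
    field_simp
    ring
  have f3 : C / J ≤ ε := by
    rw [div_le_iff₀ hJ0]
    linarith
  linarith

theorem ap {ε : ℝ} (hε : 0 < ε) {q₀ a : ℕ} (hq : 0 < q₀) (h : Data ε q₀ a) :
    ∀ᶠ X : ℕ in atTop,
      (((range X).filter fun t : ℕ => ¬ Rep (a + q₀ * t)).card : ℝ) ≤ 12000 * ε * X := by
  obtain ⟨J, hJ1, hJ, hH⟩ := AP_block hε hq h
  have hJ2 : 0 < J ^ 2 := by positivity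
  have ht : Tendsto (fun X : ℕ => X / J ^ 2 + 1) atTop atTop :=
    tendsto_atTop_mono (fun X => Nat.le_succ _) (Nat.tendsto_div_const_atTop hJ2.ne')
  obtain ⟨N, hN⟩ := exists_nat_ge (((J : ℝ) + 1 + 11113 * ε * (J : ℝ) ^ 2) / (886 * ε))
  rw [div_le_iff₀ (by positivity)] at hN
  filter_upwards [ht.eventually hH, eventually_ge_atTop N] with X h1 h2
  have h3 : X ≤ J ^ 2 * (X / J ^ 2 + 1) := (Nat.lt_mul_div_succ X hJ2).le
  have h4 : J ^ 2 * (X / J ^ 2 + 1) ≤ X + J ^ 2 := by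
    rw [mul_add, mul_one]
    exact Nat.add_le_add_right (Nat.mul_div_le _ _) _
  generalize X / J ^ 2 + 1 = H at h1 h3 h4
  have hJr : (1 : ℝ) ≤ J := by exact_mod_cast hJ1
  have hX : (N : ℝ) ≤ X := by exact_mod_cast h2
  have h4' : (J : ℝ) ^ 2 * H ≤ X + (J : ℝ) ^ 2 := by exact_mod_cast h4
  rcases Nat.eq_zero_or_pos H with h0 | h0
  · have : X = 0 := by
      rw [h0] at h3
      omega
    subst this
    simp
  refine (AP_cover _ h0 h3 (B := H * (11113 * ε)) (by positivity) fun i hi1 hi2 =>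
    h1 (i * H) (Nat.mul_le_mul_right _ hi1) (Nat.mul_le_mul_right _ hi2.le)).trans ?_
  have h5 : (J : ℝ) * H ≤ ε * X + J := by
    have g0 : (0 : ℝ) ≤ X := Nat.cast_nonneg _
    have g2 := mul_le_mul_of_nonneg_right hJ g0
    have g1 : (J : ℝ) * (J * H) ≤ J * (ε * X + J) := by linarith
    exact le_of_mul_le_mul_left g1 (by linarith)
  have h6 := mul_le_mul_of_nonneg_left h4' (show 0 ≤ 11113 * ε by positivity)
  have h7 := mul_le_mul_of_nonneg_left hX (show 0 ≤ 886 * ε by positivity)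
  linarith

end Pool.Agent.MP_c903c4_nt

end
end

section

/-!
The local-global theorem for almost all integers.
-/

open Finset Filter Topology
open scoped Classical

noncomputable section

namespace Pool.Agent.MP_c903c4_nt

lemma Loc.mod {q n : ℕ} (h : Loc q n) : Loc q (n % q) := by
  obtain ⟨a, b, c, d, h1, h2⟩ := h
  exact ⟨a, b, c, d, h1, (Nat.mod_modEq n q).trans h2⟩

theorem main {ε : ℝ} (hε : 0 < ε) : ∃ q : ℕ, 0 < q ∧ ∀ᶠ x : ℕ in atTop,
    (((range x).filter fun n => Loc q n ∧ ¬ Rep n).card : ℝ) ≤ ε * x := by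
  set η : ℝ := ε / 24002 with hη
  have hη0 : 0 < η := by positivity
  obtain ⟨q, Bad, hq, hB, hD⟩ := gc hη0
  refine ⟨q, hq, ?_⟩
  have h1 : ∀ᶠ X : ℕ in atTop, ∀ a ∈ range q, a ∉ Bad → Loc q a →
      (((range X).filter fun t : ℕ => ¬ Rep (a + q * t)).card : ℝ) ≤ 12000 * η * X := by
    refine (Filter.eventually_all_finset _).2 fun a ha => ?_
    by_cases h : a ∉ Bad ∧ Loc q a
    · exact (ap hη0 hq (hD a (mem_range.1 ha) h.1 h.2)).mono fun X hX _ _ => hX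
    · exact Eventually.of_forall fun X h1 h2 => absurd ⟨h1, h2⟩ h
  have t1 : Tendsto (fun x : ℕ => x / q + 1) atTop atTop :=
    tendsto_atTop_mono (fun x => Nat.le_succ _) (Nat.tendsto_div_const_atTop hq.ne')
  filter_upwards [t1.eventually h1, eventually_ge_atTop q] with x hx hxq
  set X := x / q + 1 with hX
  set A := (range x).filter fun n => Loc q n ∧ ¬ Rep n with hA
  have c1 : A.card = ∑ a ∈ range q, (A.filter fun n => n % q = a).card :=
    Finset.card_eq_sum_card_fiberwise fun a _ => by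
      simp only [coe_range, Set.mem_Iio]
      exact Nat.mod_lt _ hq
  have c2 : ∀ a, (A.filter fun n => n % q = a).card ≤
      ((range X).filter fun t : ℕ => ¬ Rep (a + q * t)).card := by
    intro a
    refine Finset.card_le_card_of_injOn (fun n => n / q) (fun n hn => ?_) fun n hn m hm h => ?_
    · obtain ⟨b1, b2⟩ := mem_filter.1 (Finset.mem_coe.1 hn)
      obtain ⟨b3, b4⟩ := mem_filter.1 b1
      refine Finset.mem_coe.2 (mem_filter.2 ⟨mem_range.2 ?_, ?_⟩)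
      · exact Nat.lt_succ_of_le (Nat.div_le_div_right (mem_range.1 b3).le)
      · rw [← b2, Nat.mod_add_div]
        exact b4.2
    · have b1 := (mem_filter.1 (Finset.mem_coe.1 hn)).2
      have b2 := (mem_filter.1 (Finset.mem_coe.1 hm)).2
      have h3 : n / q = m / q := h
      rw [← Nat.div_add_mod n q, ← Nat.div_add_mod m q, h3, b1, b2]
  have hX0 : (0 : ℝ) ≤ X := by positivity
  have c3 : ∀ a ∈ range q, ((A.filter fun n => n % q = a).card : ℝ) ≤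
      (if a ∈ Bad then (X : ℝ) else 0) + 12000 * η * X := by
    intro a ha
    have c4 : ((A.filter fun n => n % q = a).card : ℝ) ≤
        ((range X).filter fun t : ℕ => ¬ Rep (a + q * t)).card := by exact_mod_cast c2 a
    have c5 : 0 ≤ 12000 * η * X := by positivity
    split_ifs with h
    · have : (((range X).filter fun t : ℕ => ¬ Rep (a + q * t)).card : ℝ) ≤ X := by
        exact_mod_cast (Finset.card_filter_le _ _).trans (card_range X).le
      linarith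
    · by_cases hl : Loc q a
      · have := hx a ha h hl
        linarith
      · have : (A.filter fun n => n % q = a) = ∅ := by
          refine Finset.filter_eq_empty_iff.2 fun n hn h' => hl ?_
          rw [← h']
          exact (mem_filter.1 hn).2.1.mod
        rw [this]
        simpa using c5
  have c6 := Finset.sum_le_sum c3
  rw [← Nat.cast_sum, ← c1, Finset.sum_add_distrib, Finset.sum_const, card_range, nsmul_eq_mul,
    ← Finset.sum_filter, Finset.sum_const, nsmul_eq_mul] at c6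
  have c7 : (((range q).filter fun a => a ∈ Bad).card : ℝ) ≤ η * q := by
    refine le_trans ?_ hB
    exact_mod_cast Finset.card_le_card fun a ha => (mem_filter.1 ha).2
  have c8 : (q : ℝ) * X ≤ 2 * x := by
    have : q * X ≤ 2 * x := by
      have := Nat.mul_div_le x q
      rw [hX, Nat.mul_succ]
      omega
    exact_mod_cast this
  have c9 := mul_le_mul_of_nonneg_right c7 hX0
  have e : ε = 24002 * η := by rw [hη]; ring
  rw [e]
  nlinarith

end Pool.Agent.MP_c903c4_nt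

end
end
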